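import Mathlib

set_option autoImplicit false

namespace Pool.Agent.Odious24

open Finset

theorem parts (a g : ℕ → ℝ) (D m : ℕ) :
    ∑ d ∈ Ioc D (D + m + 1), a d * g d =
      (∑ k ∈ Icc 1 (D + m + 1), a k) * g (D + m + 1) - (∑ k ∈ Icc 1 D, a k) * g (D + 1) +
        ∑ d ∈ Ioc D (D + m), (∑ k ∈ Icc 1 d, a k) * (g d - g (d + 1)) := by
  induction m with
  | zero =>
    simp only [add_zero, Ioc_self, sum_empty]
    rw [Nat.Ioc_succ_singleton, sum_singleton, sum_Icc_succ_top (by omega)]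
    ring
  | succ m ih =>
    rw [← add_assoc, sum_Ioc_succ_top (by omega), ih, sum_Ioc_succ_top (by omega : D ≤ D + m),
      sum_Icc_succ_top (by omega : 1 ≤ D + m + 1 + 1)]
    ring

theorem tele (h : ℕ → ℝ) (D m : ℕ) :
    ∑ d ∈ Ioc D (D + m), (h d - h (d + 1)) = h (D + 1) - h (D + m + 1) := by
  induction m with
  | zero => simp
  | succ m ih =>
    rw [← add_assoc, sum_Ioc_succ_top (by omega), ih]
    ring

/-- Axer's theorem -/
theorem axer (a : ℕ → ℝ) (ha : ∀ n, |a n| ≤ 1)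
    (hsmall : ∀ ε : ℝ, 0 < ε → ∃ N : ℕ, ∀ n : ℕ, N ≤ n → |∑ k ∈ Icc 1 n, a k| ≤ ε * n)
    (F F1 F2 : ℝ → ℝ) (hF : ∀ t, 1 ≤ t → F t = F1 t - F2 t)
    (hm1 : ∀ s t, 1 ≤ s → s ≤ t → F1 s ≤ F1 t) (hm2 : ∀ s t, 1 ≤ s → s ≤ t → F2 s ≤ F2 t)
    (C : ℝ) (hC : ∀ t, 1 ≤ t → |F t| ≤ C) (ε : ℝ) (hε : 0 < ε) :
    ∃ X : ℕ, ∀ x : ℕ, X ≤ x → |∑ d ∈ Icc 1 x, a d * F ((x : ℝ) / d)| ≤ ε * x := by
  have hC0 : 0 ≤ C := (abs_nonneg _).trans (hC 1 (le_refl _))
  obtain ⟨T, hT⟩ := exists_nat_gt (2 * C / ε + 2)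
  have hTpos : (2 : ℝ) < T := by
    have : 0 ≤ 2 * C / ε := by positivity
    linarith
  have hT2 : 2 ≤ T := by exact_mod_cast hTpos.le
  have hCT : C / T ≤ ε / 2 := by
    rw [div_le_iff₀ (by linarith)]
    have h1 : 2 * C / ε ≤ T := by linarith
    rw [div_le_iff₀ hε] at h1
    linarith
  set V := (F1 T - F1 1) + (F2 T - F2 1) with hV
  have hV0 : 0 ≤ V := by
    have h1 := hm1 1 T (le_refl _) (by linarith)
    have h2 := hm2 1 T (le_refl _) (by linarith)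
    linarith
  set ε' := ε / (2 * (2 * C + V + 1)) with hε'
  have hε'0 : 0 < ε' := by positivity
  obtain ⟨N, hN⟩ := hsmall ε' hε'0
  obtain ⟨X, hX⟩ := exists_nat_gt (N / ε')
  refine ⟨max X 2, ?_⟩
  intro x hx
  have hxX : (X : ℝ) ≤ x := by exact_mod_cast (le_max_left _ _).trans hx
  have hx2 : 2 ≤ x := (le_max_right _ _).trans hx
  have hx0 : (0 : ℝ) < x := by
    have : 0 < x := by omega
    exact_mod_cast this
  have hNx : (N : ℝ) ≤ ε' * x := by
    have h1 : (N : ℝ) / ε' ≤ x := by linarith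
    rw [div_le_iff₀ hε'0] at h1
    linarith
  have hA : ∀ n : ℕ, n ≤ x → |∑ k ∈ Icc 1 n, a k| ≤ ε' * x := by
    intro n hn
    rcases le_or_gt N n with h | h
    · refine (hN n h).trans ?_
      have : (n : ℝ) ≤ x := by exact_mod_cast hn
      exact mul_le_mul_of_nonneg_left this hε'0.le
    · refine (abs_sum_le_sum_abs _ _).trans ((sum_le_sum fun k _ => ha k).trans ?_)
      rw [sum_const, Nat.card_Icc, nsmul_eq_mul, mul_one]
      have : ((n + 1 - 1 : ℕ) : ℝ) ≤ N := by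
        have : n + 1 - 1 ≤ N := by omega
        exact_mod_cast this
      linarith
  obtain ⟨D, hD⟩ : ∃ D, D = x / T := ⟨_, rfl⟩
  have hDx : D < x := by
    rw [hD]
    exact Nat.div_lt_self (by omega) (by omega)
  have hDT : x < T * (D + 1) := by
    have h1 := Nat.div_add_mod x T
    have h2 := Nat.mod_lt x (show T > 0 by omega)
    rw [← hD] at h1
    rw [mul_add, mul_one]
    linarith
  have hDr : (D : ℝ) ≤ x / T := by
    rw [hD]
    exact Nat.cast_div_le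
  clear hD
  obtain ⟨m, hm⟩ : ∃ m, x = D + m + 1 := ⟨x - D - 1, by omega⟩
  have hsplit : ∑ d ∈ Icc 1 x, a d * F ((x : ℝ) / d) =
      ∑ d ∈ Icc 1 D, a d * F ((x : ℝ) / d) + ∑ d ∈ Ioc D x, a d * F ((x : ℝ) / d) := by
    rw [← sum_union]
    · apply sum_congr _ (fun _ _ => rfl)
      ext d
      rw [mem_union, mem_Icc, mem_Icc, mem_Ioc]
      omega
    · rw [disjoint_left]
      intro d h1 h2
      rw [mem_Icc] at h1
      rw [mem_Ioc] at h2
      omega
  have hge : ∀ d : ℕ, 1 ≤ d → d ≤ x → 1 ≤ (x : ℝ) / d := by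
    intro d h1 h2
    have hd0 : (0 : ℝ) < d := by exact_mod_cast h1
    rw [le_div_iff₀ hd0, one_mul]
    exact_mod_cast h2
  have hfirst : |∑ d ∈ Icc 1 D, a d * F ((x : ℝ) / d)| ≤ ε / 2 * x := by
    have h1 : |∑ d ∈ Icc 1 D, a d * F ((x : ℝ) / d)| ≤ ∑ d ∈ Icc 1 D, C := by
      refine (abs_sum_le_sum_abs _ _).trans (sum_le_sum fun d hd => ?_)
      rw [mem_Icc] at hd
      rw [abs_mul]
      calc |a d| * |F ((x : ℝ) / d)| ≤ 1 * C :=
            mul_le_mul (ha d) (hC _ (hge d hd.1 (by omega))) (abs_nonneg _) (by norm_num)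
        _ = C := one_mul _
    rw [sum_const, Nat.card_Icc, nsmul_eq_mul] at h1
    have h2 : ((D + 1 - 1 : ℕ) : ℝ) ≤ x / T := by
      rw [Nat.add_sub_cancel]
      exact hDr
    have h3 : ((D + 1 - 1 : ℕ) : ℝ) * C ≤ x / T * C := mul_le_mul_of_nonneg_right h2 hC0
    have h4 : (x : ℝ) / T * C = x * (C / T) := by ring
    have h5 : (x : ℝ) * (C / T) ≤ x * (ε / 2) := mul_le_mul_of_nonneg_left hCT hx0.le
    linarith
  have hsecond : |∑ d ∈ Ioc D x, a d * F ((x : ℝ) / d)| ≤ ε / 2 * x := by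
    have h1 := parts a (fun d => F ((x : ℝ) / d)) D m
    rw [← hm] at h1
    rw [h1]
    have hxx : (x : ℝ) / x = 1 := div_self hx0.ne'
    have e1 : |(∑ k ∈ Icc 1 x, a k) * F ((x : ℝ) / x)| ≤ ε' * x * C := by
      rw [abs_mul, hxx]
      exact mul_le_mul (hA x (le_refl _)) (hC 1 (le_refl _)) (abs_nonneg _) (by positivity)
    have e2 : |(∑ k ∈ Icc 1 D, a k) * F ((x : ℝ) / ((D + 1 : ℕ) : ℝ))| ≤ ε' * x * C := by
      rw [abs_mul]
      exact mul_le_mul (hA D hDx.le) (hC _ (hge (D + 1) (by omega) (by omega))) (abs_nonneg _)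
        (by positivity)
    have e3 : |∑ d ∈ Ioc D (D + m), (∑ k ∈ Icc 1 d, a k) *
        (F ((x : ℝ) / d) - F ((x : ℝ) / ((d + 1 : ℕ) : ℝ)))| ≤ ε' * x * V := by
      have f1 : ∀ d ∈ Ioc D (D + m), |(∑ k ∈ Icc 1 d, a k) *
          (F ((x : ℝ) / d) - F ((x : ℝ) / ((d + 1 : ℕ) : ℝ)))| ≤
          ε' * x * (((F1 ((x : ℝ) / d) + F2 ((x : ℝ) / d)) -
            (F1 ((x : ℝ) / ((d + 1 : ℕ) : ℝ)) + F2 ((x : ℝ) / ((d + 1 : ℕ) : ℝ))))) := by
        intro d hd
        rw [mem_Ioc] at hd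
        have hd0 : (0 : ℝ) < d := by
          have : 0 < d := by omega
          exact_mod_cast this
        have g1 := hge d (by omega) (by omega)
        have g2 := hge (d + 1) (by omega) (by omega)
        have g3 : (x : ℝ) / ((d + 1 : ℕ) : ℝ) ≤ (x : ℝ) / d := by
          apply div_le_div_of_nonneg_left hx0.le hd0
          push_cast
          linarith
        have g4 := hm1 _ _ g2 g3
        have g5 := hm2 _ _ g2 g3
        rw [abs_mul]
        apply mul_le_mul (hA d (by omega)) _ (abs_nonneg _) (by positivity)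
        rw [hF _ g1, hF _ g2, abs_le]
        constructor <;> linarith
      refine (abs_sum_le_sum_abs _ _).trans ((sum_le_sum f1).trans ?_)
      rw [← mul_sum]
      have f2 := tele (fun d => F1 ((x : ℝ) / d) + F2 ((x : ℝ) / d)) D m
      rw [f2, ← hm, hxx]
      apply mul_le_mul_of_nonneg_left _ (by positivity)
      have g2 := hge (D + 1) (by omega) (by omega)
      have g6 : (x : ℝ) / ((D + 1 : ℕ) : ℝ) ≤ T := by
        rw [div_le_iff₀ (by positivity)]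
        exact_mod_cast hDT.le
      have g4 := hm1 _ _ g2 g6
      have g5 := hm2 _ _ g2 g6
      rw [hV]
      linarith
    have e4 : ε' * x * C + ε' * x * C + ε' * x * V ≤ ε / 2 * x := by
      have h2 : ε' * (2 * C + V + 1) = ε / 2 := by
        rw [hε']
        field_simp
      have h3 : ε' * x * C + ε' * x * C + ε' * x * V = ε' * (2 * C + V) * x := by ring
      rw [h3]
      apply mul_le_mul_of_nonneg_right _ hx0.le
      nlinarith
    have e5 := abs_add_le ((∑ k ∈ Icc 1 x, a k) * F ((x : ℝ) / x) -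
      (∑ k ∈ Icc 1 D, a k) * F ((x : ℝ) / ((D + 1 : ℕ) : ℝ)))
      (∑ d ∈ Ioc D (D + m), (∑ k ∈ Icc 1 d, a k) *
        (F ((x : ℝ) / d) - F ((x : ℝ) / ((d + 1 : ℕ) : ℝ))))
    have e6 := abs_sub ((∑ k ∈ Icc 1 x, a k) * F ((x : ℝ) / x))
      ((∑ k ∈ Icc 1 D, a k) * F ((x : ℝ) / ((D + 1 : ℕ) : ℝ)))
    linarith
  rw [hsplit]
  have := abs_add_le (∑ d ∈ Icc 1 D, a d * F ((x : ℝ) / d)) (∑ d ∈ Ioc D x, a d * F ((x : ℝ) / d))
  linarith

end Pool.Agent.Odious24
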