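import Mathlib
import Pool.Agent.Helper64.PNT.WI

set_option autoImplicit false

namespace Pool.Agent.Odious24

open Filter Topology

/-- the Moebius function restricted to numbers prime to 6 -/
noncomputable def mu6 (n : ℕ) : ℝ :=
  if Nat.Coprime n 6 then ((ArithmeticFunction.moebius n : ℤ) : ℝ) else 0

theorem abs_mu6_le (n : ℕ) : |mu6 n| ≤ 1 := by
  unfold mu6
  split_ifs
  · have := ArithmeticFunction.abs_moebius_le_one (n := n)
    exact_mod_cast this
  · simp

theorem mu6_cast (n : ℕ) : ((mu6 n : ℝ) : ℂ) =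
    (1 : DirichletCharacter ℂ 6) n * ((ArithmeticFunction.moebius n : ℤ) : ℂ) := by
  unfold mu6
  by_cases h : Nat.Coprime n 6
  · have h1 : IsUnit ((n : ℕ) : ZMod 6) := (ZMod.isUnit_iff_coprime n 6).mpr h
    rw [if_pos h, MulChar.one_apply h1]
    push_cast
    ring
  · have h1 : ¬ IsUnit ((n : ℕ) : ZMod 6) := fun h2 => h ((ZMod.isUnit_iff_coprime n 6).mp h2)
    rw [if_neg h, MulChar.map_nonunit _ h1]
    simp

/-- the zeta function minus its pole -/
noncomputable def zpole : ℂ → ℂ :=
  Function.update (fun s => riemannZeta s - 1 / (s - 1)) 1 (Real.eulerMascheroniConstant : ℂ)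

theorem continuous_zpole : Continuous zpole := by
  rw [continuous_iff_continuousAt]
  intro s
  by_cases hs : s = 1
  · subst hs
    unfold zpole
    rw [continuousAt_update_same]
    exact tendsto_riemannZeta_sub_one_div
  · unfold zpole
    rw [continuousAt_update_of_ne hs]
    apply ContinuousAt.sub (differentiableAt_riemannZeta hs).continuousAt
    apply ContinuousAt.div continuousAt_const (by fun_prop)
    exact sub_ne_zero.mpr hs

theorem mu6_tendsto : Tendsto (fun x : ℝ => (∑ k ∈ Finset.Icc 1 ⌊x⌋₊, (1 + mu6 k)) / x) atTop (𝓝 1) := by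
  have hne : ∀ s : ℂ, 1 ≤ s.re → DirichletCharacter.LFunctionTrivChar₁ 6 s ≠ 0 := by
    intro s hs
    by_cases h : s = 1
    · subst h
      exact DirichletCharacter.LFunctionTrivChar₁_apply_one_ne_zero 6
    · rw [DirichletCharacter.LFunctionTrivChar₁, Function.update_of_ne h, mul_ne_zero_iff]
      exact ⟨sub_ne_zero_of_ne h,
        DirichletCharacter.LFunction_ne_zero_of_one_le_re _ (Or.inr h) hs⟩
  have hsum1 : ∀ s : ℂ, 1 < s.re → LSeriesSummable (fun n => ((mu6 n : ℝ) : ℂ)) s := by
    intro s hs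
    have h := DirichletCharacter.LSeriesSummable_mul (1 : DirichletCharacter ℂ 6)
      (ArithmeticFunction.LSeriesSummable_moebius_iff.mpr hs)
    refine (LSeriesSummable_congr s ?_).mpr h
    intro n _
    rw [mu6_cast]
    rfl
  apply Pool.Agent.Helper64.PNT.wiener_ikehara (M := 2)
    (G := fun s => zpole s + (s - 1) / DirichletCharacter.LFunctionTrivChar₁ 6 s)
    (fun n => by
      have := abs_le.mp (abs_mu6_le n)
      linarith [this.1]) (by norm_num)
  · intro n
    calc ∑ k ∈ Finset.Icc 1 n, (1 + mu6 k) ≤ ∑ k ∈ Finset.Icc 1 n, (2 : ℝ) := by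
          apply Finset.sum_le_sum
          intro k _
          have := abs_le.mp (abs_mu6_le k)
          linarith [this.2]
      _ = 2 * n := by
          rw [Finset.sum_const, Nat.card_Icc, nsmul_eq_mul]
          push_cast [Nat.add_sub_cancel]
          ring
  · apply ContinuousOn.add continuous_zpole.continuousOn
    apply ContinuousOn.div (by fun_prop)
      (DirichletCharacter.differentiable_LFunctionTrivChar₁ 6).continuous.continuousOn
    intro s hs
    exact hne s hs
  · intro s hs
    have hs1 : s ≠ 1 := by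
      rintro rfl
      simp at hs
    have h1 : LSeries (fun n => ((1 + mu6 n : ℝ) : ℂ)) s =
        riemannZeta s + LSeries (fun n => ((mu6 n : ℝ) : ℂ)) s := by
      have h2 : (fun n : ℕ => ((1 + mu6 n : ℝ) : ℂ)) = (1 : ℕ → ℂ) + (fun n => ((mu6 n : ℝ) : ℂ)) := by
        funext n
        simp
      rw [h2, LSeries_add (LSeriesSummable_one_iff.mpr hs) (hsum1 s hs),
        LSeries_one_eq_riemannZeta hs]
    have h3 : LSeries (fun n => ((mu6 n : ℝ) : ℂ)) s = (s - 1) / DirichletCharacter.LFunctionTrivChar₁ 6 s := by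
      have h4 := DirichletCharacter.LSeries.mul_mu_eq_one (1 : DirichletCharacter ℂ 6) hs
      have h5 : LSeries (fun n => ((mu6 n : ℝ) : ℂ)) s =
          LSeries ((fun n : ℕ => (1 : DirichletCharacter ℂ 6) n) *
            (fun n : ℕ => ((ArithmeticFunction.moebius n : ℤ) : ℂ))) s := by
        apply LSeries_congr
        intro n _
        rw [mu6_cast]
        rfl
      have h6 : DirichletCharacter.LFunctionTrivChar₁ 6 s =
          (s - 1) * LSeries (fun n : ℕ => (1 : DirichletCharacter ℂ 6) n) s := by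
        rw [DirichletCharacter.LFunctionTrivChar₁, Function.update_of_ne hs1,
          DirichletCharacter.LFunctionTrivChar, DirichletCharacter.LFunction_eq_LSeries _ hs]
      rw [h5, h6]
      have h7 : LSeries (fun n : ℕ => (1 : DirichletCharacter ℂ 6) n) s ≠ 0 :=
        DirichletCharacter.LSeries_ne_zero_of_one_lt_re _ hs
      have h8 : s - 1 ≠ 0 := sub_ne_zero_of_ne hs1
      rw [mul_comm] at h4
      rw [div_mul_eq_div_div, div_self h8, eq_div_iff h7]
      exact h4
    rw [h1, h3]
    unfold zpole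
    rw [Function.update_of_ne hs1]
    push_cast
    ring

theorem mu6_small (ε : ℝ) (hε : 0 < ε) : ∃ N : ℕ, ∀ n : ℕ, N ≤ n →
    |∑ k ∈ Finset.Icc 1 n, mu6 k| ≤ ε * n := by
  have h1 : Tendsto (fun n : ℕ => (∑ k ∈ Finset.Icc 1 n, (1 + mu6 k)) / (n : ℝ)) atTop (𝓝 1) := by
    have h2 := mu6_tendsto.comp (tendsto_natCast_atTop_atTop (R := ℝ))
    refine h2.congr ?_
    intro n
    simp only [Function.comp, Nat.floor_natCast]
  rw [Metric.tendsto_atTop] at h1
  obtain ⟨N, hN⟩ := h1 ε hε
  refine ⟨max N 1, ?_⟩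
  intro n hn
  have h2 := hN n ((le_max_left _ _).trans hn)
  have hn1 : 1 ≤ n := (le_max_right _ _).trans hn
  have hn0 : (0 : ℝ) < n := by exact_mod_cast hn1
  rw [Real.dist_eq, Finset.sum_add_distrib] at h2
  have h3 : ∑ _k ∈ Finset.Icc 1 n, (1 : ℝ) = n := by
    rw [Finset.sum_const, Nat.card_Icc, nsmul_eq_mul]
    push_cast [Nat.add_sub_cancel]
    ring
  rw [h3] at h2
  have h4 : ((n : ℝ) + ∑ k ∈ Finset.Icc 1 n, mu6 k) / n - 1 = (∑ k ∈ Finset.Icc 1 n, mu6 k) / n := by
    field_simp
    ring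
  rw [h4, abs_div, abs_of_pos hn0, div_lt_iff₀ hn0] at h2
  exact h2.le

end Pool.Agent.Odious24
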