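import Mathlib
import Pool.Agent.Helper24.Odious.Sieve
import Pool.Agent.Helper24.Odious3.Mu
import Pool.Agent.Helper24.Odious3.Axer

set_option autoImplicit false

namespace Pool.Agent.Odious24

open Finset

/-- the convolution identity -/
theorem conv_id (h : ℕ → ℝ) (hmul : ∀ a b, h (a * b) = h a * h b) (h1 : h 1 = 1) (x : ℕ) (hx : 1 ≤ x) :
    ∑ d ∈ Icc 1 x, (mu6 d * h d) * ∑ m ∈ Icc 1 (x / d), (if Nat.Coprime m 6 then h m else 0) = 1 := by
  have hz : ¬ Nat.Coprime 0 6 := by decide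
  have hmu0 : mu6 0 = 0 := by unfold mu6; rw [if_neg hz]
  set f : ArithmeticFunction ℝ := ⟨fun n => mu6 n * h n, by rw [hmu0, zero_mul]⟩ with hf
  set g : ArithmeticFunction ℝ := ⟨fun n => if Nat.Coprime n 6 then h n else 0, by rw [if_neg hz]⟩ with hg
  have hI : ∀ n : ℕ, Icc 1 n = Ioc 0 n := by
    intro n
    ext k
    rw [mem_Icc, mem_Ioc]
    omega
  have h2 := ArithmeticFunction.sum_Ioc_mul_eq_sum_sum f g x
  have h3 : ∑ n ∈ Ioc 0 x, f n * ∑ m ∈ Ioc 0 (x / n), g m =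
      ∑ d ∈ Icc 1 x, (mu6 d * h d) * ∑ m ∈ Icc 1 (x / d), (if Nat.Coprime m 6 then h m else 0) := by
    rw [hI]
    apply sum_congr rfl
    intro d _
    rw [hI]
    rfl
  rw [← h3, ← h2]
  have h4 : ∀ n ∈ Ioc 0 x, (f * g) n = if n = 1 then 1 else 0 := by
    intro n hn
    rw [mem_Ioc] at hn
    rw [ArithmeticFunction.mul_apply]
    by_cases hc : Nat.Coprime n 6
    · have h5 : ∀ p ∈ n.divisorsAntidiagonal, f p.1 * g p.2 =
          ((ArithmeticFunction.moebius p.1 : ℤ) : ℝ) * h n := by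
        intro p hp
        rw [Nat.mem_divisorsAntidiagonal] at hp
        have c1 : Nat.Coprime p.1 6 := Nat.Coprime.coprime_dvd_left ⟨p.2, hp.1.symm⟩ hc
        have c2 : Nat.Coprime p.2 6 := Nat.Coprime.coprime_dvd_left ⟨p.1, by rw [← hp.1]; ring⟩ hc
        have e1 : f p.1 = mu6 p.1 * h p.1 := rfl
        have e2 : g p.2 = if Nat.Coprime p.2 6 then h p.2 else 0 := rfl
        rw [e1, e2, if_pos c2]
        unfold mu6
        rw [if_pos c1, ← hp.1, hmul]
        ring
      rw [sum_congr rfl h5, ← sum_mul]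
      have h6 : ∑ p ∈ n.divisorsAntidiagonal, ((ArithmeticFunction.moebius p.1 : ℤ) : ℝ) =
          if n = 1 then 1 else 0 := by
        have e4 : ((ArithmeticFunction.moebius * (ArithmeticFunction.zeta : ArithmeticFunction ℤ)) :
            ArithmeticFunction ℤ) n = (1 : ArithmeticFunction ℤ) n := by
          rw [ArithmeticFunction.moebius_mul_coe_zeta]
        rw [ArithmeticFunction.coe_mul_zeta_apply] at e4
        have e5 : ∑ p ∈ n.divisorsAntidiagonal, ((ArithmeticFunction.moebius p.1 : ℤ) : ℝ) =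
            ∑ d ∈ n.divisors, ((ArithmeticFunction.moebius d : ℤ) : ℝ) := by
          exact Nat.sum_divisorsAntidiagonal (fun d _ => ((ArithmeticFunction.moebius d : ℤ) : ℝ))
        rw [e5]
        have e6 : ((∑ δ ∈ n.divisors, (ArithmeticFunction.moebius δ : ℤ) : ℤ) : ℝ) =
            (((1 : ArithmeticFunction ℤ) n : ℤ) : ℝ) := by rw [e4]
        rw [Int.cast_sum] at e6
        rw [e6, ArithmeticFunction.one_apply]
        split_ifs <;> simp
      rw [h6]
      by_cases hn1 : n = 1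
      · subst hn1
        simp [h1]
      · simp [hn1]
    · have hn1 : n ≠ 1 := by
        rintro rfl
        exact hc (by decide)
      rw [if_neg hn1]
      apply sum_eq_zero
      intro p hp
      rw [Nat.mem_divisorsAntidiagonal] at hp
      by_cases c1 : Nat.Coprime p.1 6
      · have c2 : ¬ Nat.Coprime p.2 6 := by
          intro c2
          apply hc
          rw [← hp.1]
          exact Nat.Coprime.mul_left c1 c2
        have e2 : g p.2 = if Nat.Coprime p.2 6 then h p.2 else 0 := rfl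
        rw [e2, if_neg c2, mul_zero]
      · have e1 : f p.1 = mu6 p.1 * h p.1 := rfl
        rw [e1]
        unfold mu6
        rw [if_neg c1, zero_mul, zero_mul]
  rw [sum_congr rfl h4, sum_ite_eq', if_pos]
  rw [mem_Ioc]
  omega

/-- counting numbers prime to 6 -/
noncomputable def N6 (n : ℕ) : ℝ := ∑ m ∈ Icc 1 n, if Nat.Coprime m 6 then (1 : ℝ) else 0

/-- harmonic sum over numbers prime to 6 -/
noncomputable def H6 (n : ℕ) : ℝ := ∑ m ∈ Icc 1 n, if Nat.Coprime m 6 then 1 / (m : ℝ) else 0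

theorem N6_succ (n : ℕ) : N6 (n + 1) = N6 n + if Nat.Coprime (n + 1) 6 then (1 : ℝ) else 0 := by
  unfold N6
  rw [sum_Icc_succ_top (by omega)]

theorem H6_succ (n : ℕ) : H6 (n + 1) = H6 n +
    if Nat.Coprime (n + 1) 6 then 1 / ((n + 1 : ℕ) : ℝ) else 0 := by
  unfold H6
  rw [sum_Icc_succ_top (by omega)]

theorem N6_block (q : ℕ) : N6 (6 * q) = 2 * q := by
  induction q with
  | zero => simp [N6]
  | succ q ih =>
    have c1 : Nat.Coprime (6 * q + 1) 6 := (coprime_six_iff _).mpr (by omega)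
    have c2 : ¬ Nat.Coprime (6 * q + 1 + 1) 6 := fun h => by have := (coprime_six_iff _).mp h; omega
    have c3 : ¬ Nat.Coprime (6 * q + 1 + 1 + 1) 6 := fun h => by have := (coprime_six_iff _).mp h; omega
    have c4 : ¬ Nat.Coprime (6 * q + 1 + 1 + 1 + 1) 6 := fun h => by
      have := (coprime_six_iff _).mp h; omega
    have c5 : Nat.Coprime (6 * q + 1 + 1 + 1 + 1 + 1) 6 := (coprime_six_iff _).mpr (by omega)
    have c6 : ¬ Nat.Coprime (6 * q + 1 + 1 + 1 + 1 + 1 + 1) 6 := fun h => by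
      have := (coprime_six_iff _).mp h; omega
    rw [show 6 * (q + 1) = 6 * q + 1 + 1 + 1 + 1 + 1 + 1 by ring, N6_succ, N6_succ, N6_succ, N6_succ,
      N6_succ, N6_succ, ih, if_pos c1, if_neg c2, if_neg c3, if_neg c4, if_pos c5, if_neg c6]
    push_cast
    ring

theorem H6_block (q : ℕ) : H6 (6 * (q + 1)) = H6 (6 * q) + 1 / (6 * (q : ℝ) + 1) + 1 / (6 * (q : ℝ) + 5) := by
  have c1 : Nat.Coprime (6 * q + 1) 6 := (coprime_six_iff _).mpr (by omega)
  have c2 : ¬ Nat.Coprime (6 * q + 1 + 1) 6 := fun h => by have := (coprime_six_iff _).mp h; omega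
  have c3 : ¬ Nat.Coprime (6 * q + 1 + 1 + 1) 6 := fun h => by have := (coprime_six_iff _).mp h; omega
  have c4 : ¬ Nat.Coprime (6 * q + 1 + 1 + 1 + 1) 6 := fun h => by
    have := (coprime_six_iff _).mp h; omega
  have c5 : Nat.Coprime (6 * q + 1 + 1 + 1 + 1 + 1) 6 := (coprime_six_iff _).mpr (by omega)
  have c6 : ¬ Nat.Coprime (6 * q + 1 + 1 + 1 + 1 + 1 + 1) 6 := fun h => by
    have := (coprime_six_iff _).mp h; omega
  rw [show 6 * (q + 1) = 6 * q + 1 + 1 + 1 + 1 + 1 + 1 by ring, H6_succ, H6_succ, H6_succ, H6_succ,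
    H6_succ, H6_succ, if_pos c1, if_neg c2, if_neg c3, if_neg c4, if_pos c5, if_neg c6]
  push_cast
  ring

theorem N6_mono {m n : ℕ} (h : m ≤ n) : N6 m ≤ N6 n := by
  unfold N6
  apply sum_le_sum_of_subset_of_nonneg (Icc_subset_Icc_right h)
  intro i _ _
  split_ifs <;> norm_num

theorem H6_mono {m n : ℕ} (h : m ≤ n) : H6 m ≤ H6 n := by
  unfold H6
  apply sum_le_sum_of_subset_of_nonneg (Icc_subset_Icc_right h)
  intro i _ _
  split_ifs
  · positivity
  · norm_num

theorem H6_nonneg (n : ℕ) : 0 ≤ H6 n := by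
  unfold H6
  apply sum_nonneg
  intro i _
  split_ifs
  · positivity
  · norm_num

theorem N6_bound (t : ℝ) (ht : 1 ≤ t) : |N6 ⌊t⌋₊ - t / 3| ≤ 2 := by
  set n := ⌊t⌋₊ with hn
  have h1 : (n : ℝ) ≤ t := Nat.floor_le (by linarith)
  have h2 : t < n + 1 := Nat.lt_floor_add_one t
  have h3 : 6 * (n / 6) ≤ n := by omega
  have h4 : n ≤ 6 * (n / 6 + 1) := by omega
  have h5 := N6_mono h3
  have h6 := N6_mono h4
  rw [N6_block] at h5 h6
  have h7 : (6 : ℝ) * ((n / 6 : ℕ) : ℝ) ≤ n := by exact_mod_cast h3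
  have h8 : (n : ℝ) + 1 ≤ 6 * (((n / 6 : ℕ) : ℝ) + 1) := by
    have : n + 1 ≤ 6 * (n / 6 + 1) := by omega
    exact_mod_cast this
  push_cast at h6
  rw [abs_le]
  constructor <;> linarith

/-- a sequence with small increments has a limit, with a rate -/
theorem exists_limit (u : ℕ → ℝ) (K : ℝ) (hK : 0 ≤ K)
    (h : ∀ n : ℕ, 1 ≤ n → |u (n + 1) - u n| ≤ K * (1 / (n : ℝ) - 1 / ((n : ℝ) + 1))) :
    ∃ c : ℝ, ∀ n : ℕ, 1 ≤ n → |u n - c| ≤ K / n := by
  set P : ℕ → ℝ := fun n => u (n + 1) - K / ((n : ℝ) + 1) with hP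
  set Q : ℕ → ℝ := fun n => u (n + 1) + K / ((n : ℝ) + 1) with hQ
  have hPm : Monotone P := by
    apply monotone_nat_of_le_succ
    intro n
    have h1 := (abs_le.mp (h (n + 1) (by omega))).1
    simp only [hP]
    push_cast at h1 ⊢
    have e1 : K / ((n : ℝ) + 1) = K * (1 / ((n : ℝ) + 1)) := by ring
    have e2 : K / ((n : ℝ) + 1 + 1) = K * (1 / ((n : ℝ) + 1 + 1)) := by ring
    rw [e1, e2]
    nlinarith
  have hQm : Antitone Q := by
    apply antitone_nat_of_succ_le
    intro n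
    have h1 := (abs_le.mp (h (n + 1) (by omega))).2
    simp only [hQ]
    push_cast at h1 ⊢
    have e1 : K / ((n : ℝ) + 1) = K * (1 / ((n : ℝ) + 1)) := by ring
    have e2 : K / ((n : ℝ) + 1 + 1) = K * (1 / ((n : ℝ) + 1 + 1)) := by ring
    rw [e1, e2]
    nlinarith
  have hPQ : ∀ n m, P n ≤ Q m := by
    intro n m
    have h1 : P n ≤ P (max n m) := hPm (le_max_left _ _)
    have h2 : Q (max n m) ≤ Q m := hQm (le_max_right _ _)
    have h3 : P (max n m) ≤ Q (max n m) := by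
      simp only [hP, hQ]
      have : 0 ≤ K / (((max n m : ℕ) : ℝ) + 1) := by positivity
      linarith
    linarith
  have hbdd : BddAbove (Set.range P) := ⟨Q 0, by
    rintro _ ⟨n, rfl⟩
    exact hPQ n 0⟩
  refine ⟨⨆ n, P n, ?_⟩
  intro n hn
  obtain ⟨m, rfl⟩ : ∃ m, n = m + 1 := ⟨n - 1, by omega⟩
  have h1 : P m ≤ ⨆ n, P n := le_ciSup hbdd m
  have h2 : (⨆ n, P n) ≤ Q m := ciSup_le (fun n => hPQ n m)
  simp only [hP, hQ] at h1 h2
  push_cast
  rw [abs_le]
  constructor <;> linarith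

theorem H6_limit : ∃ c : ℝ, ∀ q : ℕ, 1 ≤ q → |H6 (6 * q) - 1 / 3 * Real.log (6 * q) - c| ≤ 1 / q := by
  obtain ⟨c, hc⟩ := exists_limit (fun q => H6 (6 * q) - 1 / 3 * Real.log (6 * q)) 1 (by norm_num) (by
    intro q hq
    have hq0 : (0 : ℝ) < q := by exact_mod_cast hq
    have hq1 : (1 : ℝ) ≤ q := by exact_mod_cast hq
    have hb := H6_block q
    push_cast at hb ⊢
    have hlog : Real.log (6 * ((q : ℝ) + 1)) = Real.log (6 * q) + Real.log (1 + 1 / q) := by
      rw [← Real.log_mul (by positivity) (by positivity)]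
      congr 1
      field_simp
    have hl1 : Real.log (1 + 1 / (q : ℝ)) ≤ 1 / q := by
      have := Real.log_le_sub_one_of_pos (show 0 < 1 + 1 / (q : ℝ) by positivity)
      linarith
    have hl2 : 1 / ((q : ℝ) + 1) ≤ Real.log (1 + 1 / (q : ℝ)) := by
      have := Real.one_sub_inv_le_log_of_pos (show 0 < 1 + 1 / (q : ℝ) by positivity)
      have e : 1 - (1 + 1 / (q : ℝ))⁻¹ = 1 / ((q : ℝ) + 1) := by
        field_simp
        ring
      linarith
    rw [hb, hlog]
    have e1 : H6 (6 * q) + 1 / (6 * (q : ℝ) + 1) + 1 / (6 * (q : ℝ) + 5) -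
        1 / 3 * (Real.log (6 * q) + Real.log (1 + 1 / q)) - (H6 (6 * q) - 1 / 3 * Real.log (6 * q)) =
        1 / (6 * (q : ℝ) + 1) + 1 / (6 * (q : ℝ) + 5) - 1 / 3 * Real.log (1 + 1 / q) := by ring
    rw [e1]
    have a1 : 1 / (6 * (q : ℝ) + 5) ≤ 1 / (6 * (q : ℝ) + 1) :=
      one_div_le_one_div_of_le (by positivity) (by linarith)
    have a2 : 2 * (1 / (6 * (q : ℝ) + 1)) - 1 / 3 * (1 / ((q : ℝ) + 1)) ≤
        1 / (q : ℝ) - 1 / ((q : ℝ) + 1) := by
      rw [← sub_nonneg]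
      have : 1 / (q : ℝ) - 1 / ((q : ℝ) + 1) - (2 * (1 / (6 * (q : ℝ) + 1)) - 1 / 3 * (1 / ((q : ℝ) + 1))) =
          (13 * q + 3) / (3 * q * (q + 1) * (6 * q + 1)) := by
        field_simp
        ring
      rw [this]
      positivity
    have a3 : -(1 / (q : ℝ) - 1 / ((q : ℝ) + 1)) ≤ 2 * (1 / (6 * (q : ℝ) + 5)) - 1 / 3 * (1 / (q : ℝ)) := by
      rw [← sub_nonneg]
      have : 2 * (1 / (6 * (q : ℝ) + 5)) - 1 / 3 * (1 / (q : ℝ)) - -(1 / (q : ℝ) - 1 / ((q : ℝ) + 1)) =
          (13 * q + 10) / (3 * q * (q + 1) * (6 * q + 5)) := by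
        field_simp
        ring
      rw [this]
      positivity
    rw [one_mul, abs_le]
    constructor <;> linarith)
  refine ⟨c, fun q hq => ?_⟩
  have := hc q hq
  push_cast at this
  exact this

theorem H6_asymp : ∃ c C : ℝ, ∀ t : ℝ, 1 ≤ t → |t * (H6 ⌊t⌋₊ - 1 / 3 * Real.log t - c)| ≤ C := by
  obtain ⟨c, hc⟩ := H6_limit
  refine ⟨c, 24 + 6 * (6 + 1 + |c|), ?_⟩
  intro t ht
  have ht0 : 0 < t := by linarith
  rcases lt_or_ge t 6 with h6 | h6
  · have h1 : H6 ⌊t⌋₊ ≤ 6 := by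
      have h2 : ⌊t⌋₊ ≤ 6 := by
        have : (⌊t⌋₊ : ℝ) ≤ t := Nat.floor_le ht0.le
        have : (⌊t⌋₊ : ℝ) < 6 := by linarith
        have : ⌊t⌋₊ < 6 := by exact_mod_cast this
        omega
      refine (H6_mono h2).trans ?_
      unfold H6
      calc ∑ m ∈ Icc 1 6, (if Nat.Coprime m 6 then 1 / (m : ℝ) else 0) ≤ ∑ m ∈ Icc 1 6, (1 : ℝ) := by
            apply sum_le_sum
            intro m hm
            rw [mem_Icc] at hm
            split_ifs
            · rw [div_le_one (by have : 0 < m := by omega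
                                 exact_mod_cast this)]
              exact_mod_cast hm.1
            · norm_num
        _ = 6 := by simp
    have h2 := H6_nonneg ⌊t⌋₊
    have h3 : 0 ≤ Real.log t := Real.log_nonneg ht
    have h4 : Real.log t ≤ 3 := by
      have := Real.log_le_sub_one_of_pos (show 0 < t / 2 by linarith)
      rw [Real.log_div ht0.ne' (by norm_num)] at this
      have := Real.log_two_lt_d9
      linarith
    have h5 : |H6 ⌊t⌋₊ - 1 / 3 * Real.log t - c| ≤ 6 + 1 + |c| := by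
      have := abs_le.mp (le_refl |c|)
      rw [abs_le]
      constructor <;> linarith
    rw [abs_mul, abs_of_pos ht0]
    have h7 : t * |H6 ⌊t⌋₊ - 1 / 3 * Real.log t - c| ≤ 6 * (6 + 1 + |c|) :=
      mul_le_mul h6.le h5 (abs_nonneg _) (by norm_num)
    linarith
  · set n := ⌊t⌋₊ with hn
    have h1 : (n : ℝ) ≤ t := Nat.floor_le (by linarith)
    have h2 : t < n + 1 := Nat.lt_floor_add_one t
    have hn6 : 6 ≤ n := Nat.le_floor (by exact_mod_cast h6)
    obtain ⟨q, hq⟩ : ∃ q, q = n / 6 := ⟨_, rfl⟩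
    have hq1 : 1 ≤ q := by omega
    have hq0 : (0 : ℝ) < q := by exact_mod_cast hq1
    have h3 : 6 * q ≤ n := by omega
    have h4 : n + 1 ≤ 6 * q + 6 := by omega
    have h3' : 6 * (q : ℝ) ≤ n := by exact_mod_cast h3
    have h4' : (n : ℝ) + 1 ≤ 6 * q + 6 := by exact_mod_cast h4
    have h5 := H6_mono h3
    have h6' : H6 n ≤ H6 (6 * q) + 1 / q := by
      have e1 : H6 n ≤ H6 (6 * (q + 1)) := H6_mono (by omega)
      rw [H6_block] at e1
      have e2 : 1 / (6 * (q : ℝ) + 1) ≤ 1 / 6 * (1 / q) := by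
        rw [one_div_mul_one_div]
        exact one_div_le_one_div_of_le (by positivity) (by linarith)
      have e3 : 1 / (6 * (q : ℝ) + 5) ≤ 1 / 6 * (1 / q) := by
        rw [one_div_mul_one_div]
        exact one_div_le_one_div_of_le (by positivity) (by linarith)
      have e4 : 0 < 1 / (q : ℝ) := by positivity
      linarith
    have hl1 : Real.log (6 * q) ≤ Real.log t := Real.log_le_log (by positivity) (by linarith)
    have hl2 : Real.log t ≤ Real.log (6 * q) + 1 / q := by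
      have e1 : Real.log t = Real.log (6 * q) + Real.log (t / (6 * q)) := by
        rw [← Real.log_mul (by positivity) (by positivity)]
        congr 1
        field_simp
      have e2 := Real.log_le_sub_one_of_pos (show 0 < t / (6 * (q : ℝ)) by positivity)
      have e3 : t / (6 * (q : ℝ)) - 1 ≤ 1 / q := by
        have e4 : t / (6 * (q : ℝ)) ≤ (6 * q + 6) / (6 * q) :=
          div_le_div_of_nonneg_right (by linarith) (by positivity)
        have e5 : (6 * (q : ℝ) + 6) / (6 * q) = 1 + 1 / q := by field_simp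
        linarith
      linarith
    have h7 := hc q hq1
    have h8 : |H6 n - 1 / 3 * Real.log t - c| ≤ 2 * (1 / q) := by
      have e4 : 0 < 1 / (q : ℝ) := by positivity
      rw [abs_le] at h7 ⊢
      constructor <;> linarith [h7.1, h7.2]
    rw [abs_mul, abs_of_pos ht0]
    have h9 : t ≤ 12 * q := by
      have : (1 : ℝ) ≤ q := by exact_mod_cast hq1
      linarith
    have h10 : t * |H6 n - 1 / 3 * Real.log t - c| ≤ (12 * q) * (2 * (1 / q)) :=
      mul_le_mul h9 h8 (abs_nonneg _) (by positivity)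
    have h11 : (12 * (q : ℝ)) * (2 * (1 / q)) = 24 := by
      field_simp
      norm_num
    have := abs_nonneg c
    linarith

theorem m6_small (ε : ℝ) (hε : 0 < ε) : ∃ X : ℕ, ∀ x : ℕ, X ≤ x →
    |∑ d ∈ Icc 1 x, mu6 d / d| ≤ ε := by
  obtain ⟨X, hX⟩ := axer mu6 abs_mu6_le mu6_small (fun t => N6 ⌊t⌋₊ - t / 3) (fun t => N6 ⌊t⌋₊)
    (fun t => t / 3) (fun t _ => rfl) (fun s t _ hst => N6_mono (Nat.floor_le_floor hst))
    (fun s t _ hst => by linarith) 2 (fun t ht => N6_bound t ht) (ε / 6) (by positivity)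
  obtain ⟨Y, hY⟩ := exists_nat_gt (6 / ε)
  refine ⟨max X (max Y 1), ?_⟩
  intro x hx
  have hxX : X ≤ x := (le_max_left _ _).trans hx
  have hxY : (Y : ℝ) ≤ x := by exact_mod_cast ((le_max_left _ _).trans (le_max_right _ _)).trans hx
  have hx1 : 1 ≤ x := ((le_max_right _ _).trans (le_max_right _ _)).trans hx
  have hx0 : (0 : ℝ) < x := by exact_mod_cast hx1
  have h1 := hX x hxX
  have h2 := conv_id (fun _ => 1) (fun _ _ => by norm_num) rfl x hx1
  have h3 : ∑ d ∈ Icc 1 x, mu6 d * (fun t : ℝ => N6 ⌊t⌋₊ - t / 3) ((x : ℝ) / d) =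
      1 - x / 3 * ∑ d ∈ Icc 1 x, mu6 d / d := by
    rw [← h2, mul_sum, ← sum_sub_distrib]
    apply sum_congr rfl
    intro d hd
    rw [mem_Icc] at hd
    simp only
    rw [Nat.floor_div_eq_div]
    unfold N6
    ring
  rw [h3] at h1
  have h4 : 6 / ε ≤ x := by linarith
  rw [div_le_iff₀ hε] at h4
  have h5 := abs_le.mp h1
  have h6 : |(x : ℝ) / 3 * ∑ d ∈ Icc 1 x, mu6 d / d| ≤ x / 3 * ε := by
    rw [abs_le]
    constructor <;> linarith [h5.1, h5.2]
  rw [abs_mul, abs_of_pos (by positivity : (0 : ℝ) < x / 3)] at h6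
  exact le_of_mul_le_mul_left h6 (by positivity)

/-- the weighted Moebius sum tends to 3 -/
theorem G6_limit (ε : ℝ) (hε : 0 < ε) : ∃ X : ℕ, ∀ x : ℕ, X ≤ x →
    |∑ d ∈ Icc 1 x, mu6 d / d * Real.log ((x : ℝ) / d) - 3| ≤ ε := by
  obtain ⟨c, C, hC⟩ := H6_asymp
  obtain ⟨X, hX⟩ := axer mu6 abs_mu6_le mu6_small
    (fun t => t * (H6 ⌊t⌋₊ - 1 / 3 * Real.log t - c)) (fun t => t * H6 ⌊t⌋₊ + |c| * t)
    (fun t => 1 / 3 * (t * Real.log t) + (c + |c|) * t) (fun t _ => by ring)
    (fun s t hs hst => by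
      have h1 := H6_mono (Nat.floor_le_floor hst)
      have h2 := H6_nonneg ⌊s⌋₊
      have h3 : s * H6 ⌊s⌋₊ ≤ t * H6 ⌊t⌋₊ := mul_le_mul hst h1 h2 (by linarith)
      have h4 := mul_le_mul_of_nonneg_left hst (abs_nonneg c)
      linarith)
    (fun s t hs hst => by
      have h1 : Real.log s ≤ Real.log t := Real.log_le_log (by linarith) hst
      have h2 : 0 ≤ Real.log s := Real.log_nonneg hs
      have h3 : s * Real.log s ≤ t * Real.log t := mul_le_mul hst h1 h2 (by linarith)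
      have h4 : 0 ≤ c + |c| := by
        have := (abs_le.mp (le_refl |c|)).1
        linarith
      have h5 := mul_le_mul_of_nonneg_left hst h4
      linarith) C hC (ε / 6) (by positivity)
  obtain ⟨Y, hY⟩ := m6_small (ε / (6 * (|c| + 1))) (by positivity)
  refine ⟨max X (max Y 1), ?_⟩
  intro x hx
  have hxX : X ≤ x := (le_max_left _ _).trans hx
  have hxY : Y ≤ x := ((le_max_left _ _).trans (le_max_right _ _)).trans hx
  have hx1 : 1 ≤ x := ((le_max_right _ _).trans (le_max_right _ _)).trans hx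
  have hx0 : (0 : ℝ) < x := by exact_mod_cast hx1
  have h1 := hX x hxX
  have h2 := conv_id (fun n => 1 / (n : ℝ)) (fun a b => by push_cast; rw [one_div_mul_one_div]) (by norm_num) x hx1
  have h3 : ∑ d ∈ Icc 1 x, mu6 d * (fun t : ℝ => t * (H6 ⌊t⌋₊ - 1 / 3 * Real.log t - c)) ((x : ℝ) / d) =
      x * (1 - 1 / 3 * ∑ d ∈ Icc 1 x, mu6 d / d * Real.log ((x : ℝ) / d) -
        c * ∑ d ∈ Icc 1 x, mu6 d / d) := by
    rw [← h2, mul_sum, mul_sum, ← sum_sub_distrib, ← sum_sub_distrib, mul_sum]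
    apply sum_congr rfl
    intro d hd
    rw [mem_Icc] at hd
    simp only
    rw [Nat.floor_div_eq_div]
    unfold H6
    ring
  rw [h3, abs_mul, abs_of_pos hx0, mul_comm (x : ℝ)] at h1
  have h4 := le_of_mul_le_mul_right h1 hx0
  have h5 := hY x hxY
  have h6 : |c * ∑ d ∈ Icc 1 x, mu6 d / d| ≤ ε / 6 := by
    rw [abs_mul]
    calc |c| * |∑ d ∈ Icc 1 x, mu6 d / d| ≤ |c| * (ε / (6 * (|c| + 1))) :=
          mul_le_mul_of_nonneg_left h5 (abs_nonneg c)
      _ ≤ (|c| + 1) * (ε / (6 * (|c| + 1))) := by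
          apply mul_le_mul_of_nonneg_right _ (by positivity)
          linarith
      _ = ε / 6 := by field_simp
  have h7 := abs_le.mp h4
  have h8 := abs_le.mp h6
  rw [abs_le]
  constructor <;> linarith [h7.1, h7.2, h8.1, h8.2]

end Pool.Agent.Odious24
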