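import Mathlib
import Pool.Agent.Helper24.Odious2.Fin
import Pool.Agent.Helper24.Odious3.Gsum

set_option autoImplicit false

namespace Pool.Agent.Odious24

open Finset Filter

/-- the truncated von Mangoldt function -/
noncomputable def LR (R n : ℕ) : ℝ :=
  ∑ d ∈ n.divisors.filter (fun d => d ≤ R), ((ArithmeticFunction.moebius d : ℤ) : ℝ) * Real.log ((R : ℝ) / d)

/-- the rest of the von Mangoldt function -/
noncomputable def LB (R n : ℕ) : ℝ :=
  ∑ d ∈ n.divisors.filter (fun d => R < d), ((ArithmeticFunction.moebius d : ℤ) : ℝ) * Real.log ((R : ℝ) / d)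

/-- the weighted sum for a weight f -/
noncomputable def Tf (f : ℕ → ℝ) (x : ℕ) : ℝ :=
  ∑ n ∈ (range x).filter (fun n => Nat.Coprime n 6), (Nceb06bb4.signWeight n : ℝ) * f n

/-- the sum over the primes -/
noncomputable def Pr (x : ℕ) : ℝ :=
  ∑ p ∈ (range x).filter Nat.Prime, (Nceb06bb4.signWeight p : ℝ) * Real.log p

theorem abs_signWeight (n : ℕ) : |(Nceb06bb4.signWeight n : ℝ)| = 1 := by
  rw [signWeight_eq]
  rcases tmz_eq_or n with h | h <;> rw [h] <;> norm_num

theorem Tf_LR (R x : ℕ) : Tf (LR R) x =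
    ∑ d ∈ Mod6 R, (((ArithmeticFunction.moebius d : ℤ) : ℝ) * Real.log ((R : ℝ) / d)) *
      ((NZ x d 0 : ℤ) : ℝ) := by
  unfold Tf LR
  have h1 : ∀ n ∈ (range x).filter (fun n => Nat.Coprime n 6), (Nceb06bb4.signWeight n : ℝ) *
      ∑ d ∈ n.divisors.filter (fun d => d ≤ R), ((ArithmeticFunction.moebius d : ℤ) : ℝ) *
        Real.log ((R : ℝ) / d) =
      ∑ d ∈ Mod6 R, (((ArithmeticFunction.moebius d : ℤ) : ℝ) * Real.log ((R : ℝ) / d)) *
        (if d ∣ n then (Nceb06bb4.signWeight n : ℝ) else 0) := by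
    intro n hn
    rw [mem_filter] at hn
    have hn0 : 0 < n := by
      rcases Nat.eq_zero_or_pos n with h | h
      · subst h
        exact absurd hn.2 (by decide)
      · exact h
    have h2 : n.divisors.filter (fun d => d ≤ R) = (Mod6 R).filter (fun d => d ∣ n) := by
      ext d
      unfold Mod6
      rw [mem_filter, mem_filter, mem_filter, mem_Icc, Nat.mem_divisors]
      constructor
      · rintro ⟨⟨a, _⟩, c⟩
        exact ⟨⟨⟨Nat.pos_of_dvd_of_pos a hn0, c⟩, Nat.Coprime.coprime_dvd_left a hn.2⟩, a⟩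
      · rintro ⟨⟨⟨_, c⟩, _⟩, a⟩
        exact ⟨⟨a, hn0.ne'⟩, c⟩
    rw [h2, sum_filter, mul_sum]
    apply sum_congr rfl
    intro d _
    by_cases h : d ∣ n
    · rw [if_pos h, if_pos h]; ring
    · rw [if_neg h, if_neg h]; ring
  rw [sum_congr rfl h1, sum_comm]
  apply sum_congr rfl
  intro d _
  rw [← mul_sum]
  congr 1
  unfold NZ
  rw [filter_and, ← sum_filter]
  push_cast
  apply sum_congr _ (fun _ _ => rfl)
  ext n
  simp only [mem_filter, mem_inter, Nat.modEq_zero_iff_dvd]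
  tauto

theorem Tf_LR_sub (R x : ℕ) (hR : 1 ≤ R) :
    |Tf (LR R) x - ((NZ x 1 0 : ℤ) : ℝ) * ∑ d ∈ Icc 1 R, mu6 d / d * Real.log ((R : ℝ) / d)| ≤
      Real.log R * ∑ d ∈ Mod6 R, tau d ^ 2 * |((NZ x d 0 : ℤ) : ℝ) - ((NZ x 1 0 : ℤ) : ℝ) / d| := by
  have hR0 : (0 : ℝ) < R := by exact_mod_cast hR
  have h1 : ∑ d ∈ Icc 1 R, mu6 d / d * Real.log ((R : ℝ) / d) =
      ∑ d ∈ Mod6 R, ((ArithmeticFunction.moebius d : ℤ) : ℝ) / d * Real.log ((R : ℝ) / d) := by
    unfold Mod6
    rw [sum_filter]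
    apply sum_congr rfl
    intro d _
    unfold mu6
    split_ifs <;> simp
  have h2 : Tf (LR R) x - ((NZ x 1 0 : ℤ) : ℝ) * ∑ d ∈ Icc 1 R, mu6 d / d * Real.log ((R : ℝ) / d) =
      ∑ d ∈ Mod6 R, (((ArithmeticFunction.moebius d : ℤ) : ℝ) * Real.log ((R : ℝ) / d)) *
        (((NZ x d 0 : ℤ) : ℝ) - ((NZ x 1 0 : ℤ) : ℝ) / d) := by
    rw [h1, Tf_LR, mul_sum, ← sum_sub_distrib]
    apply sum_congr rfl
    intro d _
    ring
  rw [h2, mul_sum]
  refine (abs_sum_le_sum_abs _ _).trans (sum_le_sum fun d hd => ?_)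
  have hd0 := Mod6_pos hd
  have hd0' : (0 : ℝ) < d := by exact_mod_cast hd0
  have hdR : (d : ℝ) ≤ R := by
    unfold Mod6 at hd
    rw [mem_filter, mem_Icc] at hd
    exact_mod_cast hd.1.2
  have hd1 : (1 : ℝ) ≤ d := by exact_mod_cast hd0
  have h3 : |((ArithmeticFunction.moebius d : ℤ) : ℝ)| ≤ 1 := by
    have := ArithmeticFunction.abs_moebius_le_one (n := d)
    exact_mod_cast this
  have h4 : 0 ≤ Real.log ((R : ℝ) / d) := Real.log_nonneg (by rw [le_div_iff₀ hd0']; linarith)
  have h5 : Real.log ((R : ℝ) / d) ≤ Real.log R := by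
    apply Real.log_le_log (by positivity)
    exact div_le_self hR0.le hd1
  have h6 : 1 ≤ tau d := by
    unfold tau
    have : 0 < d.divisors.card := card_pos.mpr ⟨1, Nat.one_mem_divisors.mpr hd0.ne'⟩
    exact_mod_cast this
  have h7 : 1 ≤ tau d ^ 2 := one_le_pow₀ h6
  rw [abs_mul, abs_mul, abs_of_nonneg h4]
  set A := |((NZ x d 0 : ℤ) : ℝ) - ((NZ x 1 0 : ℤ) : ℝ) / d| with hA
  have hA0 : 0 ≤ A := abs_nonneg _
  have hlogR : 0 ≤ Real.log R := h4.trans h5
  calc |((ArithmeticFunction.moebius d : ℤ) : ℝ)| * Real.log ((R : ℝ) / d) * A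
      ≤ (1 * Real.log R) * A := by
        apply mul_le_mul_of_nonneg_right _ hA0
        exact mul_le_mul h3 h5 h4 (by norm_num)
    _ = Real.log R * (1 * A) := by ring
    _ ≤ Real.log R * (tau d ^ 2 * A) := by
        apply mul_le_mul_of_nonneg_left _ hlogR
        exact mul_le_mul_of_nonneg_right h7 hA0

theorem LR_add_LB (R n : ℕ) (hR : 1 ≤ R) (_hn : 0 < n) :
    LR R n + LB R n = ArithmeticFunction.vonMangoldt n + if n = 1 then Real.log R else 0 := by
  have hR0 : (R : ℝ) ≠ 0 := by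
    have : (0 : ℝ) < R := by exact_mod_cast hR
    exact this.ne'
  unfold LR LB
  have h0 : n.divisors.filter (fun d => R < d) = n.divisors.filter (fun d => ¬ d ≤ R) := by
    apply filter_congr
    intro d _
    rw [not_le]
  rw [h0, sum_filter_add_sum_filter_not]
  have h1 : ∀ d ∈ n.divisors, ((ArithmeticFunction.moebius d : ℤ) : ℝ) * Real.log ((R : ℝ) / d) =
      ((ArithmeticFunction.moebius d : ℤ) : ℝ) * Real.log R -
        ((ArithmeticFunction.moebius d : ℤ) : ℝ) * Real.log d := by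
    intro d hd
    have hd0 : (d : ℝ) ≠ 0 := by exact_mod_cast (Nat.pos_of_mem_divisors hd).ne'
    rw [Real.log_div hR0 hd0]
    ring
  rw [sum_congr rfl h1, sum_sub_distrib, ← sum_mul]
  have h2 : ∑ d ∈ n.divisors, ((ArithmeticFunction.moebius d : ℤ) : ℝ) * Real.log d =
      - ArithmeticFunction.vonMangoldt n := by
    have := ArithmeticFunction.sum_moebius_mul_log_eq (n := n)
    simpa [ArithmeticFunction.log_apply] using this
  have h3 : ∑ d ∈ n.divisors, ((ArithmeticFunction.moebius d : ℤ) : ℝ) = if n = 1 then 1 else 0 := by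
    have e4 : ((ArithmeticFunction.moebius * (ArithmeticFunction.zeta : ArithmeticFunction ℤ)) :
        ArithmeticFunction ℤ) n = (1 : ArithmeticFunction ℤ) n := by
      rw [ArithmeticFunction.moebius_mul_coe_zeta]
    rw [ArithmeticFunction.coe_mul_zeta_apply] at e4
    have e6 : ((∑ δ ∈ n.divisors, (ArithmeticFunction.moebius δ : ℤ) : ℤ) : ℝ) =
        (((1 : ArithmeticFunction ℤ) n : ℤ) : ℝ) := by rw [e4]
    rw [Int.cast_sum] at e6
    rw [e6, ArithmeticFunction.one_apply]
    split_ifs <;> simp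
  rw [h2, h3]
  split_ifs <;> ring

theorem Tf_sum (R x : ℕ) (hR : 1 ≤ R) (hx : 2 ≤ x) :
    |Tf (LR R) x + Tf (LB R) x - Tf (fun n => ArithmeticFunction.vonMangoldt n) x| ≤ Real.log R := by
  have h1 : Tf (LR R) x + Tf (LB R) x - Tf (fun n => ArithmeticFunction.vonMangoldt n) x =
      ∑ n ∈ (range x).filter (fun n => Nat.Coprime n 6), (if n = 1 then
        (Nceb06bb4.signWeight n : ℝ) * Real.log R else 0) := by
    unfold Tf
    rw [← sum_add_distrib, ← sum_sub_distrib]
    apply sum_congr rfl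
    intro n hn
    rw [mem_filter] at hn
    have hn0 : 0 < n := by
      rcases Nat.eq_zero_or_pos n with h | h
      · subst h
        exact absurd hn.2 (by decide)
      · exact h
    have h2 := LR_add_LB R n hR hn0
    have h3 : (Nceb06bb4.signWeight n : ℝ) * LR R n + (Nceb06bb4.signWeight n : ℝ) * LB R n -
        (Nceb06bb4.signWeight n : ℝ) * ArithmeticFunction.vonMangoldt n =
        (Nceb06bb4.signWeight n : ℝ) * ((LR R n + LB R n) - ArithmeticFunction.vonMangoldt n) := by ring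
    rw [h3, h2]
    split_ifs <;> ring
  rw [h1, sum_ite_eq', if_pos, abs_mul, abs_signWeight, one_mul, abs_of_nonneg]
  · exact Real.log_nonneg (by exact_mod_cast hR)
  · rw [mem_filter, mem_range]
    exact ⟨by omega, by decide⟩

theorem Tf_prime (x : ℕ) (hx : 1 ≤ x) :
    |Tf (fun n => ArithmeticFunction.vonMangoldt n) x - Pr x| ≤
      2 * Real.sqrt x * Real.log x + 4 := by
  have h1 : Tf (fun n => ArithmeticFunction.vonMangoldt n) x - Pr x =
      ∑ n ∈ range x, (Nceb06bb4.signWeight n : ℝ) *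
        ((if Nat.Coprime n 6 then ArithmeticFunction.vonMangoldt n else 0) -
          (if n.Prime then Real.log n else 0)) := by
    unfold Tf Pr
    rw [sum_filter, sum_filter, ← sum_sub_distrib]
    apply sum_congr rfl
    intro n _
    split_ifs <;> ring
  rw [h1]
  have h2 : ∀ n ∈ range x, |(Nceb06bb4.signWeight n : ℝ) *
        ((if Nat.Coprime n 6 then ArithmeticFunction.vonMangoldt n else 0) -
          (if n.Prime then Real.log n else 0))| ≤
      (if ¬ n.Prime then ArithmeticFunction.vonMangoldt n else 0) +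
        (if n ∈ ({2, 3} : Finset ℕ) then (2 : ℝ) else 0) := by
    intro n _
    rw [abs_mul, abs_signWeight, one_mul]
    have hv := ArithmeticFunction.vonMangoldt_nonneg (n := n)
    by_cases hp : n.Prime
    · rw [if_neg (not_not.mpr hp), if_pos hp]
      by_cases hc : Nat.Coprime n 6
      · rw [if_pos hc, ArithmeticFunction.vonMangoldt_apply_prime hp, sub_self, abs_zero]
        split_ifs <;> norm_num
      · have hd : n ∣ 6 := by
          by_contra h
          exact hc ((Nat.Prime.coprime_iff_not_dvd hp).mpr h)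
        have hle := Nat.le_of_dvd (by norm_num) hd
        have hn2 := hp.two_le
        have h23 : n = 2 ∨ n = 3 := by
          interval_cases n
          · left; rfl
          · right; rfl
          · exact absurd hp (by norm_num)
          · exact absurd hd (by norm_num)
          · exact absurd hp (by norm_num)
        rw [if_neg hc, zero_sub, abs_neg, zero_add]
        have hmem : n ∈ ({2, 3} : Finset ℕ) := by
          rcases h23 with h | h <;> simp [h]
        rw [if_pos hmem]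
        have hn0 : (0 : ℝ) < n := by
          have : 0 < n := by omega
          exact_mod_cast this
        have hn1 : (1 : ℝ) ≤ n := by
          have : 1 ≤ n := by omega
          exact_mod_cast this
        rw [abs_of_nonneg (Real.log_nonneg hn1)]
        have h3 : (n : ℝ) ≤ 3 := by
          have : n ≤ 3 := by omega
          exact_mod_cast this
        have := Real.log_le_sub_one_of_pos hn0
        linarith
    · rw [if_pos hp, if_neg hp, sub_zero]
      have h4 : (0 : ℝ) ≤ if n ∈ ({2, 3} : Finset ℕ) then (2 : ℝ) else 0 := by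
        split_ifs <;> norm_num
      by_cases hc : Nat.Coprime n 6
      · rw [if_pos hc, abs_of_nonneg hv]
        linarith
      · rw [if_neg hc, abs_zero]
        linarith
  refine (abs_sum_le_sum_abs _ _).trans ((sum_le_sum h2).trans ?_)
  rw [sum_add_distrib]
  have h3 : ∑ n ∈ range x, (if ¬ n.Prime then ArithmeticFunction.vonMangoldt n else 0) ≤
      2 * Real.sqrt x * Real.log x := by
    refine le_trans ?_ (Chebyshev.psi_sub_theta_le (x := (x : ℝ)) (by exact_mod_cast hx))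
    rw [Chebyshev.psi_sub_theta_eq_sum_not_prime, Nat.floor_natCast, sum_filter]
    have h4 : range x ⊆ insert 0 (Ioc 0 x) := by
      intro n hn
      rw [mem_range] at hn
      rw [mem_insert, mem_Ioc]
      omega
    refine (sum_le_sum_of_subset_of_nonneg h4 ?_).trans ?_
    · intro n _ _
      split_ifs
      · exact le_refl _
      · exact ArithmeticFunction.vonMangoldt_nonneg
    · rw [sum_insert (by simp)]
      simp
  have h4 : ∑ n ∈ range x, (if n ∈ ({2, 3} : Finset ℕ) then (2 : ℝ) else 0) ≤ 4 := by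
    rw [← sum_filter]
    have h5 : (range x).filter (fun n => n ∈ ({2, 3} : Finset ℕ)) ⊆ ({2, 3} : Finset ℕ) := by
      intro n hn
      exact (mem_filter.mp hn).2
    calc ∑ n ∈ (range x).filter (fun n => n ∈ ({2, 3} : Finset ℕ)), (2 : ℝ)
        ≤ ∑ n ∈ ({2, 3} : Finset ℕ), (2 : ℝ) :=
          sum_le_sum_of_subset_of_nonneg h5 (fun _ _ _ => by norm_num)
      _ = 4 := by rw [sum_const]; norm_num
  linarith

theorem final3 (Δ η : ℝ) (hΔ : Δ < Real.log 3 / Real.log 4 - 1 / 2) (hη : 0 < η) :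
    ∃ R₀ X : ℕ, ∀ x R : ℕ, X ≤ x → R₀ ≤ R → (R : ℝ) ≤ (x : ℝ) ^ Δ →
      |Tf (LR R) x - 3 * ((NZ x 1 0 : ℤ) : ℝ)| ≤ η * ((NZ x 1 0 : ℤ) : ℝ) ∧
      |Pr x - (3 * ((NZ x 1 0 : ℤ) : ℝ) + Tf (LB R) x)| ≤ η * ((NZ x 1 0 : ℤ) : ℝ) := by
  obtain ⟨X1, hX1⟩ := final2 Δ hΔ
  have hlamdef : Real.log 3 / Real.log 4 = lam := rfl
  rw [hlamdef] at hX1 hΔ
  obtain ⟨R1, hR1⟩ := G6_limit (η / 4) (by positivity)
  have hlog : Tendsto (fun x : ℕ => Real.log x) atTop atTop :=
    Real.tendsto_log_atTop.comp tendsto_natCast_atTop_atTop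
  have hlam1 := lam_le_one
  have hlam2 := lam_ge
  have E1 : ∀ᶠ L : ℝ in atTop, (1 : ℝ) ≤ L := eventually_ge_atTop _
  have E2 : ∀ᶠ L : ℝ in atTop, Real.log (160 / η) ≤ (1 / 4000) * L ^ (1 / 2 : ℝ) :=
    ev_const _ _ _ (by norm_num) (by norm_num)
  have E3 : ∀ᶠ L : ℝ in atTop, 1 * Real.log L ≤ (1 / 4000) * L ^ (1 / 2 : ℝ) :=
    ev_log _ _ _ (by norm_num) (by norm_num) (by norm_num)
  have hall := hlog.eventually (E1.and (E2.and E3))
  have E4 : ∀ᶠ x : ℝ in atTop, 7 * Real.log x ≤ (η / 160) * x ^ (1 / 4 : ℝ) :=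
    ev_log _ _ _ (by norm_num) (by positivity) (by norm_num)
  have hall2 := (tendsto_natCast_atTop_atTop (R := ℝ)).eventually E4
  obtain ⟨X2, hX2⟩ := eventually_atTop.mp (hall.and (hall2.and (eventually_ge_atTop 10)))
  refine ⟨max R1 1, max X1 X2, ?_⟩
  intro x R hx hR hRx
  obtain ⟨⟨hN1, hN2⟩, hA, -⟩ := hX1 x ((le_max_left _ _).trans hx)
  obtain ⟨⟨h1, h2, h3⟩, h4, hx10⟩ := hX2 x ((le_max_right _ _).trans hx)
  have hRR1 : R1 ≤ R := (le_max_left _ _).trans hR
  have hR1' : 1 ≤ R := (le_max_right _ _).trans hR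
  have hG := hR1 R hRR1
  have hx0 : (0 : ℝ) < x := by
    have : 0 < x := by omega
    exact_mod_cast this
  have hx1 : (1 : ℝ) ≤ x := by
    have : 1 ≤ x := by omega
    exact_mod_cast this
  rw [← Real.sqrt_eq_rpow] at h2 h3
  set ℓ := Real.log x with hℓ
  have hℓ0 : 0 < ℓ := by linarith
  have hR0 : (0 : ℝ) < R := by exact_mod_cast hR1'
  have hR1r : (1 : ℝ) ≤ R := by exact_mod_cast hR1'
  have hlogR0 : 0 ≤ Real.log R := Real.log_nonneg hR1r
  have hlogR : Real.log R ≤ ℓ := by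
    have e1 : Real.log R ≤ Real.log ((x : ℝ) ^ Δ) := Real.log_le_log hR0 hRx
    rw [Real.log_rpow hx0, ← hℓ] at e1
    nlinarith
  have hbound := hA R hRx (fun _ => x) (fun _ => 0) (fun _ => le_refl _)
  have hsub := Tf_LR_sub R x hR1'
  set N := ((NZ x 1 0 : ℤ) : ℝ) with hNdef
  set Y := (x : ℝ) ^ lam with hY
  have hY0 : 0 < Y := Real.rpow_pos_of_pos hx0 _
  have hNpos : 0 < N := by linarith
  set G := ∑ d ∈ Icc 1 R, mu6 d / d * Real.log ((R : ℝ) / d) with hGdef
  have herr : |Tf (LR R) x - N * G| ≤ η / 4 * N := by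
    refine hsub.trans ?_
    have e1 : Real.log R * ∑ d ∈ Mod6 R, tau d ^ 2 * |((NZ x d 0 : ℤ) : ℝ) - N / d| ≤
        ℓ * (Y * Real.exp (-(Real.sqrt ℓ) / 2000)) := by
      apply mul_le_mul hlogR hbound _ hℓ0.le
      apply sum_nonneg
      intro d _
      have := tau_nonneg d
      positivity
    refine e1.trans ?_
    have e2 : ℓ * Real.exp (-(Real.sqrt ℓ) / 2000) ≤ η / 160 := by
      have e3 : ℓ * Real.exp (-(Real.sqrt ℓ) / 2000) =
          Real.exp (Real.log ℓ + -(Real.sqrt ℓ) / 2000) := by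
        rw [Real.exp_add, Real.exp_log hℓ0]
      have e4 : η / 160 = Real.exp (-(Real.log (160 / η))) := by
        rw [Real.exp_neg, Real.exp_log (by positivity), inv_div]
      rw [e3, e4]
      apply Real.exp_le_exp.mpr
      linarith
    calc ℓ * (Y * Real.exp (-(Real.sqrt ℓ) / 2000)) = Y * (ℓ * Real.exp (-(Real.sqrt ℓ) / 2000)) := by ring
      _ ≤ Y * (η / 160) := mul_le_mul_of_nonneg_left e2 hY0.le
      _ = η / 4 * (Y / 40) := by ring
      _ ≤ η / 4 * N := mul_le_mul_of_nonneg_left hN1 (by positivity)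
  have hmain : |N * G - 3 * N| ≤ η / 4 * N := by
    have e1 : N * G - 3 * N = (G - 3) * N := by ring
    rw [e1, abs_mul, abs_of_pos hNpos]
    exact mul_le_mul_of_nonneg_right hG hNpos.le
  have hT : |Tf (LR R) x - 3 * N| ≤ η / 2 * N := by
    rw [abs_le] at herr hmain ⊢
    constructor <;> linarith [herr.1, herr.2, hmain.1, hmain.2]
  refine ⟨?_, ?_⟩
  · refine hT.trans ?_
    apply mul_le_mul_of_nonneg_right _ hNpos.le
    linarith
  · have k1 := Tf_sum R x hR1' (by omega)
    have k2 := Tf_prime x (by omega)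
    have k3 : 2 * Real.sqrt x * Real.log x + 4 + Real.log R ≤ η / 4 * N := by
      have hs1 : 1 ≤ Real.sqrt x := Real.one_le_sqrt.mpr hx1
      have e1 : 2 * Real.sqrt x * Real.log x + 4 + Real.log R ≤ Real.sqrt x * (7 * ℓ) := by
        have a1 : 4 ≤ Real.sqrt x * (4 * ℓ) := by
          have : 1 * (4 * 1) ≤ Real.sqrt x * (4 * ℓ) := mul_le_mul hs1 (by linarith) (by norm_num) (by positivity)
          linarith
        have a2 : Real.log R ≤ Real.sqrt x * ℓ := by
          have : 1 * ℓ ≤ Real.sqrt x * ℓ := mul_le_mul_of_nonneg_right hs1 hℓ0.le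
          linarith
        rw [← hℓ]
        linarith
      have e2 : Real.sqrt x * (7 * ℓ) ≤ Real.sqrt x * ((η / 160) * (x : ℝ) ^ (1 / 4 : ℝ)) :=
        mul_le_mul_of_nonneg_left h4 (by positivity)
      have e3 : Real.sqrt x * (x : ℝ) ^ (1 / 4 : ℝ) ≤ Y := by
        rw [Real.sqrt_eq_rpow, ← Real.rpow_add hx0, hY]
        apply Real.rpow_le_rpow_of_exponent_le hx1
        linarith
      have e4 : Real.sqrt x * ((η / 160) * (x : ℝ) ^ (1 / 4 : ℝ)) =
          η / 160 * (Real.sqrt x * (x : ℝ) ^ (1 / 4 : ℝ)) := by ring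
      have e5 : η / 160 * (Real.sqrt x * (x : ℝ) ^ (1 / 4 : ℝ)) ≤ η / 160 * Y :=
        mul_le_mul_of_nonneg_left e3 (by positivity)
      have e6 : η / 4 * (Y / 40) ≤ η / 4 * N := mul_le_mul_of_nonneg_left hN1 (by positivity)
      linarith
    rw [abs_le] at hT k1 k2 ⊢
    constructor <;> linarith [hT.1, hT.2, k1.1, k1.2, k2.1, k2.2]

end Pool.Agent.Odious24
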