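import Mathlib
import Pool.Agent.Helper24.Odious3.Trunc

set_option autoImplicit false

namespace Pool.Agent.Odious24

open Finset

/-! ### the smooth cut-off -/

/-- the positive part of log (R / d) -/
noncomputable def lp (R d : ℕ) : ℝ := if d ≤ R then Real.log ((R : ℝ) / d) else 0

/-- the cut-off, 1 up to U and 0 from U ^ 2 on -/
noncomputable def hU (U d : ℕ) : ℝ := (lp (U ^ 2) d - lp U d) / Real.log U

/-- the coefficients -/
noncomputable def aA (U : ℕ) : ArithmeticFunction ℝ :=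
  ⟨fun d => ((ArithmeticFunction.moebius d : ℤ) : ℝ) * hU U d, by simp⟩

theorem aA_apply (U d : ℕ) : aA U d = ((ArithmeticFunction.moebius d : ℤ) : ℝ) * hU U d := rfl

theorem logU_pos {U : ℕ} (hU2 : 2 ≤ U) : 0 < Real.log U :=
  Real.log_pos (by exact_mod_cast hU2)

theorem hU_one (U d : ℕ) (hU2 : 2 ≤ U) (hd : 1 ≤ d) (hdU : d ≤ U) : hU U d = 1 := by
  have h1 := logU_pos hU2
  have hd0 : (d : ℝ) ≠ 0 := by
    have : (0 : ℝ) < d := by exact_mod_cast hd
    exact this.ne'
  have hU0 : (U : ℝ) ≠ 0 := by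
    have : (0 : ℝ) < U := by
      have : 0 < U := by omega
      exact_mod_cast this
    exact this.ne'
  have h2 : d ≤ U ^ 2 := hdU.trans (by nlinarith)
  unfold hU lp
  rw [if_pos h2, if_pos hdU, div_eq_one_iff_eq h1.ne']
  push_cast
  rw [Real.log_div (pow_ne_zero 2 hU0) hd0, Real.log_div hU0 hd0, Real.log_pow]
  push_cast
  ring

theorem hU_bounds (U d : ℕ) (hU2 : 2 ≤ U) (hd : 1 ≤ d) : 0 ≤ hU U d ∧ hU U d ≤ 1 := by
  have h1 := logU_pos hU2
  rcases le_or_gt d U with h | h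
  · rw [hU_one U d hU2 hd h]
    norm_num
  · have hU0 : (0 : ℝ) < U := by
      have : 0 < U := by omega
      exact_mod_cast this
    have hd0 : (0 : ℝ) < d := by exact_mod_cast hd
    have hdU : (U : ℝ) ≤ d := by exact_mod_cast h.le
    unfold hU lp
    rw [if_neg (not_le.mpr h)]
    split_ifs with h2
    · have h3 : (d : ℝ) ≤ (U : ℝ) ^ 2 := by exact_mod_cast h2
      push_cast
      have h4 : 0 ≤ Real.log ((U : ℝ) ^ 2 / d) := Real.log_nonneg (by rw [le_div_iff₀ hd0]; linarith)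
      have h5 : Real.log ((U : ℝ) ^ 2 / d) ≤ Real.log U := by
        apply Real.log_le_log (by positivity)
        rw [div_le_iff₀ hd0]
        nlinarith
      constructor
      · apply div_nonneg (by linarith) h1.le
      · rw [div_le_one h1]; linarith
    · simp

theorem aA_abs (U d : ℕ) (hU2 : 2 ≤ U) : |aA U d| ≤ 1 := by
  rw [aA_apply]
  rcases Nat.eq_zero_or_pos d with h | h
  · subst h; simp
  · have h3 : |((ArithmeticFunction.moebius d : ℤ) : ℝ)| ≤ 1 := by
      have := ArithmeticFunction.abs_moebius_le_one (n := d)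
      exact_mod_cast this
    obtain ⟨h4, h5⟩ := hU_bounds U d hU2 h
    rw [abs_mul, abs_of_nonneg h4]
    exact mul_le_one₀ h3 h4 h5

theorem aA_supp (U d : ℕ) (hd : U ^ 2 < d) : aA U d = 0 := by
  rw [aA_apply]
  unfold hU lp
  have h1 : ¬ d ≤ U := by
    have : U ≤ U ^ 2 := by nlinarith
    omega
  rw [if_neg (not_le.mpr hd), if_neg h1]
  simp

/-- the first factor of the bilinear sum -/
noncomputable def alA (U : ℕ) : ArithmeticFunction ℝ :=
  1 - (ArithmeticFunction.zeta : ArithmeticFunction ℝ) * aA U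

theorem alA_apply (U b : ℕ) : alA U b = (if b = 1 then 1 else 0) - ∑ d ∈ b.divisors, aA U d := by
  have h1 : alA U b = (1 : ArithmeticFunction ℝ) b -
      (((ArithmeticFunction.zeta : ArithmeticFunction ℝ) * aA U : ArithmeticFunction ℝ)) b := by
    have h2 : alA U + (ArithmeticFunction.zeta : ArithmeticFunction ℝ) * aA U = 1 := by
      unfold alA
      ring
    rw [← h2, ArithmeticFunction.add_apply]
    ring
  rw [h1, ArithmeticFunction.one_apply, ArithmeticFunction.coe_zeta_mul_apply]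

theorem sum_moebius_real (n : ℕ) : ∑ d ∈ n.divisors, ((ArithmeticFunction.moebius d : ℤ) : ℝ) =
    if n = 1 then 1 else 0 := by
  have e4 : ((ArithmeticFunction.moebius * (ArithmeticFunction.zeta : ArithmeticFunction ℤ)) :
      ArithmeticFunction ℤ) n = (1 : ArithmeticFunction ℤ) n := by
    rw [ArithmeticFunction.moebius_mul_coe_zeta]
  rw [ArithmeticFunction.coe_mul_zeta_apply] at e4
  have e6 : ((∑ δ ∈ n.divisors, (ArithmeticFunction.moebius δ : ℤ) : ℤ) : ℝ) =
      (((1 : ArithmeticFunction ℤ) n : ℤ) : ℝ) := by rw [e4]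
  rw [Int.cast_sum] at e6
  rw [e6, ArithmeticFunction.one_apply]
  split_ifs <;> simp

theorem alA_small (U b : ℕ) (hU2 : 2 ≤ U) (hb : b ≤ U) : alA U b = 0 := by
  rw [alA_apply]
  rcases Nat.eq_zero_or_pos b with h | h
  · subst h; simp
  · have h1 : ∑ d ∈ b.divisors, aA U d = ∑ d ∈ b.divisors, ((ArithmeticFunction.moebius d : ℤ) : ℝ) := by
      apply sum_congr rfl
      intro d hd
      have hd1 := Nat.pos_of_mem_divisors hd
      have hd2 := Nat.le_of_dvd h (Nat.dvd_of_mem_divisors hd)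
      rw [aA_apply, hU_one U d hU2 hd1 (hd2.trans hb), mul_one]
    rw [h1, sum_moebius_real, sub_self]

theorem alA_abs (U b : ℕ) (hU2 : 2 ≤ U) : |alA U b| ≤ tau b := by
  rcases le_or_gt b 1 with h | h
  · rw [alA_small U b hU2 (by omega), abs_zero]
    exact tau_nonneg b
  · rw [alA_apply, if_neg (by omega), zero_sub, abs_neg, tau_sum]
    exact (abs_sum_le_sum_abs _ _).trans (sum_le_sum fun d _ => aA_abs U d hU2)

/-- von Mangoldt's function up to V -/
noncomputable def La1 (V : ℕ) : ArithmeticFunction ℝ :=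
  ⟨fun n => if n ≤ V then ArithmeticFunction.vonMangoldt n else 0, by simp⟩

/-- von Mangoldt's function beyond V -/
noncomputable def La2 (V : ℕ) : ArithmeticFunction ℝ :=
  ⟨fun n => if V < n then ArithmeticFunction.vonMangoldt n else 0, by simp⟩

theorem La_add (V : ℕ) : La1 V + La2 V = ArithmeticFunction.vonMangoldt := by
  ext n
  rw [ArithmeticFunction.add_apply]
  change (if n ≤ V then ArithmeticFunction.vonMangoldt n else 0) +
    (if V < n then ArithmeticFunction.vonMangoldt n else 0) = _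
  rcases le_or_gt n V with h | h
  · rw [if_pos h, if_neg (not_lt.mpr h), add_zero]
  · rw [if_neg (not_le.mpr h), if_pos h, zero_add]

/-- the decomposition -/
theorem vaughan (U V : ℕ) : (ArithmeticFunction.vonMangoldt : ArithmeticFunction ℝ) =
    La1 V + ArithmeticFunction.log * aA U -
      (ArithmeticFunction.zeta : ArithmeticFunction ℝ) * (La1 V * aA U) + La2 V * alA U := by
  have h1 : (ArithmeticFunction.log : ArithmeticFunction ℝ) =
      (La1 V + La2 V) * (ArithmeticFunction.zeta : ArithmeticFunction ℝ) := by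
    rw [La_add, ArithmeticFunction.vonMangoldt_mul_zeta]
  rw [h1]
  nth_rewrite 1 [← La_add V]
  unfold alA
  ring

/-! ### sums over numbers with a given divisor -/

/-- the sum with a logarithm -/
noncomputable def LZ (x d : ℕ) : ℝ :=
  ∑ n ∈ (range x).filter (fun n => Nat.Coprime n 6 ∧ d ∣ n), (Nceb06bb4.signWeight n : ℝ) * Real.log n

theorem Tf_add (f g : ℕ → ℝ) (x : ℕ) : Tf (fun n => f n + g n) x = Tf f x + Tf g x := by
  unfold Tf
  rw [← sum_add_distrib]
  apply sum_congr rfl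
  intro n _
  ring

theorem Tf_sub (f g : ℕ → ℝ) (x : ℕ) : Tf (fun n => f n - g n) x = Tf f x - Tf g x := by
  unfold Tf
  rw [← sum_sub_distrib]
  apply sum_congr rfl
  intro n _
  ring

/-- general rearrangement -/
theorem Tf_div (c : ℕ → ℝ) (w : ℕ → ℕ → ℝ) (D x : ℕ) (hc : ∀ d, D < d → c d = 0) :
    Tf (fun n => ∑ d ∈ n.divisors, c d * w n d) x =
      ∑ d ∈ Mod6 D, c d * ∑ n ∈ (range x).filter (fun n => Nat.Coprime n 6 ∧ d ∣ n),
        (Nceb06bb4.signWeight n : ℝ) * w n d := by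
  unfold Tf
  have h1 : ∀ n ∈ (range x).filter (fun n => Nat.Coprime n 6), (Nceb06bb4.signWeight n : ℝ) *
      ∑ d ∈ n.divisors, c d * w n d =
      ∑ d ∈ Mod6 D, c d * (if d ∣ n then (Nceb06bb4.signWeight n : ℝ) * w n d else 0) := by
    intro n hn
    rw [mem_filter] at hn
    have hn0 : 0 < n := by
      rcases Nat.eq_zero_or_pos n with h | h
      · subst h
        exact absurd hn.2 (by decide)
      · exact h
    have h2 : ∑ d ∈ n.divisors, c d * w n d = ∑ d ∈ n.divisors.filter (fun d => d ≤ D), c d * w n d := by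
      rw [sum_filter]
      apply sum_congr rfl
      intro d _
      by_cases h : d ≤ D
      · rw [if_pos h]
      · rw [if_neg h, hc d (by omega), zero_mul]
    have h3 : n.divisors.filter (fun d => d ≤ D) = (Mod6 D).filter (fun d => d ∣ n) := by
      ext d
      unfold Mod6
      rw [mem_filter, mem_filter, mem_filter, mem_Icc, Nat.mem_divisors]
      constructor
      · rintro ⟨⟨a, _⟩, c⟩
        exact ⟨⟨⟨Nat.pos_of_dvd_of_pos a hn0, c⟩, Nat.Coprime.coprime_dvd_left a hn.2⟩, a⟩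
      · rintro ⟨⟨⟨_, c⟩, _⟩, a⟩
        exact ⟨⟨a, hn0.ne'⟩, c⟩
    rw [h2, h3, sum_filter, mul_sum]
    apply sum_congr rfl
    intro d _
    by_cases h : d ∣ n
    · rw [if_pos h, if_pos h]; ring
    · rw [if_neg h, if_neg h]; ring
  rw [sum_congr rfl h1, sum_comm]
  apply sum_congr rfl
  intro d _
  rw [← mul_sum]
  congr 1
  rw [filter_and, ← sum_filter]
  apply sum_congr _ (fun _ _ => rfl)
  ext n
  simp only [mem_filter, mem_inter]
  tauto

theorem NZ_dvd (x d : ℕ) : ∑ n ∈ (range x).filter (fun n => Nat.Coprime n 6 ∧ d ∣ n),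
    (Nceb06bb4.signWeight n : ℝ) = ((NZ x d 0 : ℤ) : ℝ) := by
  unfold NZ
  push_cast
  apply sum_congr _ (fun _ _ => rfl)
  ext n
  simp only [mem_filter, Nat.modEq_zero_iff_dvd]

theorem Tf_zeta (c : ArithmeticFunction ℝ) (D x : ℕ) (hc : ∀ d, D < d → c d = 0) :
    Tf (fun n => ((ArithmeticFunction.zeta : ArithmeticFunction ℝ) * c) n) x =
      ∑ d ∈ Mod6 D, c d * ((NZ x d 0 : ℤ) : ℝ) := by
  have h1 : (fun n => ((ArithmeticFunction.zeta : ArithmeticFunction ℝ) * c) n) =
      fun n => ∑ d ∈ n.divisors, c d * 1 := by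
    funext n
    rw [ArithmeticFunction.coe_zeta_mul_apply]
    simp
  rw [h1, Tf_div c (fun _ _ => 1) D x hc]
  apply sum_congr rfl
  intro d _
  rw [← NZ_dvd]
  simp

theorem Tf_log (c : ArithmeticFunction ℝ) (D x : ℕ) (hc : ∀ d, D < d → c d = 0) :
    Tf (fun n => (ArithmeticFunction.log * c) n) x =
      ∑ d ∈ Mod6 D, c d * (LZ x d - Real.log d * ((NZ x d 0 : ℤ) : ℝ)) := by
  have h1 : (fun n : ℕ => (ArithmeticFunction.log * c) n) =
      fun n : ℕ => ∑ d ∈ n.divisors, c d * (Real.log (n : ℝ) - Real.log (d : ℝ)) := by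
    funext n
    rw [mul_comm, ArithmeticFunction.mul_apply]
    have h2 := Nat.sum_divisorsAntidiagonal (n := n) (fun i j => c i * ArithmeticFunction.log j)
    rw [h2]
    apply sum_congr rfl
    intro d hd
    have hd0 : (d : ℝ) ≠ 0 := by exact_mod_cast (Nat.pos_of_mem_divisors hd).ne'
    have hn0 : (n : ℝ) ≠ 0 := by exact_mod_cast (Nat.mem_divisors.mp hd).2
    rw [ArithmeticFunction.log_apply, Nat.cast_div (Nat.dvd_of_mem_divisors hd) hd0,
      Real.log_div hn0 hd0]
  rw [h1, Tf_div c (fun n d => Real.log n - Real.log d) D x hc]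
  apply sum_congr rfl
  intro d _
  congr 1
  rw [← NZ_dvd]
  unfold LZ
  rw [mul_sum, ← sum_sub_distrib]
  apply sum_congr rfl
  intro n _
  ring

/-! ### partial summation -/

theorem abel_log (f : ℕ → ℝ) (x : ℕ) :
    ∑ n ∈ range x, (f (n + 1) - f n) * Real.log n =
      f x * Real.log x - ∑ n ∈ range x, f (n + 1) * (Real.log ((n + 1 : ℕ) : ℝ) - Real.log n) := by
  induction x with
  | zero => simp
  | succ x ih =>
    rw [sum_range_succ, ih, sum_range_succ]
    ring

theorem abel_bound (f : ℕ → ℝ) (x : ℕ) (hx : 1 ≤ x) (e : ℝ) (he : ∀ y, y ≤ x → |f y| ≤ e) :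
    |∑ n ∈ range x, (f (n + 1) - f n) * Real.log n| ≤ 2 * Real.log x * e := by
  rw [abel_log]
  have hx1 : (1 : ℝ) ≤ x := by exact_mod_cast hx
  have hl := Real.log_nonneg hx1
  have h1 : |f x * Real.log x| ≤ e * Real.log x := by
    rw [abs_mul, abs_of_nonneg hl]
    exact mul_le_mul_of_nonneg_right (he x (le_refl _)) hl
  have h2 : |∑ n ∈ range x, f (n + 1) * (Real.log ((n + 1 : ℕ) : ℝ) - Real.log n)| ≤ e * Real.log x := by
    have h3 : ∀ n ∈ range x, |f (n + 1) * (Real.log ((n + 1 : ℕ) : ℝ) - Real.log n)| ≤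
        e * (Real.log ((n + 1 : ℕ) : ℝ) - Real.log n) := by
      intro n hn
      rw [mem_range] at hn
      have h4 : 0 ≤ Real.log ((n + 1 : ℕ) : ℝ) - Real.log n := by
        rcases Nat.eq_zero_or_pos n with h | h
        · subst h; simp
        · have := Real.log_le_log (show (0 : ℝ) < n by exact_mod_cast h)
            (show (n : ℝ) ≤ ((n + 1 : ℕ) : ℝ) by push_cast; linarith)
          linarith
      rw [abs_mul, abs_of_nonneg h4]
      exact mul_le_mul_of_nonneg_right (he (n + 1) (by omega)) h4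
    refine (abs_sum_le_sum_abs _ _).trans ((sum_le_sum h3).trans ?_)
    rw [← mul_sum, sum_range_sub (fun n : ℕ => Real.log (n : ℝ))]
    simp
  have h3 := abs_sub (f x * Real.log x)
    (∑ n ∈ range x, f (n + 1) * (Real.log ((n + 1 : ℕ) : ℝ) - Real.log n))
  linarith

theorem NZ_succ (n d : ℕ) : ((NZ (n + 1) d 0 : ℤ) : ℝ) - ((NZ n d 0 : ℤ) : ℝ) =
    if Nat.Coprime n 6 ∧ d ∣ n then (Nceb06bb4.signWeight n : ℝ) else 0 := by
  rw [← NZ_dvd, ← NZ_dvd, sum_filter, sum_filter, sum_range_succ]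
  ring

theorem LZ_eq (x d : ℕ) : LZ x d = ∑ n ∈ range x,
    (((NZ (n + 1) d 0 : ℤ) : ℝ) - ((NZ n d 0 : ℤ) : ℝ)) * Real.log n := by
  unfold LZ
  rw [sum_filter]
  apply sum_congr rfl
  intro n _
  rw [NZ_succ]
  split_ifs <;> ring

theorem LZ_sub (x d : ℕ) (hx : 1 ≤ x) (e : ℝ)
    (he : ∀ y, y ≤ x → |((NZ y d 0 : ℤ) : ℝ) - ((NZ y 1 0 : ℤ) : ℝ) / d| ≤ e) :
    |LZ x d - LZ x 1 / d| ≤ 2 * Real.log x * e := by
  have h1 : LZ x d - LZ x 1 / d = ∑ n ∈ range x,
      ((((NZ (n + 1) d 0 : ℤ) : ℝ) - ((NZ (n + 1) 1 0 : ℤ) : ℝ) / d) -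
        (((NZ n d 0 : ℤ) : ℝ) - ((NZ n 1 0 : ℤ) : ℝ) / d)) * Real.log n := by
    rw [LZ_eq, LZ_eq, sum_div, ← sum_sub_distrib]
    apply sum_congr rfl
    intro n _
    ring
  rw [h1]
  exact abel_bound (fun y => ((NZ y d 0 : ℤ) : ℝ) - ((NZ y 1 0 : ℤ) : ℝ) / d) x hx e he

theorem LZ_one (x : ℕ) (hx : 1 ≤ x) (e : ℝ) (he : ∀ y, y ≤ x → |((NZ y 1 0 : ℤ) : ℝ)| ≤ e) :
    |LZ x 1| ≤ 2 * Real.log x * e := by
  rw [LZ_eq]
  exact abel_bound (fun y => ((NZ y 1 0 : ℤ) : ℝ)) x hx e he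

end Pool.Agent.Odious24
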