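import Mathlib
import Pool.Agent.Helper24.Odious3.Vau

set_option autoImplicit false

namespace Pool.Agent.Odious24

open Finset Filter

/-- first moment -/
noncomputable def G1 (R : ℕ) : ℝ := ∑ d ∈ Icc 1 R, mu6 d / d * Real.log ((R : ℝ) / d)

/-- second moment -/
noncomputable def G2 (R : ℕ) : ℝ := ∑ d ∈ Icc 1 R, mu6 d / d * Real.log ((R : ℝ) / d) ^ 2

theorem G2_rec (R : ℕ) (hR : 1 ≤ R) : G2 (R + 1) - G2 R =
    (Real.log ((R + 1 : ℕ) : ℝ) - Real.log R) * (G1 (R + 1) + G1 R) := by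
  unfold G1 G2
  have hR0 : (R : ℝ) ≠ 0 := by
    have : (0 : ℝ) < R := by exact_mod_cast hR
    exact this.ne'
  have hR1 : (((R + 1 : ℕ) : ℝ)) ≠ 0 := by positivity
  rw [sum_Icc_succ_top (by omega), sum_Icc_succ_top (by omega), div_self hR1, Real.log_one]
  have h1 : ∀ d ∈ Icc 1 R, mu6 d / d * Real.log (((R + 1 : ℕ) : ℝ) / d) ^ 2 -
      mu6 d / d * Real.log ((R : ℝ) / d) ^ 2 =
      (Real.log ((R + 1 : ℕ) : ℝ) - Real.log R) *
        (mu6 d / d * Real.log (((R + 1 : ℕ) : ℝ) / d) + mu6 d / d * Real.log ((R : ℝ) / d)) := by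
    intro d hd
    rw [mem_Icc] at hd
    have hd0 : (d : ℝ) ≠ 0 := by
      have : (0 : ℝ) < d := by exact_mod_cast hd.1
      exact this.ne'
    rw [Real.log_div hR1 hd0, Real.log_div hR0 hd0]
    ring
  have h2 := sum_congr rfl h1
  rw [sum_sub_distrib, ← mul_sum, sum_add_distrib] at h2
  linear_combination h2

theorem G2_bound (ε : ℝ) (hε : 0 < ε) : ∃ (r : ℕ) (K : ℝ), 1 ≤ r ∧ 0 ≤ K ∧ ∀ R : ℕ, r ≤ R →
    |G2 R - 6 * Real.log R| ≤ ε * Real.log R + K := by
  obtain ⟨r0, hr0⟩ := G6_limit (ε / 2) (by positivity)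
  refine ⟨max r0 1, |G2 (max r0 1) - 6 * Real.log ((max r0 1 : ℕ) : ℝ)|, le_max_right _ _,
    abs_nonneg _, ?_⟩
  intro R hR
  induction R, hR using Nat.le_induction with
  | base =>
    have : 0 ≤ Real.log ((max r0 1 : ℕ) : ℝ) := Real.log_nonneg (by
      have : 1 ≤ max r0 1 := le_max_right _ _
      exact_mod_cast this)
    have := mul_nonneg hε.le this
    linarith
  | succ R hR ih =>
    have hR0 : r0 ≤ R := (le_max_left _ _).trans hR
    have hR1 : 1 ≤ R := (le_max_right _ _).trans hR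
    have h1 := hr0 R hR0
    have h2 := hr0 (R + 1) (by omega)
    have h3 := G2_rec R hR1
    have h4 : 0 ≤ Real.log ((R + 1 : ℕ) : ℝ) - Real.log R := by
      have := Real.log_le_log (show (0 : ℝ) < R by exact_mod_cast hR1)
        (show (R : ℝ) ≤ ((R + 1 : ℕ) : ℝ) by push_cast; linarith)
      linarith
    change |G1 R - 3| ≤ ε / 2 at h1
    change |G1 (R + 1) - 3| ≤ ε / 2 at h2
    have h5 : G2 (R + 1) - 6 * Real.log ((R + 1 : ℕ) : ℝ) = (G2 R - 6 * Real.log R) +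
        (Real.log ((R + 1 : ℕ) : ℝ) - Real.log R) * (G1 (R + 1) + G1 R - 6) := by
      linear_combination h3
    rw [h5]
    have h6 : |(Real.log ((R + 1 : ℕ) : ℝ) - Real.log R) * (G1 (R + 1) + G1 R - 6)| ≤
        (Real.log ((R + 1 : ℕ) : ℝ) - Real.log R) * ε := by
      rw [abs_mul, abs_of_nonneg h4]
      apply mul_le_mul_of_nonneg_left _ h4
      rw [abs_le] at h1 h2 ⊢
      constructor <;> linarith [h1.1, h1.2, h2.1, h2.2]
    have h7 := abs_add_le (G2 R - 6 * Real.log R)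
      ((Real.log ((R + 1 : ℕ) : ℝ) - Real.log R) * (G1 (R + 1) + G1 R - 6))
    linarith

/-- first main coefficient -/
noncomputable def g1 (U : ℕ) : ℝ := ∑ d ∈ Mod6 (U ^ 2), aA U d / d

/-- second main coefficient -/
noncomputable def g2 (U : ℕ) : ℝ := ∑ d ∈ Mod6 (U ^ 2), aA U d * Real.log d / d

theorem sum_lp (U R : ℕ) (hR : R ≤ U) (w : ℕ → ℝ) :
    ∑ d ∈ Icc 1 U, mu6 d / d * lp R d * w d = ∑ d ∈ Icc 1 R, mu6 d / d * Real.log ((R : ℝ) / d) * w d := by
  have h1 : Icc 1 R ⊆ Icc 1 U := Icc_subset_Icc_right hR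
  rw [← sum_subset h1]
  · apply sum_congr rfl
    intro d hd
    rw [mem_Icc] at hd
    unfold lp
    rw [if_pos hd.2]
  · intro d hd hd'
    rw [mem_Icc] at hd hd'
    unfold lp
    rw [if_neg (by omega)]
    ring

theorem sum_a (U : ℕ) (w : ℕ → ℝ) : ∑ d ∈ Mod6 (U ^ 2), aA U d * w d / d =
    (∑ d ∈ Icc 1 (U ^ 2), mu6 d / d * Real.log (((U ^ 2 : ℕ) : ℝ) / d) * w d -
      ∑ d ∈ Icc 1 U, mu6 d / d * Real.log ((U : ℝ) / d) * w d) / Real.log U := by
  rw [← sum_lp (U ^ 2) U (by nlinarith) w, ← sum_lp (U ^ 2) (U ^ 2) (le_refl _) w, ← sum_sub_distrib,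
    sum_div]
  unfold Mod6
  rw [sum_filter]
  apply sum_congr rfl
  intro d _
  rw [aA_apply]
  unfold mu6 hU
  split_ifs
  · ring
  · ring

theorem g1_eq (U : ℕ) : g1 U = (G1 (U ^ 2) - G1 U) / Real.log U := by
  have h := sum_a U (fun _ => 1)
  simp only [mul_one] at h
  exact h

theorem G1_log (R : ℕ) (hR : 1 ≤ R) : ∑ d ∈ Icc 1 R, mu6 d / d * Real.log ((R : ℝ) / d) * Real.log d =
    Real.log R * G1 R - G2 R := by
  unfold G1 G2
  rw [mul_sum, ← sum_sub_distrib]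
  apply sum_congr rfl
  intro d hd
  rw [mem_Icc] at hd
  have hR0 : (R : ℝ) ≠ 0 := by
    have : (0 : ℝ) < R := by exact_mod_cast hR
    exact this.ne'
  have hd0 : (d : ℝ) ≠ 0 := by
    have : (0 : ℝ) < d := by exact_mod_cast hd.1
    exact this.ne'
  rw [Real.log_div hR0 hd0]
  ring

theorem g2_eq (U : ℕ) (hU : 1 ≤ U) : g2 U =
    (2 * Real.log U * G1 (U ^ 2) - G2 (U ^ 2) - (Real.log U * G1 U - G2 U)) / Real.log U := by
  unfold g2
  rw [sum_a U (fun d => Real.log d), G1_log U hU, G1_log (U ^ 2) (Nat.one_le_pow _ _ (by omega))]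
  push_cast
  rw [Real.log_pow]
  push_cast
  ring

theorem g_limit (ε : ℝ) (hε : 0 < ε) : ∃ U₀ : ℕ, ∀ U : ℕ, U₀ ≤ U →
    |g1 U| ≤ ε / Real.log U ∧ |g2 U + 3| ≤ ε := by
  obtain ⟨r0, hr0⟩ := G6_limit (ε / 16) (by positivity)
  obtain ⟨r1, K, hr1, hK0, hK⟩ := G2_bound (ε / 16) (by positivity)
  have h1 : Tendsto (fun x : ℕ => Real.log x) atTop atTop :=
    Real.tendsto_log_atTop.comp tendsto_natCast_atTop_atTop
  obtain ⟨r2, hr2⟩ := eventually_atTop.mp (h1.eventually (eventually_ge_atTop (max 1 (8 * K / ε))))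
  refine ⟨max (max r0 r1) r2, ?_⟩
  intro U hU
  have hU0 : r0 ≤ U := ((le_max_left _ _).trans (le_max_left _ _)).trans hU
  have hU1 : r1 ≤ U := ((le_max_right _ _).trans (le_max_left _ _)).trans hU
  have hU2 : r2 ≤ U := (le_max_right _ _).trans hU
  have hUpos : 1 ≤ U := hr1.trans hU1
  have hUU : U ≤ U ^ 2 := by nlinarith
  have hL := hr2 U hU2
  have hL1 : 1 ≤ Real.log U := (le_max_left _ _).trans hL
  have hL2 : 8 * K / ε ≤ Real.log U := (le_max_right _ _).trans hL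
  rw [div_le_iff₀ hε] at hL2
  set ℓ := Real.log U with hℓ
  have hℓ0 : 0 < ℓ := by linarith
  have a1 : |G1 U - 3| ≤ ε / 16 := hr0 U hU0
  have a2 : |G1 (U ^ 2) - 3| ≤ ε / 16 := hr0 (U ^ 2) (hU0.trans hUU)
  have b1 := hK U hU1
  have b2 := hK (U ^ 2) (hU1.trans hUU)
  have hlog2 : Real.log ((U ^ 2 : ℕ) : ℝ) = 2 * ℓ := by
    push_cast
    rw [Real.log_pow]
    push_cast
    ring
  rw [hlog2] at b2
  rw [← hℓ] at b1
  rw [abs_le] at a1 a2 b1 b2
  constructor
  · rw [g1_eq, abs_div, abs_of_pos hℓ0]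
    apply div_le_div_of_nonneg_right _ hℓ0.le
    rw [abs_le]
    constructor <;> linarith [a1.1, a1.2, a2.1, a2.2]
  · rw [g2_eq U hUpos, ← hℓ]
    have e1 : (2 * ℓ * G1 (U ^ 2) - G2 (U ^ 2) - (ℓ * G1 U - G2 U)) / ℓ + 3 =
        (2 * ℓ * (G1 (U ^ 2) - 3) - (G2 (U ^ 2) - 6 * (2 * ℓ)) - (ℓ * (G1 U - 3) - (G2 U - 6 * ℓ))) / ℓ := by
      field_simp
      ring
    rw [e1, abs_div, abs_of_pos hℓ0, div_le_iff₀ hℓ0, abs_le]
    have c1 : ℓ * (G1 (U ^ 2) - 3) ≤ ℓ * (ε / 16) := mul_le_mul_of_nonneg_left a2.2 hℓ0.le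
    have c2 : ℓ * (-(ε / 16)) ≤ ℓ * (G1 (U ^ 2) - 3) := mul_le_mul_of_nonneg_left a2.1 hℓ0.le
    have c3 : ℓ * (G1 U - 3) ≤ ℓ * (ε / 16) := mul_le_mul_of_nonneg_left a1.2 hℓ0.le
    have c4 : ℓ * (-(ε / 16)) ≤ ℓ * (G1 U - 3) := mul_le_mul_of_nonneg_left a1.1 hℓ0.le
    constructor <;> linarith [b1.1, b1.2, b2.1, b2.2]

/-! ### the coefficients of the third sum -/

/-- the completely multiplicative weight -/
noncomputable def w6 (n : ℕ) : ℝ := if Nat.Coprime n 6 then 1 / (n : ℝ) else 0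

theorem w6_mul (a b : ℕ) : w6 (a * b) = w6 a * w6 b := by
  unfold w6
  by_cases h1 : Nat.Coprime a 6
  · by_cases h2 : Nat.Coprime b 6
    · rw [if_pos h1, if_pos h2, if_pos (Nat.Coprime.mul_left h1 h2)]
      push_cast
      rw [one_div_mul_one_div]
    · have h3 : ¬ Nat.Coprime (a * b) 6 := fun h => h2 (Nat.Coprime.coprime_dvd_left ⟨a, by ring⟩ h)
      rw [if_neg h2, if_neg h3, mul_zero]
  · have h3 : ¬ Nat.Coprime (a * b) 6 := fun h => h1 (Nat.Coprime.coprime_dvd_left ⟨b, rfl⟩ h)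
    rw [if_neg h1, if_neg h3, zero_mul]

/-- twist by the weight -/
noncomputable def tw (f : ArithmeticFunction ℝ) : ArithmeticFunction ℝ := ⟨fun n => f n * w6 n, by simp⟩

theorem tw_apply (f : ArithmeticFunction ℝ) (n : ℕ) : tw f n = f n * w6 n := rfl

theorem tw_mul (f g : ArithmeticFunction ℝ) : tw (f * g) = tw f * tw g := by
  ext n
  rw [tw_apply, ArithmeticFunction.mul_apply, ArithmeticFunction.mul_apply, sum_mul]
  apply sum_congr rfl
  intro p hp
  rw [Nat.mem_divisorsAntidiagonal] at hp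
  rw [tw_apply, tw_apply, ← hp.1, w6_mul]
  ring

theorem Ioc_eq_Icc (n : ℕ) : Ioc 0 n = Icc 1 n := by
  ext k
  rw [mem_Icc, mem_Ioc]
  omega

theorem sum_tw (f : ArithmeticFunction ℝ) (D : ℕ) : ∑ t ∈ Mod6 D, f t / t = ∑ t ∈ Ioc 0 D, tw f t := by
  rw [Ioc_eq_Icc]
  unfold Mod6
  rw [sum_filter]
  apply sum_congr rfl
  intro t _
  rw [tw_apply]
  unfold w6
  split_ifs <;> ring

theorem sum_c (U : ℕ) : ∑ t ∈ Mod6 (U ^ 3), (La1 U * aA U) t / t =
    (∑ l ∈ Ioc 0 U, tw (La1 U) l) * g1 U := by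
  rw [sum_tw, tw_mul, ArithmeticFunction.sum_Ioc_mul_eq_sum_sum]
  have h1 : ∀ n ∈ Ioc 0 (U ^ 3), tw (La1 U) n * ∑ m ∈ Ioc 0 (U ^ 3 / n), tw (aA U) m =
      if n ≤ U then tw (La1 U) n * g1 U else 0 := by
    intro n hn
    rw [mem_Ioc] at hn
    by_cases h : n ≤ U
    · rw [if_pos h]
      congr 1
      unfold g1
      rw [sum_tw]
      have h2 : U ^ 2 ≤ U ^ 3 / n := by
        rw [Nat.le_div_iff_mul_le hn.1]
        calc U ^ 2 * n ≤ U ^ 2 * U := Nat.mul_le_mul_left _ h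
          _ = U ^ 3 := by ring
      have h3 : Ioc 0 (U ^ 2) ⊆ Ioc 0 (U ^ 3 / n) := Ioc_subset_Ioc_right h2
      symm
      apply sum_subset h3
      intro m _ hm
      rw [mem_Ioc] at hm
      rw [tw_apply, aA_supp U m, zero_mul]
      by_contra h4
      apply hm
      rename_i hm2
      rw [mem_Ioc] at hm2
      omega
    · rw [if_neg h, tw_apply]
      have : La1 U n = 0 := if_neg h
      rw [this, zero_mul, zero_mul]
  rw [sum_congr rfl h1, ← sum_filter, sum_mul]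
  apply sum_congr _ (fun _ _ => rfl)
  ext n
  rw [mem_filter, mem_Ioc, mem_Ioc]
  constructor
  · rintro ⟨⟨a, _⟩, c⟩
    exact ⟨a, c⟩
  · rintro ⟨a, c⟩
    refine ⟨⟨a, c.trans ?_⟩, c⟩
    exact Nat.le_self_pow (by norm_num) U

theorem sum_La (U : ℕ) (hU : 1 ≤ U) : 0 ≤ ∑ l ∈ Ioc 0 U, tw (La1 U) l ∧
    ∑ l ∈ Ioc 0 U, tw (La1 U) l ≤ Real.log U + 6 := by
  have hU0 : (0 : ℝ) < U := by exact_mod_cast hU
  have hval : ∀ l ∈ Ioc 0 U, tw (La1 U) l = ArithmeticFunction.vonMangoldt l * w6 l := by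
    intro l hl
    rw [mem_Ioc] at hl
    rw [tw_apply]
    have : La1 U l = ArithmeticFunction.vonMangoldt l := if_pos hl.2
    rw [this]
  have hw0 : ∀ l, 0 ≤ w6 l := by
    intro l
    unfold w6
    split_ifs
    · positivity
    · exact le_refl _
  rw [sum_congr rfl hval]
  constructor
  · exact sum_nonneg fun l _ => mul_nonneg ArithmeticFunction.vonMangoldt_nonneg (hw0 l)
  · have h1 : ∑ l ∈ Ioc 0 U, ArithmeticFunction.vonMangoldt l * w6 l ≤
        ∑ l ∈ Ioc 0 U, ArithmeticFunction.vonMangoldt l / l := by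
      apply sum_le_sum
      intro l _
      rw [div_eq_mul_one_div]
      apply mul_le_mul_of_nonneg_left _ ArithmeticFunction.vonMangoldt_nonneg
      unfold w6
      split_ifs
      · exact le_refl _
      · positivity
    refine h1.trans ?_
    have h2 := ArithmeticFunction.sum_Ioc_mul_zeta_eq_sum (ArithmeticFunction.vonMangoldt) U
    rw [ArithmeticFunction.vonMangoldt_mul_zeta] at h2
    have h3 : ∑ n ∈ Ioc 0 U, (ArithmeticFunction.log n : ℝ) ≤ U * Real.log U := by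
      calc ∑ n ∈ Ioc 0 U, (ArithmeticFunction.log n : ℝ) ≤ ∑ n ∈ Ioc 0 U, Real.log U := by
            apply sum_le_sum
            intro n hn
            rw [mem_Ioc] at hn
            rw [ArithmeticFunction.log_apply]
            apply Real.log_le_log
            · exact_mod_cast hn.1
            · exact_mod_cast hn.2
        _ = U * Real.log U := by
            rw [sum_const, Nat.card_Ioc, nsmul_eq_mul, Nat.sub_zero]
    have h4 : ∑ l ∈ Ioc 0 U, ArithmeticFunction.vonMangoldt l ≤ (Real.log 4 + 4) * U := by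
      have := Chebyshev.psi_le_const_mul_self (x := (U : ℝ)) (Nat.cast_nonneg U)
      unfold Chebyshev.psi at this
      rw [Nat.floor_natCast] at this
      exact this
    have h5 : U * ∑ l ∈ Ioc 0 U, ArithmeticFunction.vonMangoldt l / l ≤
        ∑ l ∈ Ioc 0 U, ArithmeticFunction.vonMangoldt l * ((U / l : ℕ) : ℝ) +
          ∑ l ∈ Ioc 0 U, ArithmeticFunction.vonMangoldt l := by
      rw [mul_sum, ← sum_add_distrib]
      apply sum_le_sum
      intro l hl
      rw [mem_Ioc] at hl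
      have hl0 : (0 : ℝ) < l := by exact_mod_cast hl.1
      have e1 : (U : ℝ) / l ≤ ((U / l : ℕ) : ℝ) + 1 := by
        have e2 := Nat.lt_floor_add_one ((U : ℝ) / l)
        rw [Nat.floor_div_eq_div] at e2
        exact e2.le
      have e3 := mul_le_mul_of_nonneg_left e1 (ArithmeticFunction.vonMangoldt_nonneg (n := l))
      have e4 : (U : ℝ) * (ArithmeticFunction.vonMangoldt l / l) =
          ArithmeticFunction.vonMangoldt l * (U / l) := by ring
      rw [e4]
      linarith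
    have h6 : Real.log 4 ≤ 2 := by
      have e1 : Real.log 4 = 2 * Real.log 2 := log_four
      have := Real.log_two_lt_d9
      linarith
    have h7 : U * ∑ l ∈ Ioc 0 U, ArithmeticFunction.vonMangoldt l / l ≤ U * (Real.log U + 6) := by
      rw [← h2] at h5
      have : (Real.log 4 + 4) * U ≤ 6 * U := mul_le_mul_of_nonneg_right (by linarith) hU0.le
      linarith
    exact le_of_mul_le_mul_left h7 hU0

theorem c_abs (U t : ℕ) (hU2 : 2 ≤ U) : |(La1 U * aA U) t| ≤ Real.log t := by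
  rw [ArithmeticFunction.mul_apply]
  have h1 : ∀ p ∈ t.divisorsAntidiagonal, |La1 U p.1 * aA U p.2| ≤ ArithmeticFunction.vonMangoldt p.1 := by
    intro p _
    rw [abs_mul]
    have h2 : |La1 U p.1| ≤ ArithmeticFunction.vonMangoldt p.1 := by
      change |if p.1 ≤ U then ArithmeticFunction.vonMangoldt p.1 else 0| ≤ _
      split_ifs
      · rw [abs_of_nonneg ArithmeticFunction.vonMangoldt_nonneg]
      · rw [abs_zero]; exact ArithmeticFunction.vonMangoldt_nonneg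
    calc |La1 U p.1| * |aA U p.2| ≤ ArithmeticFunction.vonMangoldt p.1 * 1 :=
          mul_le_mul h2 (aA_abs U p.2 hU2) (abs_nonneg _) ArithmeticFunction.vonMangoldt_nonneg
      _ = _ := mul_one _
  refine (abs_sum_le_sum_abs _ _).trans ((sum_le_sum h1).trans (le_of_eq ?_))
  rw [Nat.sum_divisorsAntidiagonal (fun i _ => ArithmeticFunction.vonMangoldt i)]
  exact ArithmeticFunction.vonMangoldt_sum

theorem c_supp (U t : ℕ) (ht : U ^ 3 < t) : (La1 U * aA U) t = 0 := by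
  rw [ArithmeticFunction.mul_apply]
  apply sum_eq_zero
  intro p hp
  rw [Nat.mem_divisorsAntidiagonal] at hp
  by_cases h1 : p.1 ≤ U
  · have h2 : U ^ 2 < p.2 := by
      by_contra h3
      have h4 : p.2 ≤ U ^ 2 := by omega
      have h5 : p.1 * p.2 ≤ U * U ^ 2 := Nat.mul_le_mul h1 h4
      have h6 : U * U ^ 2 = U ^ 3 := by ring
      rw [hp.1, h6] at h5
      omega
    rw [aA_supp U p.2 h2, mul_zero]
  · have : La1 U p.1 = 0 := if_neg h1
    rw [this, zero_mul]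

end Pool.Agent.Odious24
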