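import Mathlib
import Pool.Agent.Helper24.Odious3.Fin3

set_option autoImplicit false

namespace Pool.Agent.Odious24

open Finset Filter

theorem tau_one_le (d : ℕ) (hd : 0 < d) : 1 ≤ tau d ^ 2 := by
  have h6 : 1 ≤ tau d := by
    unfold tau
    have : 0 < d.divisors.card := card_pos.mpr ⟨1, Nat.one_mem_divisors.mpr hd.ne'⟩
    exact_mod_cast this
  exact one_le_pow₀ h6

/-- the second sum -/
theorem S2_bound (U x : ℕ) (hU2 : 2 ≤ U) (hx : 1 ≤ x) (hUx : U ^ 2 ≤ x) (e : ℕ → ℝ)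
    (he : ∀ d y, 0 < d → y ≤ x → |((NZ y d 0 : ℤ) : ℝ) - ((NZ y 1 0 : ℤ) : ℝ) / d| ≤ e d) :
    |Tf (fun n => (ArithmeticFunction.log * aA U) n) x - (LZ x 1 * g1 U - ((NZ x 1 0 : ℤ) : ℝ) * g2 U)| ≤
      3 * Real.log x * ∑ d ∈ Mod6 (U ^ 2), e d := by
  rw [Tf_log (aA U) (U ^ 2) x (aA_supp U)]
  have hx1 : (1 : ℝ) ≤ x := by exact_mod_cast hx
  have hl := Real.log_nonneg hx1
  have h1 : ∑ d ∈ Mod6 (U ^ 2), aA U d * (LZ x d - Real.log d * ((NZ x d 0 : ℤ) : ℝ)) -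
      (LZ x 1 * g1 U - ((NZ x 1 0 : ℤ) : ℝ) * g2 U) =
      ∑ d ∈ Mod6 (U ^ 2), aA U d * ((LZ x d - LZ x 1 / d) -
        Real.log d * (((NZ x d 0 : ℤ) : ℝ) - ((NZ x 1 0 : ℤ) : ℝ) / d)) := by
    unfold g1 g2
    rw [mul_sum, mul_sum, ← sum_sub_distrib, ← sum_sub_distrib]
    apply sum_congr rfl
    intro d _
    ring
  rw [h1, mul_sum]
  refine (abs_sum_le_sum_abs _ _).trans (sum_le_sum fun d hd => ?_)
  have hd0 := Mod6_pos hd
  have hd0' : (0 : ℝ) < d := by exact_mod_cast hd0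
  have hd1 : (1 : ℝ) ≤ d := by exact_mod_cast hd0
  have hdx : d ≤ x := by
    unfold Mod6 at hd
    rw [mem_filter, mem_Icc] at hd
    omega
  have hld0 : 0 ≤ Real.log d := Real.log_nonneg hd1
  have hld : Real.log d ≤ Real.log x := Real.log_le_log hd0' (by exact_mod_cast hdx)
  have he0 : 0 ≤ e d := (abs_nonneg _).trans (he d 0 hd0 (Nat.zero_le _))
  have h2 := LZ_sub x d hx (e d) (fun y hy => he d y hd0 hy)
  have h3 := he d x hd0 (le_refl _)
  have h4 : |Real.log d * (((NZ x d 0 : ℤ) : ℝ) - ((NZ x 1 0 : ℤ) : ℝ) / d)| ≤ Real.log x * e d := by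
    rw [abs_mul, abs_of_nonneg hld0]
    exact mul_le_mul hld h3 (abs_nonneg _) hl
  rw [abs_mul]
  have h5 := abs_sub (LZ x d - LZ x 1 / d)
    (Real.log d * (((NZ x d 0 : ℤ) : ℝ) - ((NZ x 1 0 : ℤ) : ℝ) / d))
  have h6 := aA_abs U d hU2
  calc |aA U d| * |LZ x d - LZ x 1 / d - Real.log d * (((NZ x d 0 : ℤ) : ℝ) - ((NZ x 1 0 : ℤ) : ℝ) / d)|
      ≤ 1 * (3 * Real.log x * e d) := by
        apply mul_le_mul h6 _ (abs_nonneg _) (by norm_num)
        linarith
    _ = _ := one_mul _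

/-- the third sum -/
theorem S3_bound (U x : ℕ) (hU2 : 2 ≤ U) (hx : 1 ≤ x) (hUx : U ^ 3 ≤ x) (e : ℕ → ℝ)
    (he : ∀ d y, 0 < d → y ≤ x → |((NZ y d 0 : ℤ) : ℝ) - ((NZ y 1 0 : ℤ) : ℝ) / d| ≤ e d) :
    |Tf (fun n => ((ArithmeticFunction.zeta : ArithmeticFunction ℝ) * (La1 U * aA U)) n) x -
      ((NZ x 1 0 : ℤ) : ℝ) * ((∑ l ∈ Ioc 0 U, tw (La1 U) l) * g1 U)| ≤
      Real.log x * ∑ d ∈ Mod6 (U ^ 3), e d := by
  rw [Tf_zeta (La1 U * aA U) (U ^ 3) x (c_supp U), ← sum_c]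
  have hx1 : (1 : ℝ) ≤ x := by exact_mod_cast hx
  have hl := Real.log_nonneg hx1
  have h1 : ∑ d ∈ Mod6 (U ^ 3), (La1 U * aA U) d * ((NZ x d 0 : ℤ) : ℝ) -
      ((NZ x 1 0 : ℤ) : ℝ) * ∑ t ∈ Mod6 (U ^ 3), (La1 U * aA U) t / t =
      ∑ d ∈ Mod6 (U ^ 3), (La1 U * aA U) d * (((NZ x d 0 : ℤ) : ℝ) - ((NZ x 1 0 : ℤ) : ℝ) / d) := by
    rw [mul_sum, ← sum_sub_distrib]
    apply sum_congr rfl
    intro d _
    ring
  rw [h1, mul_sum]
  refine (abs_sum_le_sum_abs _ _).trans (sum_le_sum fun d hd => ?_)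
  have hd0 := Mod6_pos hd
  have hd0' : (0 : ℝ) < d := by exact_mod_cast hd0
  have hd1 : (1 : ℝ) ≤ d := by exact_mod_cast hd0
  have hdx : d ≤ x := by
    unfold Mod6 at hd
    rw [mem_filter, mem_Icc] at hd
    omega
  have hld : Real.log d ≤ Real.log x := Real.log_le_log hd0' (by exact_mod_cast hdx)
  rw [abs_mul]
  exact mul_le_mul ((c_abs U d hU2).trans hld) (he d x hd0 (le_refl _)) (abs_nonneg _) hl

/-- the first sum -/
theorem S1_bound (U x : ℕ) : |Tf (fun n => La1 U n) x| ≤ 6 * U := by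
  have h1 : |Tf (fun n => La1 U n) x| ≤ ∑ n ∈ Ioc 0 U, ArithmeticFunction.vonMangoldt n := by
    unfold Tf
    refine (abs_sum_le_sum_abs _ _).trans ?_
    have h2 : ∀ n ∈ (range x).filter (fun n => Nat.Coprime n 6),
        |(Nceb06bb4.signWeight n : ℝ) * La1 U n| ≤ if n ∈ Ioc 0 U then ArithmeticFunction.vonMangoldt n else 0 := by
      intro n hn
      rw [mem_filter] at hn
      have hn0 : 0 < n := by
        rcases Nat.eq_zero_or_pos n with h | h
        · subst h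
          exact absurd hn.2 (by decide)
        · exact h
      rw [abs_mul, abs_signWeight, one_mul]
      change |if n ≤ U then ArithmeticFunction.vonMangoldt n else 0| ≤ _
      by_cases h : n ≤ U
      · rw [if_pos h, if_pos (by rw [mem_Ioc]; exact ⟨hn0, h⟩),
          abs_of_nonneg ArithmeticFunction.vonMangoldt_nonneg]
      · rw [if_neg h, if_neg (by rw [mem_Ioc]; omega), abs_zero]
    refine (sum_le_sum h2).trans ?_
    rw [← sum_filter]
    apply sum_le_sum_of_subset_of_nonneg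
    · intro n hn
      exact (mem_filter.mp hn).2
    · intro n _ _
      exact ArithmeticFunction.vonMangoldt_nonneg
  have h4 : ∑ l ∈ Ioc 0 U, ArithmeticFunction.vonMangoldt l ≤ (Real.log 4 + 4) * U := by
    have := Chebyshev.psi_le_const_mul_self (x := (U : ℝ)) (Nat.cast_nonneg U)
    unfold Chebyshev.psi at this
    rw [Nat.floor_natCast] at this
    exact this
  have h6 : Real.log 4 ≤ 2 := by
    have e1 : Real.log 4 = 2 * Real.log 2 := log_four
    have := Real.log_two_lt_d9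
    linarith
  have : (Real.log 4 + 4) * (U : ℝ) ≤ 6 * U := mul_le_mul_of_nonneg_right (by linarith) (Nat.cast_nonneg U)
  linarith

theorem NZ_abs (x y : ℕ) (hx : 10 ≤ x) (hy : y ≤ x) : |((NZ y 1 0 : ℤ) : ℝ)| ≤ 3 * (x : ℝ) ^ lam := by
  have hx0 : (0 : ℝ) < x := by
    have : 0 < x := by omega
    exact_mod_cast this
  rw [NZ_one_eq]
  rcases lt_or_ge y 10 with h | h
  · have h1 : |((FF y 3 : ℤ) : ℝ)| ≤ y := by
      rw [← NZ_one_eq, ← NZ_dvd]
      refine (abs_sum_le_sum_abs _ _).trans ?_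
      have h2 : ∀ n ∈ (range y).filter (fun n => Nat.Coprime n 6 ∧ 1 ∣ n),
          |(Nceb06bb4.signWeight n : ℝ)| = 1 := fun n _ => abs_signWeight n
      rw [sum_congr rfl h2, sum_const, nsmul_eq_mul, mul_one]
      have : ((range y).filter (fun n => Nat.Coprime n 6 ∧ 1 ∣ n)).card ≤ y := by
        refine (card_filter_le _ _).trans ?_
        simp
      exact_mod_cast this
    have h2 : (y : ℝ) ≤ 9 := by
      have : y ≤ 9 := by omega
      exact_mod_cast this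
    have h3 : (3 : ℝ) ≤ (x : ℝ) ^ lam := by
      have h4 : (3 : ℝ) = 9 ^ (1 / 2 : ℝ) := by
        rw [show (9 : ℝ) = 3 ^ (2 : ℝ) by norm_num, ← Real.rpow_mul (by norm_num)]
        norm_num
      rw [h4]
      have h5 : (9 : ℝ) ≤ x := by
        have : 9 ≤ x := by omega
        exact_mod_cast this
      calc (9 : ℝ) ^ (1 / 2 : ℝ) ≤ (x : ℝ) ^ (1 / 2 : ℝ) := Real.rpow_le_rpow (by norm_num) h5 (by norm_num)
        _ ≤ (x : ℝ) ^ lam := by
            apply Real.rpow_le_rpow_of_exponent_le (by linarith)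
            have := lam_ge
            linarith
    linarith
  · have h1 := FF_three_lower y h
    have h2 := FF_three_upper y (by omega)
    have h3 : (y : ℝ) ^ lam ≤ (x : ℝ) ^ lam :=
      Real.rpow_le_rpow (Nat.cast_nonneg y) (by exact_mod_cast hy) lam_pos.le
    have h4 : (0 : ℝ) ≤ (y : ℝ) ^ lam := by positivity
    rw [abs_of_nonneg (by linarith)]
    linarith

/-- the main theorem: the sum over the primes is three times the excess plus a bilinear sum -/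
theorem final4 (κ η : ℝ) (hκ0 : 0 < κ) (hκ : 3 * κ < Real.log 3 / Real.log 4 - 1 / 2) (hη : 0 < η) :
    ∃ X : ℕ, ∀ x U : ℕ, X ≤ x → U = ⌊(x : ℝ) ^ κ⌋₊ →
      |Pr x - (3 * ((NZ x 1 0 : ℤ) : ℝ) + Tf (fun n => (La2 U * alA U) n) x)| ≤
        η * ((NZ x 1 0 : ℤ) : ℝ) := by
  obtain ⟨X1, hX1⟩ := final2 (3 * κ) hκ
  have hlamdef : Real.log 3 / Real.log 4 = lam := rfl
  rw [hlamdef] at hX1 hκ
  have hlam1 := lam_le_one
  have hlam2 := lam_ge
  have hκ1 : κ < 1 / 6 := by linarith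
  set ε := min (η * κ / 3840) (η / 64) with hε
  have hε0 : 0 < ε := lt_min (by positivity) (by positivity)
  have hε1 : ε ≤ η * κ / 3840 := min_le_left _ _
  have hε2 : ε ≤ η / 64 := min_le_right _ _
  obtain ⟨U₀, hU₀⟩ := g_limit ε hε0
  have hlog : Tendsto (fun x : ℕ => Real.log x) atTop atTop :=
    Real.tendsto_log_atTop.comp tendsto_natCast_atTop_atTop
  have hpow : Tendsto (fun x : ℕ => (x : ℝ) ^ κ) atTop atTop :=
    (tendsto_rpow_atTop hκ0).comp tendsto_natCast_atTop_atTop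
  have E1 : ∀ᶠ L : ℝ in atTop, max 1 (2 / κ) ≤ L := eventually_ge_atTop _
  have E2 : ∀ᶠ L : ℝ in atTop, Real.log (1280 / η) ≤ (1 / 4000) * L ^ (1 / 2 : ℝ) :=
    ev_const _ _ _ (by norm_num) (by norm_num)
  have E3 : ∀ᶠ L : ℝ in atTop, 1 * Real.log L ≤ (1 / 4000) * L ^ (1 / 2 : ℝ) :=
    ev_log _ _ _ (by norm_num) (by norm_num) (by norm_num)
  have hall := hlog.eventually (E1.and (E2.and E3))
  have E4 : ∀ᶠ x : ℝ in atTop, 6 * Real.log x ≤ (η / 320) * x ^ (1 / 4 : ℝ) :=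
    ev_log _ _ _ (by norm_num) (by positivity) (by norm_num)
  have E6 : ∀ᶠ x : ℝ in atTop, 6 * x ^ (1 / 6 : ℝ) ≤ (η / 640) * x ^ (3 / 4 : ℝ) :=
    ev_rpow _ _ _ _ (by norm_num) (by positivity)
  have hall2 := (tendsto_natCast_atTop_atTop (R := ℝ)).eventually (E4.and E6)
  have E5 := hpow.eventually (eventually_ge_atTop (max ((U₀ : ℝ) + 1) 16))
  obtain ⟨X2, hX2⟩ := eventually_atTop.mp ((hall.and E5).and (hall2.and (eventually_ge_atTop 10)))
  refine ⟨max X1 X2, ?_⟩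
  intro x U hx hU
  obtain ⟨⟨hN1, hN2⟩, hA, -⟩ := hX1 x ((le_max_left _ _).trans hx)
  obtain ⟨⟨⟨h1, h2, h3⟩, h5⟩, ⟨h4, h6⟩, hx10⟩ := hX2 x ((le_max_right _ _).trans hx)
  rw [← Real.sqrt_eq_rpow] at h2 h3
  have hx0 : (0 : ℝ) < x := by
    have : 0 < x := by omega
    exact_mod_cast this
  have hxone : 1 ≤ x := by omega
  have hx1 : (1 : ℝ) ≤ x := by exact_mod_cast hxone
  set ℓ := Real.log x with hℓ
  have hℓ1 : 1 ≤ ℓ := (le_max_left _ _).trans h1
  have hℓκ : 2 / κ ≤ ℓ := (le_max_right _ _).trans h1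
  have hℓ0 : 0 < ℓ := by linarith
  have hκℓ : 2 ≤ κ * ℓ := by
    rw [div_le_iff₀ hκ0] at hℓκ
    linarith
  -- the size of U
  have hUle : (U : ℝ) ≤ (x : ℝ) ^ κ := by
    rw [hU]
    exact Nat.floor_le (by positivity)
  have hUge : (x : ℝ) ^ κ < U + 1 := by
    rw [hU]
    exact Nat.lt_floor_add_one _
  have h5a : (U₀ : ℝ) + 1 ≤ (x : ℝ) ^ κ := (le_max_left _ _).trans h5
  have h5b : (16 : ℝ) ≤ (x : ℝ) ^ κ := (le_max_right _ _).trans h5
  have hU0U : U₀ ≤ U := by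
    have : (U₀ : ℝ) < U + 1 := by linarith
    have : U₀ < U + 1 := by exact_mod_cast this
    omega
  have hU15 : (15 : ℝ) < U := by linarith
  have hU2 : 2 ≤ U := by
    have : 15 < U := by exact_mod_cast hU15
    omega
  have hUpos : (0 : ℝ) < U := by linarith
  have hU3r : ((U ^ 3 : ℕ) : ℝ) ≤ (x : ℝ) ^ (3 * κ) := by
    push_cast
    calc (U : ℝ) ^ 3 ≤ ((x : ℝ) ^ κ) ^ 3 := pow_le_pow_left₀ hUpos.le hUle 3
      _ = (x : ℝ) ^ (3 * κ) := by
          rw [← Real.rpow_natCast, ← Real.rpow_mul hx0.le]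
          congr 1
          push_cast
          ring
  have hU3x : U ^ 3 ≤ x := by
    have e1 : (x : ℝ) ^ (3 * κ) ≤ (x : ℝ) ^ (1 : ℝ) :=
      Real.rpow_le_rpow_of_exponent_le hx1 (by linarith)
    rw [Real.rpow_one] at e1
    exact_mod_cast hU3r.trans e1
  have hU23 : U ^ 2 ≤ U ^ 3 := Nat.pow_le_pow_right (by omega) (by norm_num)
  have hU2x : U ^ 2 ≤ x := hU23.trans hU3x
  have hlogU : κ * ℓ / 2 ≤ Real.log U := by
    have e1 : (x : ℝ) ^ (κ / 2) ≤ U := by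
      have e2 : ((x : ℝ) ^ (κ / 2)) ^ 2 = (x : ℝ) ^ κ := by
        rw [← Real.rpow_natCast, ← Real.rpow_mul hx0.le]
        congr 1
        push_cast
        ring
      have e3 : 0 < (x : ℝ) ^ (κ / 2) := Real.rpow_pos_of_pos hx0 _
      have e4 : 4 ≤ (x : ℝ) ^ (κ / 2) := by
        by_contra h
        push Not at h
        nlinarith
      nlinarith
    have e2 := Real.log_le_log (Real.rpow_pos_of_pos hx0 _) e1
    rw [Real.log_rpow hx0, ← hℓ] at e2
    linarith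
  have hlogU1 : 1 ≤ Real.log U := by linarith
  have hlogU0 : 0 < Real.log U := by linarith
  obtain ⟨hg1, hg2⟩ := hU₀ U hU0U
  -- the maximising y
  have hy : ∀ d : ℕ, ∃ y : ℕ, y ≤ x ∧ ∀ y' ≤ x, |((NZ y' d 0 : ℤ) : ℝ) - ((NZ y' 1 0 : ℤ) : ℝ) / d| ≤
      |((NZ y d 0 : ℤ) : ℝ) - ((NZ y 1 0 : ℤ) : ℝ) / d| := by
    intro d
    obtain ⟨y, hy1, hy2⟩ := Finset.exists_max_image (range (x + 1))
      (fun y => |((NZ y d 0 : ℤ) : ℝ) - ((NZ y 1 0 : ℤ) : ℝ) / d|) ⟨0, by rw [mem_range]; omega⟩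
    rw [mem_range] at hy1
    refine ⟨y, by omega, fun y' hy' => hy2 y' (by rw [mem_range]; omega)⟩
  choose y hyx hymax using hy
  set e : ℕ → ℝ := fun d => |((NZ (y d) d 0 : ℤ) : ℝ) - ((NZ (y d) 1 0 : ℤ) : ℝ) / d| with he
  have he' : ∀ d y, 0 < d → y ≤ x → |((NZ y d 0 : ℤ) : ℝ) - ((NZ y 1 0 : ℤ) : ℝ) / d| ≤ e d :=
    fun d y' _ hy' => hymax d y' hy'
  set N := ((NZ x 1 0 : ℤ) : ℝ) with hNdef
  set Y := (x : ℝ) ^ lam with hY
  have hY0 : 0 < Y := Real.rpow_pos_of_pos hx0 _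
  have hNpos : 0 < N := by linarith
  set Mx := Y * Real.exp (-(Real.sqrt ℓ) / 2000) with hMx
  have hbound3 : ∑ d ∈ Mod6 (U ^ 3), e d ≤ Mx := by
    have h7 := hA (U ^ 3) hU3r y (fun _ => 0) hyx
    refine le_trans (sum_le_sum fun d hd => ?_) h7
    have e1 := tau_one_le d (Mod6_pos hd)
    have e2 : 0 ≤ e d := abs_nonneg _
    calc e d = 1 * e d := (one_mul _).symm
      _ ≤ tau d ^ 2 * e d := mul_le_mul_of_nonneg_right e1 e2
  have hbound2 : ∑ d ∈ Mod6 (U ^ 2), e d ≤ Mx := by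
    refine le_trans ?_ hbound3
    apply sum_le_sum_of_subset_of_nonneg
    · unfold Mod6
      apply filter_subset_filter
      exact Icc_subset_Icc_right hU23
    · intro d _ _
      exact abs_nonneg _
  have s1 := S1_bound U x
  have s2 := S2_bound U x hU2 hxone hU2x e he'
  have s3 := S3_bound U x hU2 hxone hU3x e he'
  have hLZ := LZ_one x hxone (3 * Y) (fun y' hy' => NZ_abs x y' hx10 hy')
  rw [← hℓ] at s2 s3 hLZ
  -- decomposition
  have hdec : Tf (fun n => ArithmeticFunction.vonMangoldt n) x = Tf (fun n => La1 U n) x +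
      Tf (fun n => (ArithmeticFunction.log * aA U) n) x -
      Tf (fun n => ((ArithmeticFunction.zeta : ArithmeticFunction ℝ) * (La1 U * aA U)) n) x +
      Tf (fun n => (La2 U * alA U) n) x := by
    rw [← Tf_add, ← Tf_sub, ← Tf_add]
    congr 1
    funext n
    have h7 := congrArg (fun f : ArithmeticFunction ℝ => f n) (vaughan U U)
    have h8 : (La1 U + ArithmeticFunction.log * aA U -
      (ArithmeticFunction.zeta : ArithmeticFunction ℝ) * (La1 U * aA U) + La2 U * alA U) =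
      La1 U + ArithmeticFunction.log * aA U +
      (-((ArithmeticFunction.zeta : ArithmeticFunction ℝ) * (La1 U * aA U))) + La2 U * alA U := by ring
    rw [h8] at h7
    rw [h7, ArithmeticFunction.add_apply, ArithmeticFunction.add_apply, ArithmeticFunction.add_apply,
      ArithmeticFunction.neg_apply]
    ring
  have hprime := Tf_prime x hxone
  rw [← hℓ] at hprime
  -- the error terms
  have r1 : 6 * (U : ℝ) ≤ η / 16 * N := by
    have e1 : (U : ℝ) ≤ (x : ℝ) ^ (1 / 6 : ℝ) :=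
      hUle.trans (Real.rpow_le_rpow_of_exponent_le hx1 hκ1.le)
    have e2 : (x : ℝ) ^ (3 / 4 : ℝ) ≤ Y := Real.rpow_le_rpow_of_exponent_le hx1 (by linarith)
    have e3 : η / 640 * (x : ℝ) ^ (3 / 4 : ℝ) ≤ η / 640 * Y := mul_le_mul_of_nonneg_left e2 (by positivity)
    have e4 : η / 16 * (Y / 40) ≤ η / 16 * N := mul_le_mul_of_nonneg_left hN1 (by positivity)
    linarith
  have r2 : 4 * ℓ * Mx ≤ η / 8 * N := by
    have e2 : ℓ * Real.exp (-(Real.sqrt ℓ) / 2000) ≤ η / 1280 := by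
      have e3 : ℓ * Real.exp (-(Real.sqrt ℓ) / 2000) =
          Real.exp (Real.log ℓ + -(Real.sqrt ℓ) / 2000) := by
        rw [Real.exp_add, Real.exp_log hℓ0]
      have e4 : η / 1280 = Real.exp (-(Real.log (1280 / η))) := by
        rw [Real.exp_neg, Real.exp_log (by positivity), inv_div]
      rw [e3, e4]
      apply Real.exp_le_exp.mpr
      linarith
    calc 4 * ℓ * Mx = 4 * Y * (ℓ * Real.exp (-(Real.sqrt ℓ) / 2000)) := by rw [hMx]; ring
      _ ≤ 4 * Y * (η / 1280) := mul_le_mul_of_nonneg_left e2 (by positivity)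
      _ = η / 8 * (Y / 40) := by ring
      _ ≤ η / 8 * N := mul_le_mul_of_nonneg_left hN1 (by positivity)
  have r3 : |LZ x 1 * g1 U| ≤ η / 8 * N := by
    rw [abs_mul]
    have e1 : |g1 U| ≤ ε * (2 / (κ * ℓ)) := by
      refine hg1.trans ?_
      rw [div_eq_mul_one_div]
      apply mul_le_mul_of_nonneg_left _ hε0.le
      rw [div_le_div_iff₀ hlogU0 (by positivity)]
      linarith
    calc |LZ x 1| * |g1 U| ≤ (2 * ℓ * (3 * Y)) * (ε * (2 / (κ * ℓ))) :=
          mul_le_mul hLZ e1 (abs_nonneg _) (by positivity)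
      _ = 12 * Y * (ε / κ) := by field_simp; ring
      _ ≤ 12 * Y * (η / 3840) := by
          apply mul_le_mul_of_nonneg_left _ (by positivity)
          rw [div_le_iff₀ hκ0]
          linarith
      _ = η / 8 * (Y / 40) := by ring
      _ ≤ η / 8 * N := mul_le_mul_of_nonneg_left hN1 (by positivity)
  have r4 : |N * (g2 U + 3)| ≤ η / 64 * N := by
    rw [abs_mul, abs_of_pos hNpos, mul_comm]
    exact mul_le_mul_of_nonneg_right (hg2.trans hε2) hNpos.le
  have r5 : |N * ((∑ l ∈ Ioc 0 U, tw (La1 U) l) * g1 U)| ≤ η / 8 * N := by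
    obtain ⟨f1, f2⟩ := sum_La U (by omega)
    rw [abs_mul, abs_of_pos hNpos, abs_mul, abs_of_nonneg f1, mul_comm N]
    apply mul_le_mul_of_nonneg_right _ hNpos.le
    calc (∑ l ∈ Ioc 0 U, tw (La1 U) l) * |g1 U| ≤ (Real.log U + 6) * (ε / Real.log U) :=
          mul_le_mul f2 hg1 (abs_nonneg _) (by linarith)
      _ ≤ (7 * Real.log U) * (ε / Real.log U) := by
          apply mul_le_mul_of_nonneg_right _ (by positivity)
          linarith
      _ = 7 * ε := by field_simp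
      _ ≤ η / 8 := by linarith
  have r6 : 2 * Real.sqrt x * ℓ + 4 ≤ η / 8 * N := by
    have hs1 : 1 ≤ Real.sqrt x := Real.one_le_sqrt.mpr hx1
    have e1 : 2 * Real.sqrt x * ℓ + 4 ≤ Real.sqrt x * (6 * ℓ) := by
      have a1 : 4 ≤ Real.sqrt x * (4 * ℓ) := by
        have : 1 * (4 * 1) ≤ Real.sqrt x * (4 * ℓ) := mul_le_mul hs1 (by linarith) (by norm_num) (by positivity)
        linarith
      linarith
    have e2 : Real.sqrt x * (6 * ℓ) ≤ Real.sqrt x * ((η / 320) * (x : ℝ) ^ (1 / 4 : ℝ)) :=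
      mul_le_mul_of_nonneg_left h4 (by positivity)
    have e3 : Real.sqrt x * (x : ℝ) ^ (1 / 4 : ℝ) ≤ Y := by
      rw [Real.sqrt_eq_rpow, ← Real.rpow_add hx0, hY]
      apply Real.rpow_le_rpow_of_exponent_le hx1
      linarith
    have e4 : Real.sqrt x * ((η / 320) * (x : ℝ) ^ (1 / 4 : ℝ)) =
        η / 320 * (Real.sqrt x * (x : ℝ) ^ (1 / 4 : ℝ)) := by ring
    have e5 : η / 320 * (Real.sqrt x * (x : ℝ) ^ (1 / 4 : ℝ)) ≤ η / 320 * Y :=
      mul_le_mul_of_nonneg_left e3 (by positivity)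
    have e6 : η / 8 * (Y / 40) ≤ η / 8 * N := mul_le_mul_of_nonneg_left hN1 (by positivity)
    linarith
  have q2 : 3 * ℓ * ∑ d ∈ Mod6 (U ^ 2), e d ≤ 3 * ℓ * Mx := mul_le_mul_of_nonneg_left hbound2 (by positivity)
  have q3 : ℓ * ∑ d ∈ Mod6 (U ^ 3), e d ≤ ℓ * Mx := mul_le_mul_of_nonneg_left hbound3 (by positivity)
  have t2 := s2.trans q2
  have t3 := s3.trans q3
  have t1 := s1.trans r1
  have tp := hprime.trans r6
  rw [hdec] at tp
  have e2 : N * (g2 U + 3) = N * g2 U + 3 * N := by ring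
  rw [e2] at r4
  have hηN : 0 < η * N := by positivity
  rw [abs_le] at t1 t2 t3 tp r3 r4 r5 ⊢
  constructor <;> nlinarith [t1.1, t1.2, t2.1, t2.2, t3.1, t3.2, tp.1, tp.2, r3.1, r3.2, r4.1, r4.2, r5.1, r5.2]

end Pool.Agent.Odious24
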