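import Mathlib
import Pool.Agent.Helper24.Odious3.Fin4

set_option autoImplicit false

namespace Pool.Agent.Odious24

open Finset Filter

/-- the number of odious minus the number of evil n below x which are prime to 6 -/
noncomputable def N0 (x : ℕ) : ℝ :=
  ∑ n ∈ (range x).filter (fun n => Nat.Coprime n 6), (Nceb06bb4.signWeight n : ℝ)

theorem NZ_N0 (x : ℕ) : ((NZ x 1 0 : ℤ) : ℝ) = N0 x := by
  unfold NZ N0
  rw [Int.cast_sum]
  apply sum_congr _ (fun _ _ => rfl)
  apply filter_congr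
  intro n _
  constructor
  · exact fun h => h.1
  · exact fun h => ⟨h, Nat.modEq_one⟩

/-- the cut-off -/
noncomputable def h0 (U d : ℕ) : ℝ :=
  if d ≤ U then 1 else if d ≤ U ^ 2 then 2 - Real.log d / Real.log U else 0

/-- the coefficient of the bilinear sum -/
noncomputable def al0 (U b : ℕ) : ℝ :=
  (if b = 1 then 1 else 0) - ∑ d ∈ b.divisors, ((ArithmeticFunction.moebius d : ℤ) : ℝ) * h0 U d

/-- the bilinear sum -/
noncomputable def B0 (x U : ℕ) : ℝ :=
  ∑ n ∈ (range x).filter (fun n => Nat.Coprime n 6), (Nceb06bb4.signWeight n : ℝ) *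
    ∑ q ∈ n.divisorsAntidiagonal.filter (fun q => U < q.1 ∧ U < q.2),
      al0 U q.1 * ArithmeticFunction.vonMangoldt q.2

theorem hU_eq (U d : ℕ) (hU2 : 2 ≤ U) (hd : 1 ≤ d) : hU U d = h0 U d := by
  unfold h0
  have h1 := logU_pos hU2
  have hd0 : (d : ℝ) ≠ 0 := by
    have : (0 : ℝ) < d := by exact_mod_cast hd
    exact this.ne'
  have hU0 : (U : ℝ) ≠ 0 := by
    have : (0 : ℝ) < U := by exact_mod_cast (by omega : 0 < U)
    exact this.ne'
  by_cases h : d ≤ U
  · rw [if_pos h]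
    exact hU_one U d hU2 hd h
  · rw [if_neg h]
    unfold hU lp
    rw [if_neg h, sub_zero]
    by_cases h' : d ≤ U ^ 2
    · rw [if_pos h', if_pos h']
      push_cast
      rw [Real.log_div (pow_ne_zero 2 hU0) hd0, Real.log_pow]
      push_cast
      field_simp
    · rw [if_neg h', if_neg h', zero_div]

theorem alA_eq (U b : ℕ) (hU2 : 2 ≤ U) : alA U b = al0 U b := by
  rw [alA_apply]
  unfold al0
  congr 1
  apply sum_congr rfl
  intro d hd
  rw [aA_apply, hU_eq U d hU2 (Nat.pos_of_mem_divisors hd)]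

theorem B_eq (x U : ℕ) (hU2 : 2 ≤ U) : Tf (fun n => (La2 U * alA U) n) x = B0 x U := by
  unfold Tf B0
  apply sum_congr rfl
  intro n _
  congr 1
  change (La2 U * alA U) n = _
  rw [mul_comm (La2 U) (alA U), ArithmeticFunction.mul_apply]
  rw [← sum_filter_of_ne (p := fun q : ℕ × ℕ => U < q.1 ∧ U < q.2)]
  · apply sum_congr rfl
    intro q hq
    rw [mem_filter] at hq
    rw [alA_eq U q.1 hU2]
    congr 1
    change (if U < q.2 then ArithmeticFunction.vonMangoldt q.2 else 0) = _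
    rw [if_pos hq.2.2]
  · intro q _ hne
    constructor
    · by_contra h
      apply hne
      rw [alA_small U q.1 hU2 (not_lt.mp h), zero_mul]
    · by_contra h
      apply hne
      have h9 : La2 U q.2 = 0 := by
        change (if U < q.2 then ArithmeticFunction.vonMangoldt q.2 else 0) = _
        rw [if_neg h]
      rw [h9, mul_zero]

theorem final5 (η : ℝ) (hη : 0 < η) :
    (∀ Δ : ℝ, Δ < Real.log 3 / Real.log 4 - 1 / 2 → ∃ R₀ X : ℕ, ∀ x R : ℕ, X ≤ x → R₀ ≤ R →
      (R : ℝ) ≤ (x : ℝ) ^ Δ → |Tf (LR R) x - 3 * N0 x| ≤ η * N0 x) ∧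
    (∀ κ : ℝ, 0 < κ → κ < (Real.log 3 / Real.log 4 - 1 / 2) / 3 → ∃ X : ℕ, ∀ x U : ℕ, X ≤ x →
      U = ⌊(x : ℝ) ^ κ⌋₊ →
        (∀ b, |al0 U b| ≤ (b.divisors.card : ℝ)) ∧ |Pr x - (3 * N0 x + B0 x U)| ≤ η * N0 x) := by
  refine ⟨?_, ?_⟩
  · intro Δ hΔ
    obtain ⟨R₀, X, h⟩ := final3 Δ η hΔ hη
    refine ⟨R₀, X, fun x R hx hR hRx => ?_⟩
    have h1 := (h x R hx hR hRx).1
    rwa [NZ_N0] at h1
  · intro κ hκ0 hκ
    obtain ⟨X, h⟩ := final4 κ η hκ0 (by linarith) hη
    have hlim : Tendsto (fun x : ℕ => (x : ℝ) ^ κ) atTop atTop :=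
      (tendsto_rpow_atTop hκ0).comp tendsto_natCast_atTop_atTop
    obtain ⟨X2, hX2⟩ := eventually_atTop.mp (hlim.eventually (eventually_ge_atTop (2 : ℝ)))
    refine ⟨max X X2, fun x U hx hU => ?_⟩
    have hU2 : 2 ≤ U := by
      rw [hU]
      apply Nat.le_floor
      exact_mod_cast hX2 x ((le_max_right _ _).trans hx)
    refine ⟨fun b => ?_, ?_⟩
    · rw [← alA_eq U b hU2]
      exact alA_abs U b hU2
    · have h1 := h x U ((le_max_left _ _).trans hx) hU
      rw [B_eq x U hU2, NZ_N0] at h1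
      exact h1

end Pool.Agent.Odious24
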