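import Mathlib
import Pool.Agent.Helper24.Odious3.Fin5

set_option autoImplicit false

namespace Pool.Agent.Odious24

open Finset Filter

/-! ### the cut-off between U and W -/

/-- the cut-off, 1 up to U and 0 from W on -/
noncomputable def hW (U W d : ℕ) : ℝ := (lp W d - lp U d) / (Real.log W - Real.log U)

/-- the coefficients -/
noncomputable def aW (U W : ℕ) : ArithmeticFunction ℝ :=
  ⟨fun d => ((ArithmeticFunction.moebius d : ℤ) : ℝ) * hW U W d, by simp⟩

theorem aW_apply (U W d : ℕ) : aW U W d = ((ArithmeticFunction.moebius d : ℤ) : ℝ) * hW U W d := rfl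

theorem logUW_pos {U W : ℕ} (hU : 1 ≤ U) (hUW : U < W) : 0 < Real.log W - Real.log U := by
  have h1 : (0 : ℝ) < U := by exact_mod_cast hU
  have h2 := Real.log_lt_log h1 (show (U : ℝ) < W by exact_mod_cast hUW)
  linarith

theorem hW_one (U W d : ℕ) (hU : 1 ≤ U) (hUW : U < W) (hd : 1 ≤ d) (hdU : d ≤ U) : hW U W d = 1 := by
  have h1 := logUW_pos hU hUW
  have hd0 : (d : ℝ) ≠ 0 := by
    have : (0 : ℝ) < d := by exact_mod_cast hd
    exact this.ne'
  have hU0 : (U : ℝ) ≠ 0 := by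
    have : (0 : ℝ) < U := by exact_mod_cast hU
    exact this.ne'
  have hW0 : (W : ℝ) ≠ 0 := by
    have : (0 : ℝ) < W := by exact_mod_cast (by omega : 0 < W)
    exact this.ne'
  unfold hW lp
  rw [if_pos (by omega : d ≤ W), if_pos hdU, div_eq_one_iff_eq h1.ne']
  rw [Real.log_div hW0 hd0, Real.log_div hU0 hd0]
  ring

theorem hW_mid (U W d : ℕ) (hU : 1 ≤ U) (hUd : U < d) (hdW : d ≤ W) :
    hW U W d = (Real.log W - Real.log d) / (Real.log W - Real.log U) := by
  have hd0 : (d : ℝ) ≠ 0 := by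
    have : (0 : ℝ) < d := by exact_mod_cast (by omega : 0 < d)
    exact this.ne'
  have hW0 : (W : ℝ) ≠ 0 := by
    have : (0 : ℝ) < W := by exact_mod_cast (by omega : 0 < W)
    exact this.ne'
  unfold hW lp
  rw [if_pos hdW, if_neg (by omega), sub_zero, Real.log_div hW0 hd0]

theorem hW_big (U W d : ℕ) (hUW : U < W) (hdW : W < d) : hW U W d = 0 := by
  unfold hW lp
  rw [if_neg (by omega), if_neg (by omega), sub_zero, zero_div]

theorem hW_bounds (U W d : ℕ) (hU : 1 ≤ U) (hUW : U < W) (hd : 1 ≤ d) : 0 ≤ hW U W d ∧ hW U W d ≤ 1 := by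
  have h1 := logUW_pos hU hUW
  rcases le_or_gt d U with h | h
  · rw [hW_one U W d hU hUW hd h]
    norm_num
  · rcases le_or_gt d W with h' | h'
    · rw [hW_mid U W d hU h h']
      have hd0 : (0 : ℝ) < d := by exact_mod_cast hd
      have hU0 : (0 : ℝ) < U := by exact_mod_cast hU
      have e1 := Real.log_le_log hd0 (show (d : ℝ) ≤ W by exact_mod_cast h')
      have e2 := Real.log_le_log hU0 (show (U : ℝ) ≤ d by exact_mod_cast h.le)
      constructor
      · apply div_nonneg (by linarith) h1.le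
      · rw [div_le_one h1]; linarith
    · rw [hW_big U W d hUW h']
      norm_num

theorem aW_abs (U W d : ℕ) (hU : 1 ≤ U) (hUW : U < W) : |aW U W d| ≤ 1 := by
  rw [aW_apply]
  rcases Nat.eq_zero_or_pos d with h | h
  · subst h; simp
  · have h3 : |((ArithmeticFunction.moebius d : ℤ) : ℝ)| ≤ 1 := by
      have := ArithmeticFunction.abs_moebius_le_one (n := d)
      exact_mod_cast this
    obtain ⟨h4, h5⟩ := hW_bounds U W d hU hUW h
    rw [abs_mul, abs_of_nonneg h4]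
    exact mul_le_one₀ h3 h4 h5

theorem aW_supp (U W d : ℕ) (hUW : U < W) (hd : W < d) : aW U W d = 0 := by
  rw [aW_apply, hW_big U W d hUW hd, mul_zero]

/-- the first factor of the bilinear sum -/
noncomputable def alW (U W : ℕ) : ArithmeticFunction ℝ :=
  1 - (ArithmeticFunction.zeta : ArithmeticFunction ℝ) * aW U W

theorem alW_apply (U W b : ℕ) : alW U W b = (if b = 1 then 1 else 0) - ∑ d ∈ b.divisors, aW U W d := by
  have h1 : alW U W b = (1 : ArithmeticFunction ℝ) b -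
      (((ArithmeticFunction.zeta : ArithmeticFunction ℝ) * aW U W : ArithmeticFunction ℝ)) b := by
    have h2 : alW U W + (ArithmeticFunction.zeta : ArithmeticFunction ℝ) * aW U W = 1 := by
      unfold alW
      ring
    rw [← h2, ArithmeticFunction.add_apply]
    ring
  rw [h1, ArithmeticFunction.one_apply, ArithmeticFunction.coe_zeta_mul_apply]

theorem alW_small (U W b : ℕ) (hU : 1 ≤ U) (hUW : U < W) (hb : b ≤ U) : alW U W b = 0 := by
  rw [alW_apply]
  rcases Nat.eq_zero_or_pos b with h | h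
  · subst h; simp
  · have h1 : ∑ d ∈ b.divisors, aW U W d = ∑ d ∈ b.divisors, ((ArithmeticFunction.moebius d : ℤ) : ℝ) := by
      apply sum_congr rfl
      intro d hd
      have hd1 := Nat.pos_of_mem_divisors hd
      have hd2 := Nat.le_of_dvd h (Nat.dvd_of_mem_divisors hd)
      rw [aW_apply, hW_one U W d hU hUW hd1 (hd2.trans hb), mul_one]
    rw [h1, sum_moebius_real, sub_self]

theorem alW_abs (U W b : ℕ) (hU : 1 ≤ U) (hUW : U < W) : |alW U W b| ≤ tau b := by
  rcases le_or_gt b 1 with h | h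
  · rw [alW_small U W b hU hUW (by omega), abs_zero]
    exact tau_nonneg b
  · rw [alW_apply, if_neg (by omega), zero_sub, abs_neg, tau_sum]
    exact (abs_sum_le_sum_abs _ _).trans (sum_le_sum fun d _ => aW_abs U W d hU hUW)

/-- the decomposition -/
theorem vaughanW (U W V : ℕ) : (ArithmeticFunction.vonMangoldt : ArithmeticFunction ℝ) =
    La1 V + ArithmeticFunction.log * aW U W -
      (ArithmeticFunction.zeta : ArithmeticFunction ℝ) * (La1 V * aW U W) + La2 V * alW U W := by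
  have h1 : (ArithmeticFunction.log : ArithmeticFunction ℝ) =
      (La1 V + La2 V) * (ArithmeticFunction.zeta : ArithmeticFunction ℝ) := by
    rw [La_add, ArithmeticFunction.vonMangoldt_mul_zeta]
  rw [h1]
  nth_rewrite 1 [← La_add V]
  unfold alW
  ring

/-! ### the main coefficients -/

/-- first main coefficient -/
noncomputable def g1W (U W : ℕ) : ℝ := ∑ d ∈ Mod6 W, aW U W d / d

/-- second main coefficient -/
noncomputable def g2W (U W : ℕ) : ℝ := ∑ d ∈ Mod6 W, aW U W d * Real.log d / d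

theorem sum_aW (U W : ℕ) (hUW : U < W) (w : ℕ → ℝ) : ∑ d ∈ Mod6 W, aW U W d * w d / d =
    (∑ d ∈ Icc 1 W, mu6 d / d * Real.log ((W : ℝ) / d) * w d -
      ∑ d ∈ Icc 1 U, mu6 d / d * Real.log ((U : ℝ) / d) * w d) / (Real.log W - Real.log U) := by
  rw [← sum_lp W U hUW.le w, ← sum_lp W W (le_refl _) w, ← sum_sub_distrib, sum_div]
  unfold Mod6
  rw [sum_filter]
  apply sum_congr rfl
  intro d _
  rw [aW_apply]
  unfold mu6 hW
  split_ifs
  · ring
  · ring

theorem g1W_eq (U W : ℕ) (hUW : U < W) : g1W U W = (G1 W - G1 U) / (Real.log W - Real.log U) := by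
  have h := sum_aW U W hUW (fun _ => 1)
  simp only [mul_one] at h
  exact h

theorem g2W_eq (U W : ℕ) (hU : 1 ≤ U) (hUW : U < W) : g2W U W =
    (Real.log W * G1 W - G2 W - (Real.log U * G1 U - G2 U)) / (Real.log W - Real.log U) := by
  unfold g2W
  rw [sum_aW U W hUW (fun d => Real.log d), G1_log U hU, G1_log W (by omega)]

theorem gW_limit (ε : ℝ) (hε : 0 < ε) : ∃ U₀ : ℕ, ∀ U W : ℕ, U₀ ≤ U → U < W →
    |g1W U W| ≤ ε / (Real.log W - Real.log U) ∧
      |g2W U W + 3| ≤ ε * Real.log W / (Real.log W - Real.log U) := by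
  obtain ⟨r0, hr0⟩ := G6_limit (ε / 16) (by positivity)
  obtain ⟨r1, K, hr1, hK0, hK⟩ := G2_bound (ε / 16) (by positivity)
  have h1 : Tendsto (fun x : ℕ => Real.log x) atTop atTop :=
    Real.tendsto_log_atTop.comp tendsto_natCast_atTop_atTop
  obtain ⟨r2, hr2⟩ := eventually_atTop.mp (h1.eventually (eventually_ge_atTop (max 1 (8 * K / ε))))
  refine ⟨max (max r0 r1) r2, ?_⟩
  intro U W hU hUW
  have hU0 : r0 ≤ U := ((le_max_left _ _).trans (le_max_left _ _)).trans hU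
  have hU1 : r1 ≤ U := ((le_max_right _ _).trans (le_max_left _ _)).trans hU
  have hU2 : r2 ≤ U := (le_max_right _ _).trans hU
  have hUpos : 1 ≤ U := hr1.trans hU1
  have hD := logUW_pos hUpos hUW
  have hL := hr2 U hU2
  have hL1 : 1 ≤ Real.log U := (le_max_left _ _).trans hL
  have hL2 : 8 * K / ε ≤ Real.log U := (le_max_right _ _).trans hL
  rw [div_le_iff₀ hε] at hL2
  set ℓ := Real.log U with hℓ
  set m := Real.log W with hm
  have hℓ0 : 0 < ℓ := by linarith
  have hm0 : 0 < m := by linarith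
  have a1 : |G1 U - 3| ≤ ε / 16 := hr0 U hU0
  have a2 : |G1 W - 3| ≤ ε / 16 := hr0 W (by omega)
  have b1 := hK U hU1
  have b2 := hK W (by omega)
  rw [← hm] at b2
  rw [← hℓ] at b1
  rw [abs_le] at a1 a2 b1 b2
  constructor
  · rw [g1W_eq U W hUW, abs_div, abs_of_pos hD]
    apply div_le_div_of_nonneg_right _ hD.le
    rw [abs_le]
    constructor <;> linarith [a1.1, a1.2, a2.1, a2.2]
  · rw [g2W_eq U W hUpos hUW, ← hℓ, ← hm]
    have hD0 := hD.ne'
    have e1 : (m * G1 W - G2 W - (ℓ * G1 U - G2 U)) / (m - ℓ) + 3 =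
        (m * (G1 W - 3) - (G2 W - 6 * m) - (ℓ * (G1 U - 3) - (G2 U - 6 * ℓ))) / (m - ℓ) := by
      rw [div_add' _ _ _ hD0]
      congr 1
      ring
    rw [e1, abs_div, abs_of_pos hD]
    apply div_le_div_of_nonneg_right _ hD.le
    have c1 : m * (G1 W - 3) ≤ m * (ε / 16) := mul_le_mul_of_nonneg_left a2.2 hm0.le
    have c2 : m * (-(ε / 16)) ≤ m * (G1 W - 3) := mul_le_mul_of_nonneg_left a2.1 hm0.le
    have c3 : ℓ * (G1 U - 3) ≤ ℓ * (ε / 16) := mul_le_mul_of_nonneg_left a1.2 hℓ0.le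
    have c4 : ℓ * (-(ε / 16)) ≤ ℓ * (G1 U - 3) := mul_le_mul_of_nonneg_left a1.1 hℓ0.le
    have c5 : ℓ * ε ≤ m * ε := mul_le_mul_of_nonneg_right (by linarith) hε.le
    rw [abs_le]
    constructor <;> linarith [b1.1, b1.2, b2.1, b2.2]

/-! ### the third sum -/

theorem sum_cW (U W V : ℕ) (hUW : U < W) : ∑ t ∈ Mod6 (W * V), (La1 V * aW U W) t / t =
    (∑ l ∈ Ioc 0 V, tw (La1 V) l) * g1W U W := by
  rw [sum_tw, tw_mul, ArithmeticFunction.sum_Ioc_mul_eq_sum_sum]
  have h1 : ∀ n ∈ Ioc 0 (W * V), tw (La1 V) n * ∑ m ∈ Ioc 0 (W * V / n), tw (aW U W) m =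
      if n ≤ V then tw (La1 V) n * g1W U W else 0 := by
    intro n hn
    rw [mem_Ioc] at hn
    by_cases h : n ≤ V
    · rw [if_pos h]
      congr 1
      unfold g1W
      rw [sum_tw]
      have h2 : W ≤ W * V / n := by
        rw [Nat.le_div_iff_mul_le hn.1]
        exact Nat.mul_le_mul_left _ h
      have h3 : Ioc 0 W ⊆ Ioc 0 (W * V / n) := Ioc_subset_Ioc_right h2
      symm
      apply sum_subset h3
      intro m hm2 hm
      rw [mem_Ioc] at hm hm2
      rw [tw_apply, aW_supp U W m hUW (by omega), zero_mul]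
    · rw [if_neg h, tw_apply]
      have : La1 V n = 0 := if_neg h
      rw [this, zero_mul, zero_mul]
  rw [sum_congr rfl h1, ← sum_filter, sum_mul]
  apply sum_congr _ (fun _ _ => rfl)
  ext n
  rw [mem_filter, mem_Ioc, mem_Ioc]
  constructor
  · rintro ⟨⟨a, _⟩, c⟩
    exact ⟨a, c⟩
  · rintro ⟨a, c⟩
    refine ⟨⟨a, c.trans ?_⟩, c⟩
    exact Nat.le_mul_of_pos_left V (by omega)

theorem cW_abs (U W V t : ℕ) (hU : 1 ≤ U) (hUW : U < W) : |(La1 V * aW U W) t| ≤ Real.log t := by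
  rw [ArithmeticFunction.mul_apply]
  have h1 : ∀ p ∈ t.divisorsAntidiagonal, |La1 V p.1 * aW U W p.2| ≤ ArithmeticFunction.vonMangoldt p.1 := by
    intro p _
    rw [abs_mul]
    have h2 : |La1 V p.1| ≤ ArithmeticFunction.vonMangoldt p.1 := by
      change |if p.1 ≤ V then ArithmeticFunction.vonMangoldt p.1 else 0| ≤ _
      split_ifs
      · rw [abs_of_nonneg ArithmeticFunction.vonMangoldt_nonneg]
      · rw [abs_zero]; exact ArithmeticFunction.vonMangoldt_nonneg
    calc |La1 V p.1| * |aW U W p.2| ≤ ArithmeticFunction.vonMangoldt p.1 * 1 :=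
          mul_le_mul h2 (aW_abs U W p.2 hU hUW) (abs_nonneg _) ArithmeticFunction.vonMangoldt_nonneg
      _ = _ := mul_one _
  refine (abs_sum_le_sum_abs _ _).trans ((sum_le_sum h1).trans (le_of_eq ?_))
  rw [Nat.sum_divisorsAntidiagonal (fun i _ => ArithmeticFunction.vonMangoldt i)]
  exact ArithmeticFunction.vonMangoldt_sum

theorem cW_supp (U W V t : ℕ) (hUW : U < W) (ht : W * V < t) : (La1 V * aW U W) t = 0 := by
  rw [ArithmeticFunction.mul_apply]
  apply sum_eq_zero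
  intro p hp
  rw [Nat.mem_divisorsAntidiagonal] at hp
  by_cases h1 : p.1 ≤ V
  · have h2 : W < p.2 := by
      by_contra h3
      have h4 : p.2 ≤ W := by omega
      have h5 : p.1 * p.2 ≤ V * W := Nat.mul_le_mul h1 h4
      have h6 : V * W = W * V := by ring
      rw [hp.1, h6] at h5
      omega
    rw [aW_supp U W p.2 hUW h2, mul_zero]
  · have : La1 V p.1 = 0 := if_neg h1
    rw [this, zero_mul]

/-! ### the sums -/

/-- the second sum -/
theorem S2W_bound (U W x : ℕ) (hU : 1 ≤ U) (hUW : U < W) (hx : 1 ≤ x) (hWx : W ≤ x) (e : ℕ → ℝ)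
    (he : ∀ d y, 0 < d → y ≤ x → |((NZ y d 0 : ℤ) : ℝ) - ((NZ y 1 0 : ℤ) : ℝ) / d| ≤ e d) :
    |Tf (fun n => (ArithmeticFunction.log * aW U W) n) x - (LZ x 1 * g1W U W - ((NZ x 1 0 : ℤ) : ℝ) * g2W U W)| ≤
      3 * Real.log x * ∑ d ∈ Mod6 W, e d := by
  rw [Tf_log (aW U W) W x (fun d hd => aW_supp U W d hUW hd)]
  have hx1 : (1 : ℝ) ≤ x := by exact_mod_cast hx
  have hl := Real.log_nonneg hx1
  have h1 : ∑ d ∈ Mod6 W, aW U W d * (LZ x d - Real.log d * ((NZ x d 0 : ℤ) : ℝ)) -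
      (LZ x 1 * g1W U W - ((NZ x 1 0 : ℤ) : ℝ) * g2W U W) =
      ∑ d ∈ Mod6 W, aW U W d * ((LZ x d - LZ x 1 / d) -
        Real.log d * (((NZ x d 0 : ℤ) : ℝ) - ((NZ x 1 0 : ℤ) : ℝ) / d)) := by
    unfold g1W g2W
    rw [mul_sum, mul_sum, ← sum_sub_distrib, ← sum_sub_distrib]
    apply sum_congr rfl
    intro d _
    ring
  rw [h1, mul_sum]
  refine (abs_sum_le_sum_abs _ _).trans (sum_le_sum fun d hd => ?_)
  have hd0 := Mod6_pos hd
  have hd0' : (0 : ℝ) < d := by exact_mod_cast hd0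
  have hd1 : (1 : ℝ) ≤ d := by exact_mod_cast hd0
  have hdx : d ≤ x := by
    unfold Mod6 at hd
    rw [mem_filter, mem_Icc] at hd
    omega
  have hld0 : 0 ≤ Real.log d := Real.log_nonneg hd1
  have hld : Real.log d ≤ Real.log x := Real.log_le_log hd0' (by exact_mod_cast hdx)
  have he0 : 0 ≤ e d := (abs_nonneg _).trans (he d 0 hd0 (Nat.zero_le _))
  have h2 := LZ_sub x d hx (e d) (fun y hy => he d y hd0 hy)
  have h3 := he d x hd0 (le_refl _)
  have h4 : |Real.log d * (((NZ x d 0 : ℤ) : ℝ) - ((NZ x 1 0 : ℤ) : ℝ) / d)| ≤ Real.log x * e d := by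
    rw [abs_mul, abs_of_nonneg hld0]
    exact mul_le_mul hld h3 (abs_nonneg _) hl
  rw [abs_mul]
  have h5 := abs_sub (LZ x d - LZ x 1 / d)
    (Real.log d * (((NZ x d 0 : ℤ) : ℝ) - ((NZ x 1 0 : ℤ) : ℝ) / d))
  have h6 := aW_abs U W d hU hUW
  calc |aW U W d| * |LZ x d - LZ x 1 / d - Real.log d * (((NZ x d 0 : ℤ) : ℝ) - ((NZ x 1 0 : ℤ) : ℝ) / d)|
      ≤ 1 * (3 * Real.log x * e d) := by
        apply mul_le_mul h6 _ (abs_nonneg _) (by norm_num)
        linarith
    _ = _ := one_mul _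

/-- the third sum -/
theorem S3W_bound (U W V x : ℕ) (hU : 1 ≤ U) (hUW : U < W) (hx : 1 ≤ x) (hWx : W * V ≤ x) (e : ℕ → ℝ)
    (he : ∀ d y, 0 < d → y ≤ x → |((NZ y d 0 : ℤ) : ℝ) - ((NZ y 1 0 : ℤ) : ℝ) / d| ≤ e d) :
    |Tf (fun n => ((ArithmeticFunction.zeta : ArithmeticFunction ℝ) * (La1 V * aW U W)) n) x -
      ((NZ x 1 0 : ℤ) : ℝ) * ((∑ l ∈ Ioc 0 V, tw (La1 V) l) * g1W U W)| ≤
      Real.log x * ∑ d ∈ Mod6 (W * V), e d := by
  rw [Tf_zeta (La1 V * aW U W) (W * V) x (fun t ht => cW_supp U W V t hUW ht), ← sum_cW U W V hUW]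
  have hx1 : (1 : ℝ) ≤ x := by exact_mod_cast hx
  have hl := Real.log_nonneg hx1
  have h1 : ∑ d ∈ Mod6 (W * V), (La1 V * aW U W) d * ((NZ x d 0 : ℤ) : ℝ) -
      ((NZ x 1 0 : ℤ) : ℝ) * ∑ t ∈ Mod6 (W * V), (La1 V * aW U W) t / t =
      ∑ d ∈ Mod6 (W * V), (La1 V * aW U W) d * (((NZ x d 0 : ℤ) : ℝ) - ((NZ x 1 0 : ℤ) : ℝ) / d) := by
    rw [mul_sum, ← sum_sub_distrib]
    apply sum_congr rfl
    intro d _
    ring
  rw [h1, mul_sum]
  refine (abs_sum_le_sum_abs _ _).trans (sum_le_sum fun d hd => ?_)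
  have hd0 := Mod6_pos hd
  have hd0' : (0 : ℝ) < d := by exact_mod_cast hd0
  have hd1 : (1 : ℝ) ≤ d := by exact_mod_cast hd0
  have hdx : d ≤ x := by
    unfold Mod6 at hd
    rw [mem_filter, mem_Icc] at hd
    omega
  have hld : Real.log d ≤ Real.log x := Real.log_le_log hd0' (by exact_mod_cast hdx)
  rw [abs_mul]
  exact mul_le_mul ((cW_abs U W V d hU hUW).trans hld) (he d x hd0 (le_refl _)) (abs_nonneg _) hl

end Pool.Agent.Odious24
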