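import Mathlib
import Pool.Agent.Helper24.Odious3.Two

set_option autoImplicit false

namespace Pool.Agent.Odious24

open Finset Filter

/-- the main theorem with two parameters -/
theorem final6 (κ κ' ν η : ℝ) (hκ0 : 0 < κ) (hκκ : κ < κ') (hν0 : 0 < ν)
    (hκ : κ' + ν < Real.log 3 / Real.log 4 - 1 / 2) (hη : 0 < η) :
    ∃ X : ℕ, ∀ x U W V : ℕ, X ≤ x → U = ⌊(x : ℝ) ^ κ⌋₊ → W = ⌊(x : ℝ) ^ κ'⌋₊ → V = ⌊(x : ℝ) ^ ν⌋₊ →
      1 ≤ U ∧ U < W ∧ |Pr x - (3 * ((NZ x 1 0 : ℤ) : ℝ) + Tf (fun n => (La2 V * alW U W) n) x)| ≤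
        η * ((NZ x 1 0 : ℤ) : ℝ) := by
  obtain ⟨X1, hX1⟩ := final2 (κ' + ν) hκ
  have hlamdef : Real.log 3 / Real.log 4 = lam := rfl
  rw [hlamdef] at hX1 hκ
  have hlam1 := lam_le_one
  have hlam2 := lam_ge
  have hlam3 : lam < 4 / 5 := by
    rw [← hlamdef, div_lt_iff₀ (Real.log_pos (by norm_num))]
    have e1 : (5 : ℝ) * Real.log 3 < 4 * Real.log 4 := by
      have e2 : (5 : ℝ) * Real.log 3 = Real.log (3 ^ 5) := by rw [Real.log_pow]; norm_num
      have e3 : (4 : ℝ) * Real.log 4 = Real.log (4 ^ 4) := by rw [Real.log_pow]; norm_num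
      rw [e2, e3]
      exact Real.log_lt_log (by norm_num) (by norm_num)
    linarith
  have hκ'0 : 0 < κ' := hκ0.trans hκκ
  set c := (κ' - κ) / 2 with hc
  have hc0 : 0 < c := by rw [hc]; linarith
  have hc1 : c < 1 := by rw [hc]; linarith
  set ε := c * η / 1920 with hε
  have hε0 : 0 < ε := by positivity
  obtain ⟨U₀, hU₀⟩ := gW_limit ε hε0
  have hlog : Tendsto (fun x : ℕ => Real.log x) atTop atTop :=
    Real.tendsto_log_atTop.comp tendsto_natCast_atTop_atTop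
  have hpow : Tendsto (fun x : ℕ => (x : ℝ) ^ κ) atTop atTop :=
    (tendsto_rpow_atTop hκ0).comp tendsto_natCast_atTop_atTop
  have hpowν : Tendsto (fun x : ℕ => (x : ℝ) ^ ν) atTop atTop :=
    (tendsto_rpow_atTop hν0).comp tendsto_natCast_atTop_atTop
  have E1 : ∀ᶠ L : ℝ in atTop, max 1 (1 / c) ≤ L := eventually_ge_atTop _
  have E2 : ∀ᶠ L : ℝ in atTop, Real.log (1280 / η) ≤ (1 / 4000) * L ^ (1 / 2 : ℝ) :=
    ev_const _ _ _ (by norm_num) (by norm_num)
  have E3 : ∀ᶠ L : ℝ in atTop, 1 * Real.log L ≤ (1 / 4000) * L ^ (1 / 2 : ℝ) :=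
    ev_log _ _ _ (by norm_num) (by norm_num) (by norm_num)
  have hall := hlog.eventually (E1.and (E2.and E3))
  have E4 : ∀ᶠ x : ℝ in atTop, 6 * Real.log x ≤ (η / 320) * x ^ (1 / 4 : ℝ) :=
    ev_log _ _ _ (by norm_num) (by positivity) (by norm_num)
  have E6 : ∀ᶠ x : ℝ in atTop, 6 * x ^ (1 / 3 : ℝ) ≤ (η / 640) * x ^ (3 / 4 : ℝ) :=
    ev_rpow _ _ _ _ (by norm_num) (by positivity)
  have hall2 := (tendsto_natCast_atTop_atTop (R := ℝ)).eventually (E4.and E6)
  have E5 := hpow.eventually (eventually_ge_atTop (max ((U₀ : ℝ) + 1) 16))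
  have E7 := hpowν.eventually (eventually_ge_atTop (1 : ℝ))
  obtain ⟨X2, hX2⟩ := eventually_atTop.mp (((hall.and E5).and E7).and (hall2.and (eventually_ge_atTop 10)))
  refine ⟨max X1 X2, ?_⟩
  intro x U W V hx hU hW hV
  obtain ⟨⟨hN1, hN2⟩, hA, -⟩ := hX1 x ((le_max_left _ _).trans hx)
  obtain ⟨⟨⟨⟨h1, h2, h3⟩, h5⟩, h7⟩, ⟨h4, h6⟩, hx10⟩ := hX2 x ((le_max_right _ _).trans hx)
  rw [← Real.sqrt_eq_rpow] at h2 h3
  have hx0 : (0 : ℝ) < x := by
    have : 0 < x := by omega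
    exact_mod_cast this
  have hxone : 1 ≤ x := by omega
  have hx1 : (1 : ℝ) ≤ x := by exact_mod_cast hxone
  set ℓ := Real.log x with hℓ
  have hℓ1 : 1 ≤ ℓ := (le_max_left _ _).trans h1
  have hℓc : 1 / c ≤ ℓ := (le_max_right _ _).trans h1
  have hℓ0 : 0 < ℓ := by linarith
  have hcℓ : 1 ≤ c * ℓ := by
    rw [div_le_iff₀ hc0] at hℓc
    linarith
  -- the sizes of U, W, V
  have hUle : (U : ℝ) ≤ (x : ℝ) ^ κ := by
    rw [hU]
    exact Nat.floor_le (by positivity)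
  have hUge : (x : ℝ) ^ κ < U + 1 := by
    rw [hU]
    exact Nat.lt_floor_add_one _
  have hWle : (W : ℝ) ≤ (x : ℝ) ^ κ' := by
    rw [hW]
    exact Nat.floor_le (by positivity)
  have hWge : (x : ℝ) ^ κ' < W + 1 := by
    rw [hW]
    exact Nat.lt_floor_add_one _
  have hVle : (V : ℝ) ≤ (x : ℝ) ^ ν := by
    rw [hV]
    exact Nat.floor_le (by positivity)
  have hV1 : 1 ≤ V := by
    rw [hV]
    apply Nat.le_floor
    push_cast
    exact h7
  have h5a : (U₀ : ℝ) + 1 ≤ (x : ℝ) ^ κ := (le_max_left _ _).trans h5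
  have h5b : (16 : ℝ) ≤ (x : ℝ) ^ κ := (le_max_right _ _).trans h5
  have hU0U : U₀ ≤ U := by
    have : (U₀ : ℝ) < U + 1 := by linarith
    have : U₀ < U + 1 := by exact_mod_cast this
    omega
  have hU15 : (15 : ℝ) < U := by linarith
  have hU1 : 1 ≤ U := by
    have : 15 < U := by exact_mod_cast hU15
    omega
  have hUpos : (0 : ℝ) < U := by linarith
  have hlogU0 : 0 < Real.log U := Real.log_pos (by linarith)
  have hlogU : Real.log U ≤ κ * ℓ := by
    have e2 := Real.log_le_log hUpos hUle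
    rwa [Real.log_rpow hx0, ← hℓ] at e2
  have hxκ' : (x : ℝ) ^ κ ≤ (x : ℝ) ^ κ' := Real.rpow_le_rpow_of_exponent_le hx1 hκκ.le
  have hW15 : (15 : ℝ) < W := by linarith
  have hWpos : (0 : ℝ) < W := by linarith
  have hlogW2 : Real.log W ≤ κ' * ℓ := by
    have e2 := Real.log_le_log hWpos hWle
    rwa [Real.log_rpow hx0, ← hℓ] at e2
  have hlogW : κ' * ℓ - 1 ≤ Real.log W := by
    have e1 : (x : ℝ) ^ κ' ≤ 2 * W := by linarith
    have e2 := Real.log_le_log (Real.rpow_pos_of_pos hx0 _) e1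
    rw [Real.log_rpow hx0, ← hℓ, Real.log_mul (by norm_num) hWpos.ne'] at e2
    have := Real.log_two_lt_d9
    linarith
  have hD : c * ℓ ≤ Real.log W - Real.log U := by
    have e1 : c * ℓ + c * ℓ = κ' * ℓ - κ * ℓ := by rw [hc]; ring
    linarith
  have hD0 : 0 < Real.log W - Real.log U := by linarith
  have hUW : U < W := by
    have e1 : Real.log U < Real.log W := by linarith
    have e2 := (Real.log_lt_log_iff hUpos hWpos).mp e1
    exact_mod_cast e2
  have hWVr : ((W * V : ℕ) : ℝ) ≤ (x : ℝ) ^ (κ' + ν) := by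
    push_cast
    rw [Real.rpow_add hx0]
    exact mul_le_mul hWle hVle (Nat.cast_nonneg V) (by positivity)
  have hWVx : W * V ≤ x := by
    have e1 : (x : ℝ) ^ (κ' + ν) ≤ (x : ℝ) ^ (1 : ℝ) :=
      Real.rpow_le_rpow_of_exponent_le hx1 (by linarith)
    rw [Real.rpow_one] at e1
    exact_mod_cast hWVr.trans e1
  have hWWV : W ≤ W * V := Nat.le_mul_of_pos_right W (by omega)
  have hWx : W ≤ x := hWWV.trans hWVx
  have hlogV0 : 0 ≤ Real.log V := Real.log_nonneg (by exact_mod_cast hV1)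
  have hlogV : Real.log V ≤ ℓ := by
    apply Real.log_le_log (by exact_mod_cast hV1)
    have e1 : V ≤ W * V := Nat.le_mul_of_pos_left V (by omega)
    exact_mod_cast e1.trans hWVx
  obtain ⟨hg1, hg2⟩ := hU₀ U W hU0U hUW
  refine ⟨hU1, hUW, ?_⟩
  -- the maximising y
  have hy : ∀ d : ℕ, ∃ y : ℕ, y ≤ x ∧ ∀ y' ≤ x, |((NZ y' d 0 : ℤ) : ℝ) - ((NZ y' 1 0 : ℤ) : ℝ) / d| ≤
      |((NZ y d 0 : ℤ) : ℝ) - ((NZ y 1 0 : ℤ) : ℝ) / d| := by
    intro d
    obtain ⟨y, hy1, hy2⟩ := Finset.exists_max_image (range (x + 1))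
      (fun y => |((NZ y d 0 : ℤ) : ℝ) - ((NZ y 1 0 : ℤ) : ℝ) / d|) ⟨0, by rw [mem_range]; omega⟩
    rw [mem_range] at hy1
    refine ⟨y, by omega, fun y' hy' => hy2 y' (by rw [mem_range]; omega)⟩
  choose y hyx hymax using hy
  set e : ℕ → ℝ := fun d => |((NZ (y d) d 0 : ℤ) : ℝ) - ((NZ (y d) 1 0 : ℤ) : ℝ) / d| with he
  have he' : ∀ d y, 0 < d → y ≤ x → |((NZ y d 0 : ℤ) : ℝ) - ((NZ y 1 0 : ℤ) : ℝ) / d| ≤ e d :=
    fun d y' _ hy' => hymax d y' hy'
  set N := ((NZ x 1 0 : ℤ) : ℝ) with hNdef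
  set Y := (x : ℝ) ^ lam with hY
  have hY0 : 0 < Y := Real.rpow_pos_of_pos hx0 _
  have hNpos : 0 < N := by linarith
  set Mx := Y * Real.exp (-(Real.sqrt ℓ) / 2000) with hMx
  have hbound3 : ∑ d ∈ Mod6 (W * V), e d ≤ Mx := by
    have h7 := hA (W * V) hWVr y (fun _ => 0) hyx
    refine le_trans (sum_le_sum fun d hd => ?_) h7
    have e1 := tau_one_le d (Mod6_pos hd)
    have e2 : 0 ≤ e d := abs_nonneg _
    calc e d = 1 * e d := (one_mul _).symm
      _ ≤ tau d ^ 2 * e d := mul_le_mul_of_nonneg_right e1 e2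
  have hbound2 : ∑ d ∈ Mod6 W, e d ≤ Mx := by
    refine le_trans ?_ hbound3
    apply sum_le_sum_of_subset_of_nonneg
    · unfold Mod6
      apply filter_subset_filter
      exact Icc_subset_Icc_right hWWV
    · intro d _ _
      exact abs_nonneg _
  have s1 := S1_bound V x
  have s2 := S2W_bound U W x hU1 hUW hxone hWx e he'
  have s3 := S3W_bound U W V x hU1 hUW hxone hWVx e he'
  have hLZ := LZ_one x hxone (3 * Y) (fun y' hy' => NZ_abs x y' hx10 hy')
  rw [← hℓ] at s2 s3 hLZ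
  -- decomposition
  have hdec : Tf (fun n => ArithmeticFunction.vonMangoldt n) x = Tf (fun n => La1 V n) x +
      Tf (fun n => (ArithmeticFunction.log * aW U W) n) x -
      Tf (fun n => ((ArithmeticFunction.zeta : ArithmeticFunction ℝ) * (La1 V * aW U W)) n) x +
      Tf (fun n => (La2 V * alW U W) n) x := by
    rw [← Tf_add, ← Tf_sub, ← Tf_add]
    congr 1
    funext n
    have h7 := congrArg (fun f : ArithmeticFunction ℝ => f n) (vaughanW U W V)
    have h8 : (La1 V + ArithmeticFunction.log * aW U W -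
      (ArithmeticFunction.zeta : ArithmeticFunction ℝ) * (La1 V * aW U W) + La2 V * alW U W) =
      La1 V + ArithmeticFunction.log * aW U W +
      (-((ArithmeticFunction.zeta : ArithmeticFunction ℝ) * (La1 V * aW U W))) + La2 V * alW U W := by ring
    rw [h8] at h7
    rw [h7, ArithmeticFunction.add_apply, ArithmeticFunction.add_apply, ArithmeticFunction.add_apply,
      ArithmeticFunction.neg_apply]
    ring
  have hprime := Tf_prime x hxone
  rw [← hℓ] at hprime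
  -- the error terms
  have r1 : 6 * (V : ℝ) ≤ η / 16 * N := by
    have e1 : (V : ℝ) ≤ (x : ℝ) ^ (1 / 3 : ℝ) :=
      hVle.trans (Real.rpow_le_rpow_of_exponent_le hx1 (by linarith))
    have e2 : (x : ℝ) ^ (3 / 4 : ℝ) ≤ Y := Real.rpow_le_rpow_of_exponent_le hx1 (by linarith)
    have e3 : η / 640 * (x : ℝ) ^ (3 / 4 : ℝ) ≤ η / 640 * Y := mul_le_mul_of_nonneg_left e2 (by positivity)
    have e4 : η / 16 * (Y / 40) ≤ η / 16 * N := mul_le_mul_of_nonneg_left hN1 (by positivity)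
    linarith
  have r2 : 4 * ℓ * Mx ≤ η / 8 * N := by
    have e2 : ℓ * Real.exp (-(Real.sqrt ℓ) / 2000) ≤ η / 1280 := by
      have e3 : ℓ * Real.exp (-(Real.sqrt ℓ) / 2000) =
          Real.exp (Real.log ℓ + -(Real.sqrt ℓ) / 2000) := by
        rw [Real.exp_add, Real.exp_log hℓ0]
      have e4 : η / 1280 = Real.exp (-(Real.log (1280 / η))) := by
        rw [Real.exp_neg, Real.exp_log (by positivity), inv_div]
      rw [e3, e4]
      apply Real.exp_le_exp.mpr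
      linarith
    calc 4 * ℓ * Mx = 4 * Y * (ℓ * Real.exp (-(Real.sqrt ℓ) / 2000)) := by rw [hMx]; ring
      _ ≤ 4 * Y * (η / 1280) := mul_le_mul_of_nonneg_left e2 (by positivity)
      _ = η / 8 * (Y / 40) := by ring
      _ ≤ η / 8 * N := mul_le_mul_of_nonneg_left hN1 (by positivity)
  have hg1' : |g1W U W| ≤ η / (1920 * ℓ) := by
    refine hg1.trans ?_
    rw [div_le_div_iff₀ hD0 (by positivity)]
    have e1 : ε * (1920 * ℓ) = η * (c * ℓ) := by rw [hε]; ring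
    rw [e1]
    exact mul_le_mul_of_nonneg_left hD hη.le
  have hg2' : |g2W U W + 3| ≤ η / 1920 := by
    refine hg2.trans ?_
    rw [div_le_div_iff₀ hD0 (by norm_num)]
    have e1 : ε * Real.log W * 1920 = η * (c * Real.log W) := by rw [hε]; ring
    rw [e1]
    apply mul_le_mul_of_nonneg_left _ hη.le
    refine le_trans ?_ hD
    apply mul_le_mul_of_nonneg_left _ hc0.le
    have : κ' * ℓ ≤ 1 * ℓ := mul_le_mul_of_nonneg_right (by linarith) hℓ0.le
    linarith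
  have r3 : |LZ x 1 * g1W U W| ≤ η / 8 * N := by
    rw [abs_mul]
    calc |LZ x 1| * |g1W U W| ≤ (2 * ℓ * (3 * Y)) * (η / (1920 * ℓ)) :=
          mul_le_mul hLZ hg1' (abs_nonneg _) (by positivity)
      _ = η / 8 * (Y / 40) := by field_simp; ring
      _ ≤ η / 8 * N := mul_le_mul_of_nonneg_left hN1 (by positivity)
  have r4 : |N * (g2W U W + 3)| ≤ η / 64 * N := by
    rw [abs_mul, abs_of_pos hNpos, mul_comm]
    exact mul_le_mul_of_nonneg_right (hg2'.trans (by linarith)) hNpos.le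
  have r5 : |N * ((∑ l ∈ Ioc 0 V, tw (La1 V) l) * g1W U W)| ≤ η / 8 * N := by
    obtain ⟨f1, f2⟩ := sum_La V hV1
    rw [abs_mul, abs_of_pos hNpos, abs_mul, abs_of_nonneg f1, mul_comm N]
    apply mul_le_mul_of_nonneg_right _ hNpos.le
    calc (∑ l ∈ Ioc 0 V, tw (La1 V) l) * |g1W U W| ≤ (Real.log V + 6) * (η / (1920 * ℓ)) :=
          mul_le_mul f2 hg1' (abs_nonneg _) (by linarith)
      _ ≤ (7 * ℓ) * (η / (1920 * ℓ)) := by
          apply mul_le_mul_of_nonneg_right _ (by positivity)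
          linarith
      _ = 7 * η / 1920 := by field_simp
      _ ≤ η / 8 := by linarith
  have r6 : 2 * Real.sqrt x * ℓ + 4 ≤ η / 8 * N := by
    have hs1 : 1 ≤ Real.sqrt x := Real.one_le_sqrt.mpr hx1
    have e1 : 2 * Real.sqrt x * ℓ + 4 ≤ Real.sqrt x * (6 * ℓ) := by
      have a1 : 4 ≤ Real.sqrt x * (4 * ℓ) := by
        have : 1 * (4 * 1) ≤ Real.sqrt x * (4 * ℓ) := mul_le_mul hs1 (by linarith) (by norm_num) (by positivity)
        linarith
      linarith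
    have e2 : Real.sqrt x * (6 * ℓ) ≤ Real.sqrt x * ((η / 320) * (x : ℝ) ^ (1 / 4 : ℝ)) :=
      mul_le_mul_of_nonneg_left h4 (by positivity)
    have e3 : Real.sqrt x * (x : ℝ) ^ (1 / 4 : ℝ) ≤ Y := by
      rw [Real.sqrt_eq_rpow, ← Real.rpow_add hx0, hY]
      apply Real.rpow_le_rpow_of_exponent_le hx1
      linarith
    have e4 : Real.sqrt x * ((η / 320) * (x : ℝ) ^ (1 / 4 : ℝ)) =
        η / 320 * (Real.sqrt x * (x : ℝ) ^ (1 / 4 : ℝ)) := by ring
    have e5 : η / 320 * (Real.sqrt x * (x : ℝ) ^ (1 / 4 : ℝ)) ≤ η / 320 * Y :=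
      mul_le_mul_of_nonneg_left e3 (by positivity)
    have e6 : η / 8 * (Y / 40) ≤ η / 8 * N := mul_le_mul_of_nonneg_left hN1 (by positivity)
    linarith
  have q2 : 3 * ℓ * ∑ d ∈ Mod6 W, e d ≤ 3 * ℓ * Mx := mul_le_mul_of_nonneg_left hbound2 (by positivity)
  have q3 : ℓ * ∑ d ∈ Mod6 (W * V), e d ≤ ℓ * Mx := mul_le_mul_of_nonneg_left hbound3 (by positivity)
  have t2 := s2.trans q2
  have t3 := s3.trans q3
  have t1 := s1.trans r1
  have tp := hprime.trans r6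
  rw [hdec] at tp
  have e2 : N * (g2W U W + 3) = N * g2W U W + 3 * N := by ring
  rw [e2] at r4
  have hηN : 0 < η * N := by positivity
  rw [abs_le] at t1 t2 t3 tp r3 r4 r5 ⊢
  constructor <;> nlinarith [t1.1, t1.2, t2.1, t2.2, t3.1, t3.2, tp.1, tp.2, r3.1, r3.2, r4.1, r4.2, r5.1, r5.2]

end Pool.Agent.Odious24
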