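import Mathlib
import Pool.Agent.Helper24.Odious3.Two2

set_option autoImplicit false

namespace Pool.Agent.Odious24

open Finset Filter

/-- the cut-off -/
noncomputable def h2 (U W d : ℕ) : ℝ :=
  if d ≤ U then 1 else if d ≤ W then (Real.log W - Real.log d) / (Real.log W - Real.log U) else 0

/-- the coefficient of the bilinear sum -/
noncomputable def al2 (U W b : ℕ) : ℝ :=
  (if b = 1 then 1 else 0) - ∑ d ∈ b.divisors, ((ArithmeticFunction.moebius d : ℤ) : ℝ) * h2 U W d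

/-- the bilinear sum -/
noncomputable def B2 (x U W V : ℕ) : ℝ :=
  ∑ n ∈ (range x).filter (fun n => Nat.Coprime n 6), (Nceb06bb4.signWeight n : ℝ) *
    ∑ q ∈ n.divisorsAntidiagonal.filter (fun q => U < q.1 ∧ V < q.2),
      al2 U W q.1 * ArithmeticFunction.vonMangoldt q.2

theorem hW_eq (U W d : ℕ) (hU : 1 ≤ U) (hUW : U < W) (hd : 1 ≤ d) : hW U W d = h2 U W d := by
  unfold h2
  by_cases h : d ≤ U
  · rw [if_pos h]
    exact hW_one U W d hU hUW hd h
  · rw [if_neg h]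
    by_cases h' : d ≤ W
    · rw [if_pos h']
      exact hW_mid U W d hU (not_le.mp h) h'
    · rw [if_neg h']
      exact hW_big U W d hUW (not_le.mp h')

theorem alW_eq (U W b : ℕ) (hU : 1 ≤ U) (hUW : U < W) : alW U W b = al2 U W b := by
  rw [alW_apply]
  unfold al2
  congr 1
  apply sum_congr rfl
  intro d hd
  rw [aW_apply, hW_eq U W d hU hUW (Nat.pos_of_mem_divisors hd)]

theorem B2_eq (x U W V : ℕ) (hU : 1 ≤ U) (hUW : U < W) : Tf (fun n => (La2 V * alW U W) n) x = B2 x U W V := by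
  unfold Tf B2
  apply sum_congr rfl
  intro n _
  congr 1
  change (La2 V * alW U W) n = _
  rw [mul_comm (La2 V) (alW U W), ArithmeticFunction.mul_apply]
  rw [← sum_filter_of_ne (p := fun q : ℕ × ℕ => U < q.1 ∧ V < q.2)]
  · apply sum_congr rfl
    intro q hq
    rw [mem_filter] at hq
    rw [alW_eq U W q.1 hU hUW]
    congr 1
    change (if V < q.2 then ArithmeticFunction.vonMangoldt q.2 else 0) = _
    rw [if_pos hq.2.2]
  · intro q _ hne
    constructor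
    · by_contra h
      apply hne
      rw [alW_small U W q.1 hU hUW (not_lt.mp h), zero_mul]
    · by_contra h
      apply hne
      have h9 : La2 V q.2 = 0 := by
        change (if V < q.2 then ArithmeticFunction.vonMangoldt q.2 else 0) = _
        rw [if_neg h]
      rw [h9, mul_zero]

theorem final7 (η : ℝ) (hη : 0 < η) :
    (∀ Δ : ℝ, Δ < Real.log 3 / Real.log 4 - 1 / 2 → ∃ R₀ X : ℕ, ∀ x R : ℕ, X ≤ x → R₀ ≤ R →
      (R : ℝ) ≤ (x : ℝ) ^ Δ → |Tf (LR R) x - 3 * N0 x| ≤ η * N0 x) ∧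
    (∀ κ κ' ν : ℝ, 0 < κ → κ < κ' → 0 < ν → κ' + ν < Real.log 3 / Real.log 4 - 1 / 2 →
      ∃ X : ℕ, ∀ x U W V : ℕ, X ≤ x →
        U = ⌊(x : ℝ) ^ κ⌋₊ → W = ⌊(x : ℝ) ^ κ'⌋₊ → V = ⌊(x : ℝ) ^ ν⌋₊ →
          (∀ b, |al2 U W b| ≤ (b.divisors.card : ℝ)) ∧
            |Pr x - (3 * N0 x + B2 x U W V)| ≤ η * N0 x) := by
  refine ⟨(final5 η hη).1, ?_⟩
  intro κ κ' ν h1 h2 h3 h4
  obtain ⟨X, h⟩ := final6 κ κ' ν η h1 h2 h3 h4 hη
  refine ⟨X, fun x U W V hx hU hW hV => ?_⟩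
  obtain ⟨f1, f2, f3⟩ := h x U W V hx hU hW hV
  refine ⟨fun b => ?_, ?_⟩
  · rw [← alW_eq U W b f1 f2]
    exact alW_abs U W b f1 f2
  · rw [B2_eq x U W V f1 f2, NZ_N0] at f3
    exact f3

end Pool.Agent.Odious24
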